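import Pool.Agent.Helper62.GL.Up
import Pool.Agent.Helper56.GL.D

/-!
# The family of maps into `α`
-/

open FirstOrder FirstOrder.Language Ordinal Cardinal Set Helper23.Pcf

universe u v

namespace Pool.Agent.Helper62.GL

open Pool.Agent.Helper56.MW (LSet MM OrdDef HasDefWO Df DefBy LexLt val Nrm exists_val exists_set
  defBy_wo_gen stat_iUnion stat_cof H6_countable aleph0_lt_cof_omega1)
open Pool.Agent.Helper97.FP (Wo Agr Univ Enum enum_agree regular_aleph2)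
open Pool.Agent.Helper56.GL (exists_seq exists_dom bdd_of_few isGraph_range df_Da ordDef_isX)

theorem exists_isX (D : Ordinal.{u} → ZFSet.{u} → Prop) (α : Ordinal.{u}) :
    ∃ X, IsX (ω_ 1) ω α D X := by
  refine ⟨ZFSet.sep (Xm (ω_ 1) ω α D) (ZFSet.powerset (ZFSet.prod (ω : Ordinal.{u}).toZFSet
    α.toZFSet)), fun e => ?_⟩
  rw [ZFSet.mem_sep, ZFSet.mem_powerset]
  refine and_iff_right_of_imp fun h z hz => ?_
  obtain ⟨n, hn, rfl⟩ := (h.1 z).1 hz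
  rw [ZFSet.pair_mem_prod]
  exact ⟨toZFSet_mem_toZFSet_iff.2 hn, toZFSet_mem_toZFSet_iff.2 (h.2.1.1 n hn)⟩

theorem gr_of_graph {e : ZFSet.{u}} {f : ℕ → Ordinal.{u}} (h : IsGraph e f) : Gr ω e := by
  intro z
  rw [h z]
  constructor
  · rintro ⟨n, rfl⟩
    exact ⟨n, Ordinal.natCast_lt_omega0 n, by rw [val_of_graph h]⟩
  · rintro ⟨n, hn, rfl⟩
    obtain ⟨k, rfl⟩ := Ordinal.lt_omega0.1 hn
    exact ⟨k, by rw [val_of_graph h]⟩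

theorem Gr.isGraph {e : ZFSet.{u}} (h : Gr ω e) : IsGraph e (fun n : ℕ => val e n) := by
  intro z
  rw [h z]
  constructor
  · rintro ⟨n, hn, rfl⟩
    obtain ⟨k, rfl⟩ := Ordinal.lt_omega0.1 hn
    exact ⟨k, rfl⟩
  · rintro ⟨n, rfl⟩
    exact ⟨n, Ordinal.natCast_lt_omega0 n, rfl⟩

theorem Cs.cofSeq {α : Ordinal.{u}} {e : ZFSet.{u}} (h : Cs ω α e) :
    CofSeq α (fun n : ℕ => val e n) := by
  refine ⟨fun m n hmn => ?_, fun n => h.1 n (Ordinal.natCast_lt_omega0 n), fun β hβ => ?_⟩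
  · exact h.2.1 n (Ordinal.natCast_lt_omega0 n) m (by exact_mod_cast hmn)
  · obtain ⟨n, hn, h1⟩ := h.2.2 β hβ
    obtain ⟨k, rfl⟩ := Ordinal.lt_omega0.1 hn
    exact ⟨k, h1⟩

theorem Dn.congr {D : Ordinal.{u} → ZFSet.{u} → Prop} {f f' : Ordinal.{u} → Ordinal.{u}}
    {ξ : Ordinal.{u}} (h : Dn D f ξ) (hff : f '' Iio ξ = f' '' Iio ξ) : Dn D f' ξ := by
  obtain ⟨δ, g, h1, h2⟩ := h
  exact ⟨δ, g, h1.congr hff fun _ _ => rfl, h2⟩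

/-- The images of all large `ξ` are cofinal. -/
theorem exists_cofinal_image {α : Ordinal.{u}} (hc : α.cof = ℵ₀) {f : Ordinal.{u} → Ordinal.{u}}
    (hf : Enum (ω_ 1) α f) : ∃ ξ₀ < ω_ 1, ∀ ξ, ξ₀ < ξ → ∀ β < α, ∃ ζ < ξ, β < f ζ := by
  obtain ⟨ν, hν⟩ := exists_seq hc
  choose z hz1 hz2 using fun n => hf.2 (ν n) (hν.lt n)
  have h1 : (⨆ i : ULift.{u} ℕ, z i.down) < ω_ 1 := by
    refine Ordinal.iSup_lt_of_lt_cof ?_ fun i => hz1 _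
    rw [Cardinal.mk_uLift, Cardinal.mk_nat, Cardinal.lift_aleph0]
    exact aleph0_lt_cof_omega1
  refine ⟨_, h1, fun ξ hξ β hβ => ?_⟩
  obtain ⟨n, hn⟩ := hν.cof β hβ
  refine ⟨z n, lt_of_le_of_lt ?_ hξ, by rwa [hz2]⟩
  exact Ordinal.le_iSup (fun i : ULift.{u} ℕ => z i.down) ⟨n⟩

/-- The family of maps into `α` is nonempty and bounded. -/
theorem isX_good (h : MM.{u}) {D : Ordinal.{u} → ZFSet.{u} → Prop}
    (hD : ∀ γ X Y, D γ X → D γ Y → X = Y) (hX : ∀ γ X, D γ X → Sq ω γ X ∧ Ab ω γ X)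
    {α : Ordinal.{u}} (hc : α.cof = ℵ₀) (hl : ∀ β < α, β + ω < α)
    {f : Ordinal.{u} → Ordinal.{u}} (hf : Enum (ω_ 1) α f)
    (hst : StatIn {ξ | Dn D f ξ} (ω_ 1)) {X : ZFSet.{u}} (hIs : IsX (ω_ 1) ω α D X) :
    Seqs α X ∧ BddAb α X := by
  classical
  have hw : ∀ n : ℕ, (n : Ordinal.{u}) < ω := Ordinal.natCast_lt_omega0
  have hlim1 : Order.IsSuccLimit (ω_ 1 : Ordinal.{u}) :=
    Ordinal.one_lt_cof_iff.1 (one_lt_aleph0.trans aleph0_lt_cof_omega1)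
  obtain ⟨ν, hν⟩ := exists_seq hc
  obtain ⟨ξ₀, hξ₀, hcof⟩ := exists_cofinal_image hc hf
  have hfα : ∀ ξ < ω_ 1, ∀ ζ < ξ, f ζ < α := fun ξ hξ ζ hζ => hf.1 ζ (hζ.trans hξ)
  -- one map for each `ξ`
  have hb : ∀ ξ, ∃ b : ℕ → Ordinal.{u}, CofSeq α b ∧ (ξ₀ < ξ → ξ < ω_ 1 → Dn D f ξ →
      ∃ δ, ∃ g : ZFSet.{u}, Enu f ξ δ (val g) ∧ ∃ Z, D δ Z ∧ ∃ c ∈ Z,
        ∀ n : ℕ, b n = val g (val c n)) := by
    intro ξ
    by_cases h1 : ξ₀ < ξ ∧ ξ < ω_ 1 ∧ Dn D f ξ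
    · obtain ⟨h2, h3, δ, g, hg, Z, hZ⟩ := h1
      obtain ⟨c, hcZ⟩ := (hX _ _ hZ).1.1
      exact ⟨_, hg.cofSeq (hcof ξ h2) (hfα ξ h3) ((hX _ _ hZ).1.2 c hcZ),
        fun _ _ _ => ⟨δ, g, hg, Z, hZ, c, hcZ, fun _ => rfl⟩⟩
    · exact ⟨ν, hν, fun h2 h3 h4 => absurd ⟨h2, h3, h4⟩ h1⟩
  choose b hb1 hb2 using hb
  obtain ⟨e₀, he1, he2⟩ := exists_lower h hc hl b (fun ξ β hβ => by
    obtain ⟨N, hN⟩ := (hb1 ξ).cof β hβ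
    exact ⟨N, fun n hn => hN.le.trans ((hb1 ξ).mono.monotone hn)⟩)
  -- a bound for each `ξ`
  have ht : ∀ ξ, ∃ t : ℕ → Ordinal.{u}, (∀ n, t n < α) ∧ (ξ < ω_ 1 → ∀ (δ : Ordinal.{u})
      (g Z c : ZFSet.{u}), Enu f ξ δ (val g) → D δ Z → c ∈ Z →
        ∃ m : ℕ, ∀ n : ℕ, m ≤ n → val g (val c n) ≤ t n) := by
    intro ξ
    by_cases h1 : ξ < ω_ 1 ∧ Dn D f ξ
    · obtain ⟨h3, δ₀, g₀, hg₀, Z₀, hZ₀⟩ := h1
      obtain ⟨t₀, ht₀, htb⟩ := (hX _ _ hZ₀).2.elim (hX _ _ hZ₀).1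
      refine ⟨fun n => val g₀ (val t₀ n), fun n => ?_, fun _ δ g Z c hg hZ hcZ => ?_⟩
      · obtain ⟨ζ, hζ, h4⟩ := hg₀.1 _ (ht₀.1 n)
        show val g₀ (val t₀ n) < α
        rw [← h4]
        exact hfα ξ h3 ζ hζ
      · obtain ⟨rfl, h4⟩ := hg.unique hg₀
        obtain rfl := hD _ _ _ hZ hZ₀
        obtain ⟨m, hm⟩ := htb c hcZ
        refine ⟨m, fun n hn => ?_⟩
        rw [h4 _ (((hX _ _ hZ).1.2 c hcZ).1 n (hw n))]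
        exact hg₀.le (ht₀.1 n) (hm n hn)
    · refine ⟨ν, hν.lt, fun h3 δ g Z c hg hZ _ => ?_⟩
      exact absurd ⟨h3, δ, g, hg, Z, hZ⟩ h1
  choose t ht1 ht2 using ht
  obtain ⟨T, hT1, hT2⟩ := exists_upper h hc t ht1
  refine ⟨⟨?_, fun c hcX => ?_⟩, T, hT1, fun e heX F hF => ?_⟩
  · -- nonempty
    have hgr := isGraph_range.{u} e₀
    refine ⟨_, (hIs _).2 ⟨gr_of_graph hgr, cs_of_val he1 (val_of_graph hgr), ?_⟩⟩
    obtain ⟨f', hf'⟩ := exists_val f (ω_ 1)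
    have him : ∀ ξ ≤ ω_ 1, val f' '' Iio ξ = f '' Iio ξ := fun ξ hξ =>
      Set.image_congr fun ζ hζ => hf' ζ (lt_of_lt_of_le hζ hξ)
    refine ⟨f', ⟨fun ξ hξ => by rw [hf' ξ hξ]; exact hf.1 ξ hξ, fun β hβ => ?_⟩, fun hS => ?_⟩
    · obtain ⟨ξ, hξ, h1⟩ := hf.2 β hβ
      exact ⟨ξ, hξ, by rw [hf' ξ hξ]; exact h1⟩
    · obtain ⟨ξ, ⟨hξ1, hξ2⟩, hξ3, hξ4⟩ := hS _ (club_Ioi hlim1 hξ₀)
      obtain ⟨δ, g, hg, Z, hZ, c, hcZ, h5⟩ := hb2 ξ hξ3 hξ4 (hξ1.congr (him ξ hξ4.le))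
      obtain ⟨m, hm⟩ := he2 ξ hξ4
      refine hξ2 ⟨δ, g, hg.congr (him ξ hξ4.le).symm fun _ _ => rfl, Z, hZ, c, hcZ, m, hw m,
        fun n hn hmn => ?_⟩
      obtain ⟨k, rfl⟩ := Ordinal.lt_omega0.1 hn
      rw [val_of_graph hgr, ← h5]
      exact hm k (by exact_mod_cast hmn)
  · have h1 := (hIs c).1 hcX
    exact ⟨_, h1.2.1.cofSeq, h1.1.isGraph⟩
  · -- bounded
    obtain ⟨h1, h2, fe, hfe, hS⟩ := (hIs e).1 heX
    unfold StatIn at hS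
    push Not at hS
    obtain ⟨C₁, hC₁, hS⟩ := hS
    obtain ⟨C₂, hC₂, hag⟩ := enum_agree hf hfe
    obtain ⟨ξ, hξ1, hξ2, hξ3⟩ := hst _ (club_inter aleph0_lt_cof_omega1 hC₁ hC₂)
    have him : f '' Iio ξ = val fe '' Iio ξ := hag ξ hξ2.2 hξ3
    have hEv : Ev ω D (val fe) ξ e := by
      by_contra h3
      exact absurd hξ3 (not_lt.2 (hS ξ ⟨hξ1.congr him, h3⟩ hξ2.1))
    obtain ⟨δ, g, hg, Z, hZ, c, hcZ, m, hm, h4⟩ := hEv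
    obtain ⟨m, rfl⟩ := Ordinal.lt_omega0.1 hm
    obtain ⟨m₁, hm₁⟩ := ht2 ξ hξ3 δ g Z c (hg.congr him.symm fun _ _ => rfl) hZ hcZ
    obtain ⟨m₂, hm₂⟩ := hT2 ξ hξ3
    refine ⟨max m (max m₁ m₂), fun n hn => ?_⟩
    have hn0 : m ≤ n := (le_max_left _ _).trans hn
    have hn1 : m₁ ≤ n := ((le_max_left _ _).trans (le_max_right _ _)).trans hn
    have hn2 : m₂ ≤ n := ((le_max_right _ _).trans (le_max_right _ _)).trans hn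
    rw [← val_of_graph hF n]
    exact ((h4 n (hw n) (by exact_mod_cast hn0)).trans (hm₁ n hn1)).trans (hm₂ n hn2)

/-- From stationarily many countable ordinals to an ordinal `α < ω₂`. -/
theorem exists_fam (h : MM.{u}) {n : ℕ} (φ : LSet.Formula (Fin n ⊕ Fin 2)) {α : Ordinal.{u}}
    (hc : α.cof = ℵ₀) (hl : ∀ β < α, β + ω < α) {f : Ordinal.{u} → Ordinal.{u}}
    (hf : Enum (ω_ 1) α f) (hst : StatIn {ξ | Dn (Da φ ω) f ξ} (ω_ 1)) :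
    ∃ X, OrdDef ∅ X ∧ Seqs α X ∧ BddAb α X := by
  obtain ⟨X, hIs⟩ := exists_isX (Da φ ω) α
  refine ⟨X, ?_, isX_good h (D := Da φ ω) (fun γ X Y => ls_unique) (fun γ X hX => hX.1.1) hc hl hf hst hIs⟩
  exact ordDef_isX (κ := Unit) (D := fun c => Da φ (c ())) (df_Da φ (some ()) none ())
    (fun _ => ω) hIs

end Pool.Agent.Helper62.GL
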