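import Pool.Agent.Helper62.GL.In
import Pool.Agent.Helper56.MW.A6

/-!
# The codes of a class agree on a club; fast and slow maps
-/

open FirstOrder FirstOrder.Language Ordinal Cardinal Set Helper23.Pcf

universe u v

namespace Pool.Agent.Helper62.GL

open Pool.Agent.Helper56.MW (LSet DefBy val Nrm nrm_agree aleph0_lt_cof_omega1)
open Pool.Agent.Helper97.FP (Wo Agr)

/-! ### Agreement on clubs -/

/-- The limit points of a club form a club. -/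
theorem club_unb {o : Ordinal.{u}} (ho : ℵ₀ < o.cof) {C : Set Ordinal.{u}} (hC : ClubIn C o) :
    ClubIn {ν | ν ∈ C ∧ UnbIn C ν} o := by
  have hy : ∀ x, ∃ y, x < o → y ∈ C ∧ x < y ∧ y < o := by
    intro x
    by_cases hx : x < o
    · obtain ⟨y, h1⟩ := hC.unb x hx
      exact ⟨y, fun _ => h1⟩
    · exact ⟨0, fun h => absurd h hx⟩
  choose g hg using hy
  refine ⟨fun x hx => ?_, fun δ hδ h0 hu => ?_⟩
  · obtain ⟨z, hz, hxz, hz'⟩ := exists_iter ho g (fun x hx => (hg x hx).2) x hx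
    have hu : UnbIn C z := by
      intro w hw
      obtain ⟨v, hv, hwv, hgv⟩ := hz' w hw
      have h1 := hg v (hv.trans hz)
      exact ⟨g v, h1.1, hwv.trans h1.2.1, hgv⟩
    exact ⟨z, ⟨hC.cl z hz (lt_of_le_of_lt zero_le hxz) hu, hu⟩, hxz, hz⟩
  · have hu' : UnbIn C δ := hu.mono fun ν hν => hν.1
    exact ⟨hC.cl δ hδ h0 hu', hu'⟩

section

variable {o ρ : Ordinal.{u}} {D : Ordinal.{u} → ZFSet.{u} → Prop}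

theorem no_both {C : Set Ordinal.{u}} {f₁ f f₁' f' : Ordinal.{u} → Ordinal.{u}} {ν : Ordinal.{u}}
    {d c : ZFSet.{u}} (hu : UnbIn C ν) (h1 : ∀ ξ ∈ C, ξ < ν → f₁ ξ = f₁' ξ ∧ f ξ = f' ξ)
    (ht : Tl o d c f₁ f ν) (hn : Tn o d c f₁' f' ν) : False := by
  obtain ⟨ν₀, h2, h3⟩ := ht
  obtain ⟨ν₁, h4, h5⟩ := hn
  obtain ⟨ξ, h6, h7, h8⟩ := hu (max ν₀ ν₁) (max_lt h2 h4)
  obtain ⟨e1, e2⟩ := h1 ξ h6 h8
  have h9 := h3 ξ (lt_of_le_of_lt (le_max_left _ _) h7) h8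
  rw [e1, e2] at h9
  exact h5 ξ (lt_of_le_of_lt (le_max_right _ _) h7) h8 h9

theorem agree_aux {w : Ordinal.{u}} (hw : w = ω_ 1) {η : Ordinal.{u}}
    {f₁ f f₁' f' : Ordinal.{u} → Ordinal.{u}} (h1 : Nrm w ρ f₁) (h2 : Nrm w η f)
    (h1' : Nrm w ρ f₁') (h2' : Nrm w η f') :
    ∃ C C' : Set Ordinal.{u}, ClubIn C w ∧ ∀ ν ∈ C, ν < w → Order.IsSuccLimit ν ∧ UnbIn C' ν ∧
      (f₁ ν = f₁' ν ∧ f ν = f' ν) ∧ ∀ ξ ∈ C', ξ < ν → f₁ ξ = f₁' ξ ∧ f ξ = f' ξ := by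
  subst hw
  obtain ⟨C₁, hC₁, e1⟩ := nrm_agree h1 h1'
  obtain ⟨C₂, hC₂, e2⟩ := nrm_agree h2 h2'
  have hC := club_inter aleph0_lt_cof_omega1 hC₁ hC₂
  refine ⟨_, C₁ ∩ C₂, club_inter aleph0_lt_cof_omega1 (club_unb aleph0_lt_cof_omega1 hC)
    (club_limits aleph0_lt_cof_omega1), ?_⟩
  rintro ν ⟨⟨hν1, hν2⟩, hl⟩ hν
  exact ⟨hl, hν2, ⟨e1 ν hν1.1 hν, e2 ν hν1.2 hν⟩, fun ξ hξ hξν =>
    ⟨e1 ξ hξ.1 (hξν.trans hν), e2 ξ hξ.2 (hξν.trans hν)⟩⟩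

theorem not_P1a_P0a (hD : ∀ γ X Y, D γ X → D γ Y → X = Y)
    {f₁ f f₁' f' : Ordinal.{u} → Ordinal.{u}} {ν : Ordinal.{u}} {C : Set Ordinal.{u}}
    (hu : UnbIn C ν) (h0 : f₁ ν = f₁' ν ∧ f ν = f' ν)
    (h1 : ∀ ξ ∈ C, ξ < ν → f₁ ξ = f₁' ξ ∧ f ξ = f' ξ) (hp : P1a o D f₁ f ν)
    (hq : P0a o D f₁' f' ν) : False := by
  obtain ⟨X, Y, hX, hY, d, hd, h2⟩ := hp
  obtain ⟨X', Y', hX', hY', h3⟩ := hq
  rw [← h0.1] at hX'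
  rw [← h0.2] at hY'
  obtain rfl := hD _ _ _ hX hX'
  obtain rfl := hD _ _ _ hY hY'
  obtain ⟨c, hc, h4⟩ := h3 d hd
  exact no_both hu h1 (h2 c hc) h4

theorem not_P1b_P0b (hD : ∀ γ X Y, D γ X → D γ Y → X = Y)
    {f₁ f f₁' f' : Ordinal.{u} → Ordinal.{u}} {ν : Ordinal.{u}} {C : Set Ordinal.{u}}
    (hu : UnbIn C ν) (h0 : f₁ ν = f₁' ν ∧ f ν = f' ν)
    (h1 : ∀ ξ ∈ C, ξ < ν → f₁ ξ = f₁' ξ ∧ f ξ = f' ξ) (hp : P1b o D f₁ f ν)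
    (hq : P0b o D f₁' f' ν) : False := by
  obtain ⟨X, Y, hX, hY, h2⟩ := hp
  obtain ⟨X', Y', hX', hY', d, hd, h3⟩ := hq
  rw [← h0.1] at hX'
  rw [← h0.2] at hY'
  obtain rfl := hD _ _ _ hX hX'
  obtain rfl := hD _ _ _ hY hY'
  obtain ⟨c, hc, h4⟩ := h2 d hd
  exact no_both hu h1 h4 (h3 c hc)

theorem agr_Ra (hD : ∀ γ X Y, D γ X → D γ Y → X = Y) : Agr (Ra (ω_ 1) o ρ D) := by
  rintro η x y ⟨f₁, f, h1, h2, h3⟩ ⟨f₁', f', h1', h2', h3'⟩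
  obtain ⟨C, C', hC, hC'⟩ := agree_aux rfl h1 h2 h1' h2'
  refine ⟨C, hC, fun ν hν hν1 => ?_⟩
  obtain ⟨hl, hu, e0, e1⟩ := hC' ν hν hν1
  constructor
  · intro hx
    by_contra hy
    exact not_P1a_P0a hD hu e0 e1 ((h3 ν hν1 hl).1 hx) ((h3' ν hν1 hl).2 hy)
  · intro hy
    by_contra hx
    exact not_P1a_P0a hD hu ⟨e0.1.symm, e0.2.symm⟩
      (fun ξ h4 h5 => ⟨(e1 ξ h4 h5).1.symm, (e1 ξ h4 h5).2.symm⟩)
      ((h3' ν hν1 hl).1 hy) ((h3 ν hν1 hl).2 hx)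

theorem agr_Rb (hD : ∀ γ X Y, D γ X → D γ Y → X = Y) : Agr (Rb (ω_ 1) o ρ D) := by
  rintro η x y ⟨f₁, f, h1, h2, h3⟩ ⟨f₁', f', h1', h2', h3'⟩
  obtain ⟨C, C', hC, hC'⟩ := agree_aux rfl h1 h2 h1' h2'
  refine ⟨C, hC, fun ν hν hν1 => ?_⟩
  obtain ⟨hl, hu, e0, e1⟩ := hC' ν hν hν1
  constructor
  · intro hx
    by_contra hy
    exact not_P1b_P0b hD hu e0 e1 ((h3 ν hν1 hl).1 hx) ((h3' ν hν1 hl).2 hy)
  · intro hy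
    by_contra hx
    exact not_P1b_P0b hD hu ⟨e0.1.symm, e0.2.symm⟩
      (fun ξ h4 h5 => ⟨(e1 ξ h4 h5).1.symm, (e1 ξ h4 h5).2.symm⟩)
      ((h3' ν hν1 hl).1 hy) ((h3 ν hν1 hl).2 hx)

end

/-! ### The first point above an ordinal -/

/-- The least `n` with `β ≤ val c n`. -/
noncomputable def fp (c : ZFSet.{u}) (β : Ordinal.{u}) : ℕ := sInf {n : ℕ | β ≤ val c n}

/-- The values of `c` are unbounded in `γ`. -/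
def Cf (γ : Ordinal.{u}) (c : ZFSet.{u}) : Prop :=
  (∀ n : ℕ, val c n < γ) ∧ ∀ β < γ, ∃ n : ℕ, β ≤ val c n

section

variable {γ β β' : Ordinal.{u}} {c t : ZFSet.{u}}

theorem fp_spec (h : Cf γ c) (hβ : β < γ) : β ≤ val c (fp c β) :=
  Nat.sInf_mem (h.2 β hβ)

theorem fp_le {n : ℕ} (h : β ≤ val c n) : fp c β ≤ n := Nat.sInf_le h

theorem lt_of_lt_fp {n : ℕ} (h : n < fp c β) : val c n < β := by
  by_contra h1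
  exact absurd (fp_le (not_lt.1 h1)) (not_le.2 h)

theorem fp_mono (h : Cf γ c) (h1 : β ≤ β') (h2 : β' < γ) : fp c β ≤ fp c β' :=
  fp_le (h1.trans (fp_spec h h2))

theorem lt_fp (h : Cf γ c) (hβ : β < γ) {k : ℕ} (hk : ∀ j ≤ k, val c j < β) : k < fp c β := by
  by_contra h1
  exact absurd (fp_spec h hβ) (not_le.2 (hk _ (not_lt.1 h1)))

theorem exists_above (h : Cf γ c) (hl : Order.IsSuccLimit γ) (k : ℕ) :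
    ∃ β < γ, ∀ j ≤ k, val c j < β := by
  induction k with
  | zero =>
    refine ⟨Order.succ (val c (0 : ℕ)), hl.succ_lt (h.1 0), fun n hn => ?_⟩
    obtain rfl : n = 0 := by omega
    exact Order.lt_succ _
  | succ k ih =>
    obtain ⟨β, hβ, h4⟩ := ih
    refine ⟨max β (Order.succ (val c ((k + 1 : ℕ) : Ordinal.{u}))),
      max_lt hβ (hl.succ_lt (h.1 _)), fun n hn => ?_⟩
    rcases Nat.lt_or_ge k n with h5 | h5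
    · obtain rfl : n = k + 1 := by omega
      exact lt_of_lt_of_le (Order.lt_succ _) (le_max_right _ _)
    · exact lt_of_lt_of_le (h4 n h5) (le_max_left _ _)

theorem Cs.cf (h : Cs ω γ c) : Cf γ c := by
  refine ⟨fun n => h.1 n (Ordinal.natCast_lt_omega0 n), fun β hβ => ?_⟩
  obtain ⟨n, hn, h1⟩ := h.2.2 β hβ
  obtain ⟨k, rfl⟩ := Ordinal.lt_omega0.1 hn
  exact ⟨k, h1.le⟩

theorem Cs.le (h : Cs ω γ c) {m n : ℕ} (hmn : m ≤ n) : val c m ≤ val c n := by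
  rcases hmn.lt_or_eq with h1 | rfl
  · exact (h.2.1 n (Ordinal.natCast_lt_omega0 n) m (by exact_mod_cast h1)).le
  · exact le_rfl

/-- A family which is bounded from above, in terms of natural numbers. -/
theorem Ab.elim {X : ZFSet.{u}} (h : Ab ω γ X) (hX : Sq ω γ X) : ∃ t : ZFSet.{u}, Cf γ t ∧
    ∀ c ∈ X, ∃ m : ℕ, ∀ n : ℕ, m ≤ n → val c n ≤ val t n := by
  obtain ⟨t, h1, h2⟩ := h
  have h3 : ∀ c ∈ X, ∃ m : ℕ, ∀ n : ℕ, m ≤ n → val c n ≤ val t n := by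
    intro c hc
    obtain ⟨m, hm, h4⟩ := h2 c hc
    obtain ⟨k, rfl⟩ := Ordinal.lt_omega0.1 hm
    exact ⟨k, fun n hn => h4 n (Ordinal.natCast_lt_omega0 n) (by exact_mod_cast hn)⟩
  refine ⟨t, ⟨fun n => h1 n (Ordinal.natCast_lt_omega0 n), fun β hβ => ?_⟩, h3⟩
  obtain ⟨c, hc⟩ := hX.1
  have hcs := hX.2 c hc
  obtain ⟨m, hm⟩ := h3 c hc
  obtain ⟨n, hn⟩ := hcs.cf.2 β hβ
  exact ⟨max m n, (hn.trans (hcs.le (le_max_right m n))).trans (hm _ (le_max_left m n))⟩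

/-- A family which is bounded from below, in terms of natural numbers. -/
theorem Be.elim {X : ZFSet.{u}} (h : Be ω γ X) : ∃ t : ZFSet.{u}, Cs ω γ t ∧
    ∀ c ∈ X, ∃ m : ℕ, ∀ n : ℕ, m ≤ n → val t n ≤ val c n := by
  obtain ⟨t, h1, h2⟩ := h
  refine ⟨t, h1, fun c hc => ?_⟩
  obtain ⟨m, hm, h4⟩ := h2 c hc
  obtain ⟨k, rfl⟩ := Ordinal.lt_omega0.1 hm
  exact ⟨k, fun n hn => h4 n (Ordinal.natCast_lt_omega0 n) (by exact_mod_cast hn)⟩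

end

section

variable {D : Ordinal.{u} → ZFSet.{u} → Prop} {ρ ν : Ordinal.{u}} {f₁ : Ordinal.{u} → Ordinal.{u}}

theorem fp_mono_nrm (hf : Nrm (ω_ 1) ρ f₁) (hν : ν < ω_ 1) {c : ZFSet.{u}} (h : Cf (f₁ ν) c)
    {ξ ξ' : Ordinal.{u}} (h1 : ξ ≤ ξ') (h2 : ξ' < ν) : fp c (f₁ ξ) ≤ fp c (f₁ ξ') := by
  refine fp_mono h ?_ (hf.mono ν hν ξ' h2)
  rcases h1.lt_or_eq with h3 | rfl
  · exact (hf.mono ξ' (h2.trans hν) ξ h3).le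
  · exact le_rfl

theorem fp_large_nrm (hf : Nrm (ω_ 1) ρ f₁) (hν : ν < ω_ 1) (hl : Order.IsSuccLimit ν)
    {c : ZFSet.{u}} (h : Cf (f₁ ν) c) (k : ℕ) :
    ∃ ν₀ < ν, ∀ ξ, ν₀ < ξ → ξ < ν → k < fp c (f₁ ξ) := by
  have hl' : Order.IsSuccLimit (f₁ ν) := by
    refine ⟨?_, ?_⟩
    · intro hm
      have h1 := hf.mono ν hν ⊥ hl.bot_lt
      exact absurd h1 (not_lt.2 (hm h1.le))
    · intro a ha
      obtain ⟨ξ, hξ, h1⟩ := hf.cont ν hν hl a ha.lt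
      exact ha.2 h1 (hf.mono ν hν ξ hξ)
  obtain ⟨β, hβ, h1⟩ := exists_above h hl' k
  obtain ⟨ν₀, h2, h3⟩ := hf.cont ν hν hl β hβ
  refine ⟨ν₀, h2, fun ξ h4 h5 => lt_fp h (hf.mono ν hν ξ h5) fun j hj => ?_⟩
  exact (h1 j hj).trans (h3.trans (hf.mono ξ (h5.trans hν) ν₀ h4))

theorem P1a_congr {q q' : Ordinal.{u} → Ordinal.{u}} (h : ∀ ξ ≤ ν, q ξ = q' ξ)
    (hp : P1a ω D f₁ q ν) : P1a ω D f₁ q' ν := by
  obtain ⟨X, Y, hX, hY, d, hd, h1⟩ := hp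
  refine ⟨X, Y, hX, h ν le_rfl ▸ hY, d, hd, fun c hc => ?_⟩
  obtain ⟨ν₀, h2, h3⟩ := h1 c hc
  refine ⟨ν₀, h2, fun ξ h4 h5 => ?_⟩
  rw [← h ξ h5.le]
  exact h3 ξ h4 h5

theorem P0a_congr {q q' : Ordinal.{u} → Ordinal.{u}} (h : ∀ ξ ≤ ν, q ξ = q' ξ)
    (hp : P0a ω D f₁ q ν) : P0a ω D f₁ q' ν := by
  obtain ⟨X, Y, hX, hY, h1⟩ := hp
  refine ⟨X, Y, hX, h ν le_rfl ▸ hY, fun d hd => ?_⟩
  obtain ⟨c, hc, ν₀, h2, h3⟩ := h1 d hd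
  refine ⟨c, hc, ν₀, h2, fun ξ h4 h5 => ?_⟩
  rw [← h ξ h5.le]
  exact h3 ξ h4 h5

theorem P1b_congr {q q' : Ordinal.{u} → Ordinal.{u}} (h : ∀ ξ ≤ ν, q ξ = q' ξ)
    (hp : P1b ω D f₁ q ν) : P1b ω D f₁ q' ν := by
  obtain ⟨X, Y, hX, hY, h1⟩ := hp
  refine ⟨X, Y, hX, h ν le_rfl ▸ hY, fun d hd => ?_⟩
  obtain ⟨c, hc, ν₀, h2, h3⟩ := h1 d hd
  refine ⟨c, hc, ν₀, h2, fun ξ h4 h5 => ?_⟩
  rw [← h ξ h5.le]
  exact h3 ξ h4 h5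

theorem P0b_congr {q q' : Ordinal.{u} → Ordinal.{u}} (h : ∀ ξ ≤ ν, q ξ = q' ξ)
    (hp : P0b ω D f₁ q ν) : P0b ω D f₁ q' ν := by
  obtain ⟨X, Y, hX, hY, d, hd, h1⟩ := hp
  refine ⟨X, Y, hX, h ν le_rfl ▸ hY, d, hd, fun c hc => ?_⟩
  obtain ⟨ν₀, h2, h3⟩ := h1 c hc
  refine ⟨ν₀, h2, fun ξ h4 h5 => ?_⟩
  rw [← h ξ h5.le]
  exact h3 ξ h4 h5

theorem steer_a (hX : ∀ γ X, D γ X → Sq ω γ X ∧ Ab ω γ X) (hf : Nrm (ω_ 1) ρ f₁)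
    (h1 : ∀ ν < ω_ 1, Order.IsSuccLimit ν → ∃ X, D (f₁ ν) X) :
    Steer (fun γ => ∃ X, D γ X) (fun ν γ q => q ν = γ → P1a ω D f₁ q ν)
      (fun ν γ q => q ν = γ → P0a ω D f₁ q ν) := by
  refine ⟨fun ν hν hl γ ⟨Y, hY⟩ hγ => ?_, fun ν hν hl γ ⟨Y, hY⟩ hγ => ?_,
    fun ν γ q q' h2 h3 h4 => P1a_congr h2 (h3 ((h2 ν le_rfl).trans h4)),
    fun ν γ q q' h2 h3 h4 => P0a_congr h2 (h3 ((h2 ν le_rfl).trans h4))⟩
  · obtain ⟨X, hX0⟩ := h1 ν hν hl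
    have hlim : Order.IsSuccLimit γ := Ordinal.one_lt_cof_iff.1 (hγ ▸ Cardinal.one_lt_aleph0)
    obtain ⟨d, hd⟩ := (hX _ _ hX0).1.1
    have hdc := ((hX _ _ hX0).1.2 d hd).cf
    obtain ⟨t, ht, htb⟩ := (hX _ _ hY).2.elim (hX _ _ hY).1
    refine ⟨fun ξ => fp d (f₁ ξ), fun β => fp t β, fun ξ ξ' h2 h3 => fp_mono_nrm hf hν hdc h2 h3,
      fun β β' h2 h3 => fp_mono ht h2 h3, fun k => ?_, fun q hq1 hq2 ⟨ν₀, h2, h3⟩ _ => ?_⟩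
    · obtain ⟨β, hβ, h4⟩ := exists_above ht hlim k
      exact ⟨β, hβ, lt_fp ht hβ h4⟩
    · refine ⟨X, Y, hX0, hq2.symm ▸ hY, d, hd, fun c hc => ?_⟩
      obtain ⟨m, hm⟩ := htb c hc
      obtain ⟨ν₁, h4, h5⟩ := fp_large_nrm hf hν hl hdc m
      refine ⟨max ν₀ ν₁, max_lt h2 h4, fun ξ h6 h7 => ⟨(fp d (f₁ ξ) : ℕ),
        Ordinal.natCast_lt_omega0 _, fp_spec hdc (hf.mono ν hν ξ h7), ?_⟩⟩
      have h8 := h3 ξ (lt_of_le_of_lt (le_max_left _ _) h6) h7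
      have h9 := h5 ξ (lt_of_le_of_lt (le_max_right _ _) h6) h7
      exact lt_of_le_of_lt (hm _ h9.le) (lt_of_lt_fp h8)
  · obtain ⟨X, hX0⟩ := h1 ν hν hl
    obtain ⟨c, hc⟩ := (hX _ _ hY).1.1
    have hcs := (hX _ _ hY).1.2 c hc
    obtain ⟨t, ht, htb⟩ := (hX _ _ hX0).2.elim (hX _ _ hX0).1
    refine ⟨fun ξ => fp t (f₁ ξ), fun β => fp c β, fun ξ ξ' h2 h3 => fp_mono_nrm hf hν ht h2 h3,
      fun β β' h2 h3 => fp_mono hcs.cf h2 h3, fun k => ?_, fun q hq1 hq2 ⟨ν₀, h2, h3⟩ _ => ?_⟩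
    · obtain ⟨ν₁, h4, h5⟩ := fp_large_nrm hf hν hl ht k
      exact ⟨Order.succ ν₁, hl.succ_lt h4, (h5 _ (Order.lt_succ _) (hl.succ_lt h4)).le⟩
    · refine ⟨X, Y, hX0, hq2.symm ▸ hY, fun d hd => ⟨c, hc, ?_⟩⟩
      have hds := (hX _ _ hX0).1.2 d hd
      obtain ⟨m, hm⟩ := htb d hd
      obtain ⟨ν₁, h4, h5⟩ := fp_large_nrm hf hν hl hds.cf m
      refine ⟨max ν₀ ν₁, max_lt h2 h4, ?_⟩
      rintro ξ h6 h7 ⟨n, hn, h8, h9⟩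
      obtain ⟨n, rfl⟩ := Ordinal.lt_omega0.1 hn
      have h10 := h3 ξ (lt_of_le_of_lt (le_max_left _ _) h6) h7
      have h11 := h5 ξ (lt_of_le_of_lt (le_max_right _ _) h6) h7
      have h12 : m ≤ n := h11.le.trans (fp_le h8)
      have h13 : fp t (f₁ ξ) ≤ n := fp_le (h8.trans (hm n h12))
      have h14 : q ξ ≤ val c n := (fp_spec hcs.cf (hq1 ξ h7)).trans (hcs.le (h10.trans h13))
      exact absurd h9 (not_lt.2 h14)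

theorem steer_b (hX : ∀ γ X, D γ X → Sq ω γ X ∧ Be ω γ X) (hf : Nrm (ω_ 1) ρ f₁)
    (h1 : ∀ ν < ω_ 1, Order.IsSuccLimit ν → ∃ X, D (f₁ ν) X) :
    Steer (fun γ => ∃ X, D γ X) (fun ν γ q => q ν = γ → P1b ω D f₁ q ν)
      (fun ν γ q => q ν = γ → P0b ω D f₁ q ν) := by
  refine ⟨fun ν hν hl γ ⟨Y, hY⟩ hγ => ?_, fun ν hν hl γ ⟨Y, hY⟩ hγ => ?_,
    fun ν γ q q' h2 h3 h4 => P1b_congr h2 (h3 ((h2 ν le_rfl).trans h4)),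
    fun ν γ q q' h2 h3 h4 => P0b_congr h2 (h3 ((h2 ν le_rfl).trans h4))⟩
  · obtain ⟨X, hX0⟩ := h1 ν hν hl
    have hlim : Order.IsSuccLimit γ := Ordinal.one_lt_cof_iff.1 (hγ ▸ Cardinal.one_lt_aleph0)
    obtain ⟨c, hc⟩ := (hX _ _ hY).1.1
    have hcs := (hX _ _ hY).1.2 c hc
    obtain ⟨t, ht, htb⟩ := (hX _ _ hX0).2.elim
    refine ⟨fun ξ => fp t (f₁ ξ), fun β => fp c β,
      fun ξ ξ' h2 h3 => fp_mono_nrm hf hν ht.cf h2 h3,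
      fun β β' h2 h3 => fp_mono hcs.cf h2 h3, fun k => ?_, fun q hq1 hq2 ⟨ν₀, h2, h3⟩ _ => ?_⟩
    · obtain ⟨β, hβ, h4⟩ := exists_above hcs.cf hlim k
      exact ⟨β, hβ, lt_fp hcs.cf hβ h4⟩
    · refine ⟨X, Y, hX0, hq2.symm ▸ hY, fun d hd => ⟨c, hc, ?_⟩⟩
      obtain ⟨m, hm⟩ := htb d hd
      obtain ⟨ν₁, h4, h5⟩ := fp_large_nrm hf hν hl ht.cf m
      refine ⟨max ν₀ ν₁, max_lt h2 h4, fun ξ h6 h7 => ⟨(fp t (f₁ ξ) : ℕ),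
        Ordinal.natCast_lt_omega0 _, ?_, ?_⟩⟩
      · have h9 := h5 ξ (lt_of_le_of_lt (le_max_right _ _) h6) h7
        exact (fp_spec ht.cf (hf.mono ν hν ξ h7)).trans (hm _ h9.le)
      · exact lt_of_lt_fp (h3 ξ (lt_of_le_of_lt (le_max_left _ _) h6) h7)
  · obtain ⟨X, hX0⟩ := h1 ν hν hl
    obtain ⟨d, hd⟩ := (hX _ _ hX0).1.1
    have hdc := ((hX _ _ hX0).1.2 d hd).cf
    obtain ⟨t, ht, htb⟩ := (hX _ _ hY).2.elim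
    refine ⟨fun ξ => fp d (f₁ ξ), fun β => fp t β, fun ξ ξ' h2 h3 => fp_mono_nrm hf hν hdc h2 h3,
      fun β β' h2 h3 => fp_mono ht.cf h2 h3, fun k => ?_, fun q hq1 hq2 ⟨ν₀, h2, h3⟩ _ => ?_⟩
    · obtain ⟨ν₁, h4, h5⟩ := fp_large_nrm hf hν hl hdc k
      exact ⟨Order.succ ν₁, hl.succ_lt h4, (h5 _ (Order.lt_succ _) (hl.succ_lt h4)).le⟩
    · refine ⟨X, Y, hX0, hq2.symm ▸ hY, d, hd, fun c hc => ?_⟩
      obtain ⟨m, hm⟩ := htb c hc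
      obtain ⟨ν₁, h4, h5⟩ := fp_large_nrm hf hν hl hdc m
      refine ⟨max ν₀ ν₁, max_lt h2 h4, ?_⟩
      rintro ξ h6 h7 ⟨n, hn, h8, h9⟩
      obtain ⟨n, rfl⟩ := Ordinal.lt_omega0.1 hn
      have h10 := h3 ξ (lt_of_le_of_lt (le_max_left _ _) h6) h7
      have h11 := h5 ξ (lt_of_le_of_lt (le_max_right _ _) h6) h7
      have h12 : fp d (f₁ ξ) ≤ n := fp_le h8
      have h14 : q ξ ≤ val c n := ((fp_spec ht.cf (hq1 ξ h7)).trans (ht.le (h10.trans h12))).trans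
        (hm n (h11.le.trans h12))
      exact absurd h9 (not_lt.2 h14)

end

end Pool.Agent.Helper62.GL
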