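import Pool.Agent.Helper62.GL.Fo
import Pool.Agent.Helper62.GL.B
import Pool.Agent.Helper56.GL.A
import Pool.Agent.Helper56.GL.C
import Pool.Agent.Helper97.FP.Ps

/-!
# Bounded definable families of cofinal maps and definable well-orders of the reals
-/

open FirstOrder FirstOrder.Language Ordinal Cardinal Set Helper23.Pcf

universe u v

namespace Pool.Agent.Helper62.GL

open Pool.Agent.Helper56.MW (LSet MM OrdDef HasDefWO Df DefBy LexLt val Nrm exists_val exists_set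
  defBy_wo_gen stat_iUnion stat_cof H6_countable)
open Pool.Agent.Helper97.FP (Wo Agr Univ ordDef_of_univ hasDefWO_of_ordDef regular_aleph2)
open Pool.Agent.Helper56.GL (df_Da df_Db df_Ra df_Rb exists_cofSeq bdd_of_few)

/-! ### Graphs and codes -/

theorem val_of_graph {c : ZFSet.{u}} {f : ℕ → Ordinal.{u}} (h : IsGraph c f) (n : ℕ) :
    val c n = f n := by
  have h1 : {ν : Ordinal.{u} | ZFSet.pair (n : Ordinal.{u}).toZFSet ν.toZFSet ∈ c} = {f n} := by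
    ext ν
    rw [Set.mem_ofPred_eq, h, Set.mem_singleton_iff]
    constructor
    · rintro ⟨m, hm⟩
      obtain ⟨h2, h3⟩ := ZFSet.pair_injective hm
      have h4 := toZFSet_injective h2
      have h5 := toZFSet_injective h3
      have h6 : n = m := by exact_mod_cast h4
      rw [h5, h6]
    · rintro rfl
      exact ⟨n, rfl⟩
  rw [val, h1, csInf_singleton]

theorem cs_of_val {γ : Ordinal.{u}} {c : ZFSet.{u}} {f : ℕ → Ordinal.{u}} (hf : CofSeq γ f)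
    (hc : ∀ n : ℕ, val c n = f n) : Cs ω γ c := by
  refine ⟨fun n hn => ?_, fun n hn m hm => ?_, fun β hβ => ?_⟩
  · obtain ⟨k, rfl⟩ := Ordinal.lt_omega0.1 hn
    rw [hc]
    exact hf.lt k
  · obtain ⟨k, rfl⟩ := Ordinal.lt_omega0.1 hn
    obtain ⟨l, rfl⟩ := Ordinal.lt_omega0.1 (hm.trans hn)
    rw [hc, hc]
    exact hf.mono (by exact_mod_cast hm)
  · obtain ⟨n, hn⟩ := hf.cof β hβ
    refine ⟨n, Ordinal.natCast_lt_omega0 n, ?_⟩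
    rw [hc]
    exact hn

/-- Every function on `ω` is coded by a set. -/
theorem exists_val_nat (t : ℕ → Ordinal.{u}) : ∃ g : ZFSet.{u}, ∀ n : ℕ, val g n = t n := by
  obtain ⟨g, hg⟩ := exists_val (fun ξ : Ordinal.{u} => t (Cardinal.toNat ξ.card)) ω
  refine ⟨g, fun n => ?_⟩
  rw [hg n (Ordinal.natCast_lt_omega0 n), Ordinal.card_nat, Cardinal.toNat_natCast]

theorem Seqs.sq {γ : Ordinal.{u}} {X : ZFSet.{u}} (h : Seqs γ X) : Sq ω γ X := by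
  refine ⟨h.ne, fun c hc => ?_⟩
  obtain ⟨f, hf, hcf⟩ := h.seq c hc
  exact cs_of_val hf (val_of_graph hcf)

theorem BddAb.ab {γ : Ordinal.{u}} {X : ZFSet.{u}} (hX : Seqs γ X) (h : BddAb γ X) :
    Ab ω γ X := by
  obtain ⟨t, ht1, ht2⟩ := h
  obtain ⟨g, hg⟩ := exists_val_nat t
  refine ⟨g, fun n hn => ?_, fun c hc => ?_⟩
  · obtain ⟨k, rfl⟩ := Ordinal.lt_omega0.1 hn
    rw [hg]
    exact ht1 k
  · obtain ⟨f, -, hcf⟩ := hX.seq c hc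
    obtain ⟨m, hm⟩ := ht2 c hc f hcf
    refine ⟨m, Ordinal.natCast_lt_omega0 m, fun n hn hmn => ?_⟩
    obtain ⟨k, rfl⟩ := Ordinal.lt_omega0.1 hn
    rw [hg, val_of_graph hcf]
    exact hm k (by exact_mod_cast hmn)

theorem BddBe.be {γ : Ordinal.{u}} {X : ZFSet.{u}} (hX : Seqs γ X) (h : BddBe γ X) :
    Be ω γ X := by
  obtain ⟨t, ht1, ht2⟩ := h
  obtain ⟨g, hg⟩ := exists_val_nat t
  refine ⟨g, cs_of_val ht1 hg, fun c hc => ?_⟩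
  obtain ⟨f, -, hcf⟩ := hX.seq c hc
  obtain ⟨m, hm⟩ := ht2 c hc f hcf
  refine ⟨m, Ordinal.natCast_lt_omega0 m, fun n hn hmn => ?_⟩
  obtain ⟨k, rfl⟩ := Ordinal.lt_omega0.1 hn
  rw [hg, val_of_graph hcf]
  exact hm k (by exact_mod_cast hmn)

/-! ### The choice of a formula -/

section

variable {n : ℕ} {φ : LSet.Formula (Fin n ⊕ Fin 2)} {H : ZFSet.{u} → Prop}

theorem ls_unique {Z Z' : ZFSet.{u}} (h : Ls φ H Z) (h' : Ls φ H Z') : Z = Z' := by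
  have := defBy_wo_gen H φ
  rcases trichotomous_of (fun x y : {s : ZFSet.{u} // H s ∧ ∃ a, DefBy φ a s} =>
      ∃ a, DefBy φ a (x : ZFSet.{u}) ∧ ∀ b, DefBy φ b (y : ZFSet.{u}) → LexLt a b)
      ⟨Z, h.1⟩ ⟨Z', h'.1⟩ with h1 | h1 | h1
  · exact absurd h1 (h'.2 Z h.1)
  · exact congrArg Subtype.val h1
  · exact absurd h1 (h.2 Z' h'.1)

theorem exists_ls {X : ZFSet.{u}} (hX : H X) {a : Fin n → Ordinal.{u}} (ha : DefBy φ a X) :
    ∃ Z, Ls φ H Z := by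
  have hwo := defBy_wo_gen H φ
  obtain ⟨Z, -, hZ⟩ := hwo.wf.has_min (s := Set.univ) ⟨⟨X, hX, a, ha⟩, Set.mem_univ _⟩
  exact ⟨Z.1, Z.2, fun Z' hZ' => hZ ⟨Z', hZ'⟩ (Set.mem_univ _)⟩

end

theorem exists_formula {κ : Cardinal.{u}} (hκ : κ.IsRegular) (h1 : ℵ₀ < κ)
    {H : Ordinal.{u} → ZFSet.{u} → Prop}
    (hst : StatIn {γ : Ordinal.{u} | γ.cof = ℵ₀ ∧ ∃ X, OrdDef ∅ X ∧ H γ X} κ.ord) :
    ∃ (n : ℕ) (φ : LSet.Formula (Fin n ⊕ Fin 2)),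
      StatIn {γ : Ordinal.{u} | γ.cof = ℵ₀ ∧ ∃ Z, Ls φ (H γ) Z} κ.ord := by
  have := H6_countable
  let J := Σ m : ℕ, LSet.Formula (Fin m ⊕ Fin 2)
  have hst2 : StatIn (⋃ j : ULift.{u} J, {γ : Ordinal.{u} | γ.cof = ℵ₀ ∧
      ∃ Z, Ls j.down.2 (H γ) Z}) κ.ord := by
    refine hst.mono ?_
    rintro γ ⟨hγ, X, ⟨m, ψ, a, ha⟩, hX⟩
    exact Set.mem_iUnion.2 ⟨ULift.up ⟨m, ψ⟩, hγ, exists_ls hX ha⟩
  have hJ : #(ULift.{u} J) < κ.ord.cof := by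
    rw [hκ.cof_ord]
    exact lt_of_le_of_lt Cardinal.mk_le_aleph0 h1
  obtain ⟨⟨⟨m, ψ⟩⟩, hψ⟩ := stat_iUnion (by rw [hκ.cof_ord]; exact h1) hJ _ hst2
  exact ⟨m, ψ, hψ⟩

/-! ### The trivial alternatives -/

open Classical in
/-- A nondecreasing unbounded function into the natural numbers. -/
theorem exists_slow {γ : Ordinal.{u}} (h : γ.cof = ℵ₀) :
    ∃ w : Ordinal.{u} → ℕ, (∀ β β', β ≤ β' → β' < γ → w β ≤ w β') ∧ ∀ k, ∃ β < γ, k < w β := by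
  obtain ⟨ν, h1, h2⟩ := seq_of_cof h
  refine ⟨fun β => if hβ : ∃ n, β ≤ ν n then Nat.find hβ else 0, fun β β' hb hb' => ?_,
    fun k => ?_⟩
  · have e1 : ∃ n, β' ≤ ν n := (h2 β' hb').imp fun n hn => hn.le
    have e2 : ∃ n, β ≤ ν n := e1.imp fun n hn => hb.trans hn
    simp only [dif_pos e1, dif_pos e2]
    exact Nat.find_mono fun n hn => hb.trans hn
  · have hlim : Order.IsSuccLimit γ := Ordinal.one_lt_cof_iff.1 (h ▸ Cardinal.one_lt_aleph0)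
    have h3 : ∃ β < γ, ∀ n ≤ k, ν n < β := by
      induction k with
      | zero =>
        refine ⟨Order.succ (ν 0), hlim.succ_lt (h1 0), fun n hn => ?_⟩
        obtain rfl : n = 0 := by omega
        exact Order.lt_succ _
      | succ k ih =>
        obtain ⟨β, hβ, h4⟩ := ih
        refine ⟨max β (Order.succ (ν (k + 1))), max_lt hβ (hlim.succ_lt (h1 _)), fun n hn => ?_⟩
        rcases Nat.lt_or_ge k n with h5 | h5
        · obtain rfl : n = k + 1 := by omega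
          exact lt_of_lt_of_le (Order.lt_succ _) (le_max_right _ _)
        · exact lt_of_lt_of_le (h4 n h5) (le_max_left _ _)
    obtain ⟨β, hβ, h4⟩ := h3
    refine ⟨β, hβ, ?_⟩
    have e1 : ∃ n, β ≤ ν n := (h2 β hβ).imp fun n hn => hn.le
    simp only [dif_pos e1]
    rw [Nat.lt_find_iff]
    intro m hm
    exact not_le.2 (h4 m hm)

theorem steer_triv (Gd : Ordinal.{u} → Prop) :
    Steer Gd (fun _ _ _ => True) (fun _ _ _ => True) := by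
  refine ⟨fun ν _ _ γ _ hγ => ?_, fun ν hν hl γ _ _ => ?_, fun _ _ _ _ _ _ => trivial,
    fun _ _ _ _ _ _ => trivial⟩
  · obtain ⟨w, h1, h2⟩ := exists_slow hγ
    exact ⟨fun _ => 0, w, fun _ _ _ _ => le_rfl, h1, h2, fun _ _ _ _ => trivial⟩
  · obtain ⟨w, h1, h2⟩ := exists_slow (cof_of_lim hν hl)
    refine ⟨w, fun _ => 0, h1, fun _ _ _ _ => le_rfl, fun k => ?_, fun _ _ _ _ => trivial⟩
    obtain ⟨ξ, hξ, h3⟩ := h2 k
    exact ⟨ξ, hξ, h3.le⟩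

/-! ### The coding of subsets of `ω₁` -/

theorem univ_of_steer (h : MM.{u}) {κ : Cardinal.{u}} (hκ : κ.IsRegular) (h1 : ℵ_ 1 < κ)
    {D : Ordinal.{u} → ZFSet.{u} → Prop}
    (hst : StatIn {γ : Ordinal.{u} | γ.cof = ℵ₀ ∧ ∃ X, D γ X} κ.ord)
    {P1 P0 : Ordinal.{u} → (Ordinal.{u} → Ordinal.{u}) → (Ordinal.{u} → Ordinal.{u}) → Prop}
    (hS : ∀ ρ f₁, Nrm (ω_ 1) ρ f₁ → (∀ ν < ω_ 1, Order.IsSuccLimit ν → ∃ X, D (f₁ ν) X) →
      Steer (fun γ => ∃ X, D γ X) (fun ν γ q => q ν = γ → P1 ν f₁ q)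
        (fun ν γ q => q ν = γ → P0 ν f₁ q)) :
    ∃ ρ : Ordinal.{u}, Univ (fun η x => ∃ f₁ f : Ordinal.{u} → Ordinal.{u},
      Nrm (ω_ 1) ρ f₁ ∧ Nrm (ω_ 1) η f ∧ ∀ ν < ω_ 1, Order.IsSuccLimit ν →
        (ν.toZFSet ∈ x → P1 ν f₁ f) ∧ (ν.toZFSet ∉ x → P0 ν f₁ f)) := by
  obtain ⟨ρ, -, f₁, hf₁, h2⟩ := steer h hκ h1 (steer_triv (fun γ => ∃ X, D γ X)) hst ∅
  refine ⟨ρ, fun A => ?_⟩
  obtain ⟨η, -, f, hf, h3⟩ := steer h hκ h1 (hS ρ f₁ hf₁ fun ν hν hl => (h2 ν hν hl).1) hst A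
  obtain ⟨x, hx⟩ := exists_set A (ω_ 1)
  refine ⟨η, x, ⟨f₁, f, hf₁, hf, fun ν hν hl => ⟨fun h4 => ?_, fun h4 => ?_⟩⟩,
    fun ξ hξ _ => ?_⟩
  · exact (h3 ν hν hl).2.1 ((hx ν).1 h4).2 rfl
  · exact (h3 ν hν hl).2.2 (fun h5 => h4 ((hx ν).2 ⟨hν, h5⟩)) rfl
  · rw [hx]
    exact and_iff_right hξ

/-- Stationarily many definable families which are bounded from above give a definable
well-order. -/
theorem wo_of_above (h : MM.{u}) {κ : Cardinal.{u}} (hκ : κ.IsRegular) (h1 : ℵ_ 1 < κ)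
    (H : StatIn {γ : Ordinal.{u} | γ.cof = ℵ₀ ∧ ∃ X, OrdDef ∅ X ∧ Seqs γ X ∧ BddAb γ X} κ.ord) :
    HasDefWO.{u} := by
  have h0 : ℵ₀ < κ := Cardinal.aleph0_lt_aleph_one.trans h1
  obtain ⟨n, φ, hst⟩ := exists_formula hκ h0 (H := fun γ X => Sq ω γ X ∧ Ab ω γ X)
    (H.mono fun γ hγ => by
      obtain ⟨h2, X, h3, h4, h5⟩ := hγ
      exact ⟨h2, X, h3, h4.sq, h5.ab h4⟩)
  have hD : ∀ γ X Y, Da φ ω γ X → Da φ ω γ Y → X = Y := fun γ X Y => ls_unique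
  obtain ⟨ρ, hU⟩ := univ_of_steer h hκ h1 (D := Da φ ω) hst
    (P1 := fun ν f₁ q => P1a ω (Da φ ω) f₁ q ν) (P0 := fun ν f₁ q => P0a ω (Da φ ω) f₁ q ν)
    fun ρ f₁ hf₁ h2 => steer_a (fun γ X hX => hX.1.1) hf₁ h2
  refine hasDefWO_of_ordDef h fun x hx => ?_
  have hd : Df (α := Option (Fin 3)) (β := Bool) (fun (a : Option (Fin 3) → Ordinal.{u})
      (s : Bool → ZFSet.{u}) => Ra (a (some 0)) (a (some 1)) (a (some 2)) (Da φ (a (some 1)))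
        (a none) (s true)) :=
    df_Ra (κ := Fin 3) (D := fun c => Da φ (c 1)) (df_Da φ (some 1) none ()) (fun i => some i)
      (some 0) (some 1) (some 2) none true
  exact ordDef_of_univ (R := fun c _ η x => Ra (c 0) (c 1) (c 2) (Da φ (c 1)) η x) hd
    ![ω_ 1, ω, ρ] ∅ (agr_Ra hD) hU hx

/-- Stationarily many definable families which are bounded from below give a definable
well-order. -/
theorem wo_of_below (h : MM.{u}) {κ : Cardinal.{u}} (hκ : κ.IsRegular) (h1 : ℵ_ 1 < κ)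
    (H : StatIn {γ : Ordinal.{u} | γ.cof = ℵ₀ ∧ ∃ X, OrdDef ∅ X ∧ Seqs γ X ∧ BddBe γ X} κ.ord) :
    HasDefWO.{u} := by
  have h0 : ℵ₀ < κ := Cardinal.aleph0_lt_aleph_one.trans h1
  obtain ⟨n, φ, hst⟩ := exists_formula hκ h0 (H := fun γ X => Sq ω γ X ∧ Be ω γ X)
    (H.mono fun γ hγ => by
      obtain ⟨h2, X, h3, h4, h5⟩ := hγ
      exact ⟨h2, X, h3, h4.sq, h5.be h4⟩)
  have hD : ∀ γ X Y, Db φ ω γ X → Db φ ω γ Y → X = Y := fun γ X Y => ls_unique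
  obtain ⟨ρ, hU⟩ := univ_of_steer h hκ h1 (D := Db φ ω) hst
    (P1 := fun ν f₁ q => P1b ω (Db φ ω) f₁ q ν) (P0 := fun ν f₁ q => P0b ω (Db φ ω) f₁ q ν)
    fun ρ f₁ hf₁ h2 => steer_b (fun γ X hX => hX.1.1) hf₁ h2
  refine hasDefWO_of_ordDef h fun x hx => ?_
  have hd : Df (α := Option (Fin 3)) (β := Bool) (fun (a : Option (Fin 3) → Ordinal.{u})
      (s : Bool → ZFSet.{u}) => Rb (a (some 0)) (a (some 1)) (a (some 2)) (Db φ (a (some 1)))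
        (a none) (s true)) :=
    df_Rb (κ := Fin 3) (D := fun c => Db φ (c 1)) (df_Db φ (some 1) none ()) (fun i => some i)
      (some 0) (some 1) (some 2) none true
  exact ordDef_of_univ (R := fun c _ η x => Rb (c 0) (c 1) (c 2) (Db φ (c 1)) η x) hd
    ![ω_ 1, ω, ρ] ∅ (agr_Rb hD) hU hx

/-! ### The converse -/

theorem graph_unique {c : ZFSet.{u}} {f f' : ℕ → Ordinal.{u}} (h : IsGraph c f)
    (h' : IsGraph c f') : f = f' := by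
  funext n
  rw [← val_of_graph h n, ← val_of_graph h' n]

theorem ordDef_singleton {c : ZFSet.{u}} (h : OrdDef ∅ c) : OrdDef ∅ ({c} : ZFSet.{u}) := by
  obtain ⟨n, P, b, hP, h3⟩ := h.exists_df
  have h3' : ∀ Z', P b (fun _ => Z') ↔ Z' = c := h3
  have hR : Df (α := Fin n) (β := Unit) (fun (a : Fin n → Ordinal.{u}) (s : Unit → ZFSet.{u}) =>
      ∀ y, y ∈ s () ↔ P a (fun _ => y)) := by
    refine Df.allS (P := fun y a s => y ∈ s () ↔ P a (fun _ => y)) ?_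
    exact (Df.memS none (some ())).iff
      (Df.relabel (α := Fin n) (β := Option Unit) id (fun _ => none) hP)
  refine Pool.Agent.Helper56.MW.ordDef_of_df hR b _ fun z => ?_
  constructor
  · intro h4
    ext y
    rw [h4 y, h3' y, ZFSet.mem_singleton]
  · rintro rfl y
    rw [ZFSet.mem_singleton, h3' y]

theorem seqs_singleton {γ : Ordinal.{u}} {c : ZFSet.{u}} {f : ℕ → Ordinal.{u}}
    (hf : CofSeq γ f) (hc : IsGraph c f) : Seqs γ {c} := by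
  refine ⟨⟨c, ZFSet.mem_singleton.2 rfl⟩, fun c' hc' => ?_⟩
  rw [ZFSet.mem_singleton.1 hc']
  exact ⟨f, hf, hc⟩

theorem bddAb_singleton {γ : Ordinal.{u}} {c : ZFSet.{u}} {f : ℕ → Ordinal.{u}}
    (hf : CofSeq γ f) (hc : IsGraph c f) : BddAb γ {c} := by
  refine ⟨f, hf.lt, fun c' hc' f' hf' => ⟨0, fun n _ => ?_⟩⟩
  rw [ZFSet.mem_singleton.1 hc'] at hf'
  rw [graph_unique hf' hc]

theorem bddBe_singleton {γ : Ordinal.{u}} {c : ZFSet.{u}} {f : ℕ → Ordinal.{u}}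
    (hf : CofSeq γ f) (hc : IsGraph c f) : BddBe γ {c} := by
  refine ⟨f, hf, fun c' hc' f' hf' => ⟨0, fun n _ => ?_⟩⟩
  rw [ZFSet.mem_singleton.1 hc'] at hf'
  rw [graph_unique hf' hc]

theorem stat_of_all {P : Ordinal.{u} → Prop} (H : ∀ γ < ω_ 2, γ.cof = ℵ₀ → P γ) :
    StatIn {γ : Ordinal.{u} | γ.cof = ℵ₀ ∧ P γ} (ℵ_ 2 : Cardinal.{u}).ord := by
  have hst := stat_cof regular_aleph2.{u}
    (Cardinal.aleph0_lt_aleph_one.trans (Cardinal.aleph_lt_aleph.2 (by norm_num)))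
  intro C hC
  obtain ⟨γ, hγ, hγC, hγ2⟩ := hst C hC
  refine ⟨γ, ⟨hγ, H γ ?_ hγ⟩, hγC, hγ2⟩
  rwa [Cardinal.ord_aleph] at hγ2

/-- The main equivalence. -/
theorem main_tfae (h : MM.{u}) :
    [HasDefWO.{u},
      ∀ γ : Ordinal.{u}, γ < ω_ 2 → γ.cof = ℵ₀ →
        ∃ (c : ZFSet.{u}) (f : ℕ → Ordinal.{u}), OrdDef ∅ c ∧ CofSeq γ f ∧ IsGraph c f,
      ∃ κ : Cardinal.{u}, κ.IsRegular ∧ ℵ_ 2 ≤ κ ∧ StatIn {γ : Ordinal.{u} | γ.cof = ℵ₀ ∧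
        ∃ X, OrdDef ∅ X ∧ Seqs γ X ∧ BddAb γ X} κ.ord,
      ∃ κ : Cardinal.{u}, κ.IsRegular ∧ ℵ_ 2 ≤ κ ∧ StatIn {γ : Ordinal.{u} | γ.cof = ℵ₀ ∧
        ∃ X, OrdDef ∅ X ∧ Seqs γ X ∧ BddBe γ X} κ.ord,
      ∃ κ : Cardinal.{u}, κ.IsRegular ∧ ℵ_ 2 ≤ κ ∧ StatIn {γ : Ordinal.{u} | γ.cof = ℵ₀ ∧
        ∃ X, OrdDef ∅ X ∧ Seqs γ X ∧ X.card ≤ ℵ_ 1} κ.ord].TFAE := by
  have h12 : (ℵ_ 1 : Cardinal.{u}) < ℵ_ 2 := Cardinal.aleph_lt_aleph.2 (by norm_num)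
  tfae_have 1 → 2 := fun hw γ hγ hc => exists_cofSeq h hw hγ hc
  tfae_have 2 → 4 := fun H => ⟨ℵ_ 2, regular_aleph2, le_rfl, stat_of_all fun γ hγ hc => by
    obtain ⟨c, f, h1, h2, h3⟩ := H γ hγ hc
    exact ⟨{c}, ordDef_singleton h1, seqs_singleton h2 h3, bddBe_singleton h2 h3⟩⟩
  tfae_have 2 → 5 := fun H => ⟨ℵ_ 2, regular_aleph2, le_rfl, stat_of_all fun γ hγ hc => by
    obtain ⟨c, f, h1, h2, h3⟩ := H γ hγ hc
    refine ⟨{c}, ordDef_singleton h1, seqs_singleton h2 h3, ?_⟩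
    rw [ZFSet.card_singleton]
    exact Cardinal.one_lt_aleph0.le.trans (Cardinal.aleph0_le_aleph 1)⟩
  tfae_have 5 → 3 := by
    rintro ⟨κ, h1, h2, h3⟩
    refine ⟨κ, h1, h2, h3.mono ?_⟩
    rintro γ ⟨hc, X, h4, h5, h6⟩
    exact ⟨hc, X, h4, h5, bdd_of_few h hc h5 h6⟩
  tfae_have 3 → 1 := fun ⟨κ, h1, h2, h3⟩ => wo_of_above h h1 (h12.trans_le h2) h3
  tfae_have 4 → 1 := fun ⟨κ, h1, h2, h3⟩ => wo_of_below h h1 (h12.trans_le h2) h3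
  tfae_finish

end Pool.Agent.Helper62.GL
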