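import Pool.Agent.Helper62.GL.P5
import Pool.Agent.Helper56.GL.P6
import Pool.Agent.Helper97.FP.Sd

/-!
# Bounded ordinal definable families of cofinal maps: the main equivalence
-/

open FirstOrder FirstOrder.Language Ordinal Cardinal Set Helper23.Pcf

universe u v

namespace Pool.Agent.Helper62.GL

open Pool.Agent.Helper56.MW (LSet MM OrdDef HasDefWO Df DefBy val exists_val OrdDef.comp
  ordDef_of_df aleph0_lt_cof_omega1)
open Pool.Agent.Helper97.FP (Blurry regular_aleph2 blurry_of_ordDef)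
open Pool.Agent.Helper56.GL (df_Da df_Gr df_Cs df_le exists_cofSeq bdd_of_few
  hasDefWO_of_bistat exists_bistat isGraph_range)

/-- A family which is bounded from below may be replaced by the family of its lower bounds, which
is bounded from above. -/
theorem exists_ab_of_be {γ : Ordinal.{u}} {X : ZFSet.{u}} (h : OrdDef ∅ X) (hX : Seqs γ X)
    (hb : BddBe γ X) : ∃ X', OrdDef ∅ X' ∧ Seqs γ X' ∧ BddAb γ X' := by
  let P : ZFSet.{u} → Prop := fun e => Gr ω e ∧ Cs ω γ e ∧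
    ∀ c, c ∈ X → ∃ m, m < (ω : Ordinal.{u}) ∧ ∀ n, n < ω → m ≤ n → val e n ≤ val c n
  obtain ⟨X', hmem⟩ : ∃ X' : ZFSet.{u}, ∀ e, e ∈ X' ↔ P e := by
    refine ⟨ZFSet.sep P (ZFSet.powerset (ZFSet.prod (ω : Ordinal.{u}).toZFSet γ.toZFSet)),
      fun e => ?_⟩
    rw [ZFSet.mem_sep, ZFSet.mem_powerset]
    refine and_iff_right_of_imp fun h z hz => ?_
    obtain ⟨n, hn, rfl⟩ := (h.1 z).1 hz
    rw [ZFSet.pair_mem_prod]
    exact ⟨toZFSet_mem_toZFSet_iff.2 hn, toZFSet_mem_toZFSet_iff.2 (h.2.1.1 n hn)⟩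
  refine ⟨X', ?_, ⟨?_, fun e he => ?_⟩, ?_⟩
  · have hdf : Df (α := Fin 2) (β := Fin 2)
        (fun (a : Fin 2 → Ordinal.{u}) (s : Fin 2 → ZFSet.{u}) => ∀ e, e ∈ s 1 ↔
          (Gr (a 0) e ∧ Cs (a 0) (a 1) e ∧ ∀ c, c ∈ s 0 →
            ∃ m, m < a 0 ∧ ∀ n, n < a 0 → m ≤ n → val e n ≤ val c n)) := by
      refine Df.allS (α := Fin 2) (β := Fin 2) (P := fun e a s => e ∈ s 1 ↔
          (Gr (a 0) e ∧ Cs (a 0) (a 1) e ∧ ∀ c, c ∈ s 0 →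
            ∃ m, m < a 0 ∧ ∀ n, n < a 0 → m ≤ n → val e n ≤ val c n)) ?_
      refine (Df.memS none (some 1)).iff ((df_Gr 0 none).and ((df_Cs 0 1 none).and ?_))
      refine Df.allS (α := Fin 2) (β := Option (Fin 2)) (P := fun c a s => c ∈ s (some 0) →
            ∃ m, m < a 0 ∧ ∀ n, n < a 0 → m ≤ n → val (s none) n ≤ val c n) ?_
      exact (Df.memS none (some (some 0))).imp (df_le 0 (some none) none)
    refine OrdDef.comp h hdf ![ω, γ] fun y => ?_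
    constructor
    · intro h1
      ext e
      exact (h1 e).trans (hmem e).symm
    · rintro rfl e
      exact hmem e
  · obtain ⟨t, ht, htb⟩ := hb.be hX
    have hcs := ht.cofSeq
    have hgr := isGraph_range.{u} (fun n : ℕ => val t n)
    refine ⟨_, (hmem _).2 ⟨gr_of_graph hgr, cs_of_val hcs (val_of_graph hgr), fun c hc => ?_⟩⟩
    obtain ⟨m, hm, h1⟩ := htb c hc
    refine ⟨m, hm, fun n hn hmn => ?_⟩
    obtain ⟨k, rfl⟩ := Ordinal.lt_omega0.1 hn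
    rw [val_of_graph hgr]
    exact h1 k hn hmn
  · have h1 := (hmem e).1 he
    exact ⟨_, h1.2.1.cofSeq, h1.1.isGraph⟩
  · obtain ⟨c, hc⟩ := hX.ne
    have hcs := hX.sq.2 c hc
    refine ⟨fun n => val c n, fun n => hcs.cofSeq.lt n, fun e he F hF => ?_⟩
    obtain ⟨m, hm, h1⟩ := ((hmem e).1 he).2.2 c hc
    obtain ⟨m, rfl⟩ := Ordinal.lt_omega0.1 hm
    refine ⟨m, fun n hn => ?_⟩
    rw [← val_of_graph hF n]
    exact h1 n (Ordinal.natCast_lt_omega0 n) (by exact_mod_cast hn)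

/-- The domain of `Da φ ω` below `ω₁` is ordinal definable. -/
theorem wo_of_split (h : MM.{u}) {n : ℕ} (φ : LSet.Formula (Fin n ⊕ Fin 2))
    (h1 : StatIn {γ : Ordinal.{u} | ∃ Z, Da φ ω γ Z} (ω_ 1))
    (h2 : StatIn {γ : Ordinal.{u} | ¬ ∃ Z, Da φ ω γ Z} (ω_ 1)) : HasDefWO.{u} := by
  have hmem : ∀ γ : Ordinal.{u}, γ.toZFSet ∈ ZFSet.sep (fun x => ∃ Z, Da φ ω x.rank Z)
      (ω_ 1 : Ordinal.{u}).toZFSet ↔ γ < ω_ 1 ∧ ∃ Z, Da φ ω γ Z := by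
    intro γ
    rw [ZFSet.mem_sep, toZFSet_mem_toZFSet_iff, rank_toZFSet]
  have hod : OrdDef ∅ (ZFSet.sep (fun x => ∃ Z, Da φ ω x.rank Z)
      (ω_ 1 : Ordinal.{u}).toZFSet) := by
    have hdf : Df (α := Fin 2) (β := Unit) (fun (a : Fin 2 → Ordinal.{u})
        (s : Unit → ZFSet.{u}) => s () ⊆ (a 0).toZFSet ∧ ∀ γ, γ < a 0 →
          (γ.toZFSet ∈ s () ↔ ∃ Z, Da φ (a 1) γ Z)) := by
      refine (Df.subSO () 0).and ?_
      refine Df.allO (α := Fin 2) (β := Unit) (P := fun γ a s => γ < a 0 →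
          (γ.toZFSet ∈ s () ↔ ∃ Z, Da φ (a 1) γ Z)) ?_
      refine (Df.ltO none (some 0)).imp ((Df.memO none ()).iff ?_)
      exact Df.exS (α := Option (Fin 2)) (β := Unit) (P := fun Z a _ => Da φ (a (some 1)) (a none) Z)
        (df_Da φ (some 1) none none)
    refine ordDef_of_df hdf ![ω_ 1, ω] _ fun y => ?_
    constructor
    · rintro ⟨h3, h4⟩
      ext z
      constructor
      · intro hz
        obtain ⟨γ, hγ, rfl⟩ := mem_toZFSet_iff.1 (h3 hz)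
        exact (hmem γ).2 ⟨hγ, (h4 γ hγ).1 hz⟩
      · intro hz
        obtain ⟨γ, hγ, rfl⟩ := mem_toZFSet_iff.1 (ZFSet.sep_subset hz)
        exact (h4 γ hγ).2 ((hmem γ).1 hz).2
    · rintro rfl
      exact ⟨ZFSet.sep_subset, fun γ hγ => (hmem γ).trans (and_iff_right hγ)⟩
  refine hasDefWO_of_bistat h (blurry_of_ordDef hod) ?_ ?_
  · intro C hC
    obtain ⟨γ, h3, h4, h5⟩ := h1 C hC
    exact ⟨γ, (hmem γ).2 ⟨h5, h3⟩, h4, h5⟩
  · intro C hC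
    obtain ⟨γ, h3, h4, h5⟩ := h2 C hC
    exact ⟨γ, fun h6 => h3 ((hmem γ).1 h6).2, h4, h5⟩

/-- The case of all regular uncountable cardinals. -/
theorem wo_of_bdd (h : MM.{u}) {κ : Cardinal.{u}} (hκ : κ.IsRegular) (h0 : ℵ₀ < κ)
    (H : StatIn {γ : Ordinal.{u} | γ.cof = ℵ₀ ∧ ∃ X, OrdDef ∅ X ∧ Seqs γ X ∧ BddAb γ X} κ.ord) :
    HasDefWO.{u} := by
  rcases lt_or_ge (ℵ_ 1) κ with h1 | h1
  · exact wo_of_above h hκ h1 H
  · have h2 : κ = ℵ_ 1 := by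
      refine le_antisymm h1 ?_
      rw [← Cardinal.succ_aleph0]
      exact Order.succ_le_of_lt h0
    subst h2
    obtain ⟨n, φ, hst⟩ := exists_formula hκ h0 (H := fun γ X => Sq ω γ X ∧ Ab ω γ X)
      (H.mono fun γ hγ => by
        obtain ⟨h2, X, h3, h4, h5⟩ := hγ
        exact ⟨h2, X, h3, h4.sq, h5.ab h4⟩)
    rw [Cardinal.ord_aleph] at hst
    have hst' : StatIn {γ : Ordinal.{u} | ∃ Z, Da φ ω γ Z} (ω_ 1) := hst.mono fun γ hγ => hγ.2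
    by_cases hns : StatIn {γ : Ordinal.{u} | ¬ ∃ Z, Da φ ω γ Z} (ω_ 1)
    · exact wo_of_split h φ hst' hns
    · exact wo_of_above h regular_aleph2 (Cardinal.aleph_lt_aleph.2 (by norm_num))
        (stat_of_club h φ hns)

/-- **Main theorem.** -/
theorem main_tfae' (h : MM.{u}) :
    [HasDefWO.{u},
      ∀ γ : Ordinal.{u}, γ < ω_ 2 → γ.cof = ℵ₀ →
        ∃ (c : ZFSet.{u}) (f : ℕ → Ordinal.{u}), OrdDef ∅ c ∧ CofSeq γ f ∧ IsGraph c f,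
      ∃ κ : Cardinal.{u}, κ.IsRegular ∧ ℵ₀ < κ ∧ StatIn {γ : Ordinal.{u} | γ.cof = ℵ₀ ∧
        ∃ X, OrdDef ∅ X ∧ Seqs γ X ∧ BddAb γ X} κ.ord,
      ∃ κ : Cardinal.{u}, κ.IsRegular ∧ ℵ₀ < κ ∧ StatIn {γ : Ordinal.{u} | γ.cof = ℵ₀ ∧
        ∃ X, OrdDef ∅ X ∧ Seqs γ X ∧ BddBe γ X} κ.ord,
      ∃ κ : Cardinal.{u}, κ.IsRegular ∧ ℵ₀ < κ ∧ StatIn {γ : Ordinal.{u} | γ.cof = ℵ₀ ∧
        ∃ X, OrdDef ∅ X ∧ Seqs γ X ∧ X.card ≤ ℵ_ 1} κ.ord,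
      ∃ T : ZFSet.{u}, Blurry T ∧ T ⊆ (ω_ 1 : Ordinal.{u}).toZFSet ∧
        StatIn {δ : Ordinal.{u} | δ.toZFSet ∈ T} (ω_ 1) ∧
        StatIn {δ : Ordinal.{u} | δ.toZFSet ∉ T} (ω_ 1)].TFAE := by
  have h02 : ℵ₀ < (ℵ_ 2 : Cardinal.{u}) :=
    Cardinal.aleph0_lt_aleph_one.trans (Cardinal.aleph_lt_aleph.2 (by norm_num))
  tfae_have 1 → 2 := fun hw γ hγ hc => exists_cofSeq h hw hγ hc
  tfae_have 2 → 4 := fun H => ⟨ℵ_ 2, regular_aleph2, h02, stat_of_all fun γ hγ hc => by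
    obtain ⟨c, f, h1, h2, h3⟩ := H γ hγ hc
    exact ⟨{c}, ordDef_singleton h1, seqs_singleton h2 h3, bddBe_singleton h2 h3⟩⟩
  tfae_have 2 → 5 := fun H => ⟨ℵ_ 2, regular_aleph2, h02, stat_of_all fun γ hγ hc => by
    obtain ⟨c, f, h1, h2, h3⟩ := H γ hγ hc
    refine ⟨{c}, ordDef_singleton h1, seqs_singleton h2 h3, ?_⟩
    rw [ZFSet.card_singleton]
    exact Cardinal.one_lt_aleph0.le.trans (Cardinal.aleph0_le_aleph 1)⟩
  tfae_have 4 → 3 := by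
    rintro ⟨κ, h1, h2, h3⟩
    refine ⟨κ, h1, h2, h3.mono ?_⟩
    rintro γ ⟨hc, X, h4, h5, h6⟩
    exact ⟨hc, exists_ab_of_be h4 h5 h6⟩
  tfae_have 5 → 3 := by
    rintro ⟨κ, h1, h2, h3⟩
    refine ⟨κ, h1, h2, h3.mono ?_⟩
    rintro γ ⟨hc, X, h4, h5, h6⟩
    exact ⟨hc, X, h4, h5, bdd_of_few h hc h5 h6⟩
  tfae_have 3 → 1 := fun ⟨κ, h1, h2, h3⟩ => wo_of_bdd h h1 h2 h3
  tfae_have 1 → 6 := fun hw => exists_bistat h hw
  tfae_have 6 → 1 := fun ⟨T, h1, _, h2, h3⟩ => hasDefWO_of_bistat h h1 h2 h3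
  tfae_finish

end Pool.Agent.Helper62.GL
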