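import Pool.Agent.Helper62.GL.BDefs
import Pool.Agent.Helper62.GL.Fn

/-!
# The definitions of `BDefs` agree with those used in the proof
-/

set_option autoImplicit false

open FirstOrder FirstOrder.Language Ordinal Cardinal

universe u v

namespace Pool.Agent.Helper62.GL.BD

open Pool.Agent

theorem statIn_iff {S : Set Ordinal.{u}} {o : Ordinal.{u}} :
    StatIn S o ↔ Helper23.Pcf.StatIn S o :=
  ⟨fun h C hC => h C ⟨hC.unb, hC.cl⟩, fun h C hC => h C ⟨hC.1, hC.2⟩⟩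

theorem preservesStat_iff {P : Type v} [Preorder P] :
    PreservesStat.{u} P ↔ Helper56.MW.PreservesStat.{u} P := by
  constructor
  · intro h S hS p N hN
    exact h S (statIn_iff.2 hS) p N ⟨hN.mono, hN.unbounded, hN.closed⟩
  · intro h S hS p N hN
    exact h S (statIn_iff.1 hS) p N ⟨hN.mono, hN.unbounded, hN.closed⟩

theorem mm_of (h : MM.{u}) : Helper56.MW.MM.{u} := by
  intro P _ _ hP D hD
  obtain ⟨G, hG⟩ := h P (preservesStat_iff.2 hP) D hD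
  exact ⟨G, hG.up, hG.dir, hG.meets⟩

/-- from the language here to the language there -/
def toOld : LSet →ᴸ Helper56.MW.LSet where
  onFunction := fun _ f => Empty.elim f
  onRelation := fun _ r => match r with
    | MemRel.mem => Helper56.MW.MemRel.mem

/-- and back -/
def ofOld : Helper56.MW.LSet →ᴸ LSet where
  onFunction := fun _ f => Empty.elim f
  onRelation := fun _ r => match r with
    | Helper56.MW.MemRel.mem => MemRel.mem

instance : toOld.IsExpansionOn ZFSet.{u} where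
  map_onFunction := fun f _ => Empty.elim f
  map_onRelation := fun r x => by cases r; rfl

instance : ofOld.IsExpansionOn ZFSet.{u} where
  map_onFunction := fun f _ => Empty.elim f
  map_onRelation := fun r x => by cases r; rfl

theorem ordDef_iff {A x : ZFSet.{u}} : OrdDef A x ↔ Helper56.MW.OrdDef A x := by
  constructor
  · rintro ⟨n, φ, a, h⟩
    exact ⟨n, toOld.onFormula φ, a, fun y => (LHom.realize_onFormula toOld φ).trans (h y)⟩
  · rintro ⟨n, φ, a, h⟩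
    exact ⟨n, ofOld.onFormula φ, a, fun y => (LHom.realize_onFormula ofOld φ).trans (h y)⟩

theorem hasDefWO_iff : HasDefWO.{u} ↔ Helper56.MW.HasDefWO.{u} := by
  constructor
  · rintro ⟨φ, h⟩
    refine ⟨toOld.onFormula φ, ?_⟩
    simpa only [LHom.realize_onFormula] using h
  · rintro ⟨φ, h⟩
    refine ⟨ofOld.onFormula φ, ?_⟩
    simpa only [LHom.realize_onFormula] using h

theorem blurry_iff {x : ZFSet.{u}} : Blurry x ↔ Helper97.FP.Blurry x :=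
  exists_congr fun _ => and_congr ordDef_iff Iff.rfl

theorem cofSeq_iff {γ : Ordinal.{u}} {f : ℕ → Ordinal.{u}} :
    CofSeq γ f ↔ Helper62.GL.CofSeq γ f :=
  ⟨fun h => ⟨h.mono, h.lt, h.cof⟩, fun h => ⟨h.mono, h.lt, h.cof⟩⟩

theorem seqs_iff {γ : Ordinal.{u}} {X : ZFSet.{u}} : Seqs γ X ↔ Helper62.GL.Seqs γ X := by
  constructor
  · rintro ⟨h1, h2⟩
    refine ⟨h1, fun c hc => ?_⟩
    obtain ⟨f, h3, h4⟩ := h2 c hc
    exact ⟨f, cofSeq_iff.1 h3, h4⟩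
  · rintro ⟨h1, h2⟩
    refine ⟨h1, fun c hc => ?_⟩
    obtain ⟨f, h3, h4⟩ := h2 c hc
    exact ⟨f, cofSeq_iff.2 h3, h4⟩

theorem bddAb_iff {γ : Ordinal.{u}} {X : ZFSet.{u}} : BddAb γ X ↔ Helper62.GL.BddAb γ X :=
  Iff.rfl

theorem bddBe_iff {γ : Ordinal.{u}} {X : ZFSet.{u}} : BddBe γ X ↔ Helper62.GL.BddBe γ X :=
  exists_congr fun _ => and_congr cofSeq_iff Iff.rfl

/-- The main theorem, in terms of the definitions of `BDefs`. -/
theorem main (h : MM.{u}) : List.TFAE [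
    HasDefWO.{u},
    ∀ γ : Ordinal.{u}, γ < ω_ 2 → γ.cof = ℵ₀ →
      ∃ (c : ZFSet.{u}) (f : ℕ → Ordinal.{u}), OrdDef ∅ c ∧ CofSeq γ f ∧ IsGraph c f,
    ∃ κ : Cardinal.{u}, κ.IsRegular ∧ ℵ₀ < κ ∧
      StatIn {γ : Ordinal.{u} | γ.cof = ℵ₀ ∧ ∃ X, OrdDef ∅ X ∧ Seqs γ X ∧ BddAb γ X} κ.ord,
    ∃ κ : Cardinal.{u}, κ.IsRegular ∧ ℵ₀ < κ ∧
      StatIn {γ : Ordinal.{u} | γ.cof = ℵ₀ ∧ ∃ X, OrdDef ∅ X ∧ Seqs γ X ∧ BddBe γ X} κ.ord,
    ∃ κ : Cardinal.{u}, κ.IsRegular ∧ ℵ₀ < κ ∧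
      StatIn {γ : Ordinal.{u} | γ.cof = ℵ₀ ∧ ∃ X, OrdDef ∅ X ∧ Seqs γ X ∧ X.card ≤ ℵ_ 1} κ.ord,
    ∃ T : ZFSet.{u}, Blurry T ∧ T ⊆ (ω_ 1 : Ordinal.{u}).toZFSet ∧
      StatIn {δ : Ordinal.{u} | δ.toZFSet ∈ T} (ω_ 1) ∧
      StatIn {δ : Ordinal.{u} | δ.toZFSet ∉ T} (ω_ 1)] := by
  have key := Helper62.GL.main_tfae' (mm_of h)
  simp only [statIn_iff, ordDef_iff, hasDefWO_iff, blurry_iff, cofSeq_iff, seqs_iff, bddAb_iff,
    bddBe_iff]
  exact key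

end Pool.Agent.Helper62.GL.BD
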