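import Mathlib

/-!
# Definitions for the statement of `BoundedDefinableFamilies`

The universe of sets is `ZFSet`; ordinals are read as von Neumann ordinals (`Ordinal.toZFSet`).
-/

set_option autoImplicit false

open FirstOrder FirstOrder.Language Ordinal Cardinal

universe u v

namespace Pool.Agent.Helper62.GL.BD

/-! ### Clubs, stationary sets, Martin's Maximum -/

/-- `C` is unbounded in `o`. -/
def UnbIn (C : Set Ordinal.{u}) (o : Ordinal.{u}) : Prop := ∀ x < o, ∃ y ∈ C, x < y ∧ y < o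

/-- `C` is closed in `o`. -/
def ClosedIn (C : Set Ordinal.{u}) (o : Ordinal.{u}) : Prop :=
  ∀ δ < o, 0 < δ → UnbIn C δ → δ ∈ C

/-- `C` is closed and unbounded in `o`. -/
def ClubIn (C : Set Ordinal.{u}) (o : Ordinal.{u}) : Prop := UnbIn C o ∧ ClosedIn C o

/-- `S` is stationary in `o`. -/
def StatIn (S : Set Ordinal.{u}) (o : Ordinal.{u}) : Prop :=
  ∀ C, ClubIn C o → ∃ x ∈ S, x ∈ C ∧ x < o

/-- `N` is a name for a subset of `ω₁` (`N q α` says that the condition `q` puts `α` into the set),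
and the condition `p` forces that this set is closed and unbounded in `ω₁`. -/
structure ForcesClub {P : Type v} [Preorder P] (p : P) (N : P → Ordinal.{u} → Prop) : Prop where
  mono : ∀ q r α, q ≤ r → N r α → N q α
  unbounded : ∀ q ≤ p, ∀ α < ω_ 1, ∃ r ≤ q, ∃ β < ω_ 1, α < β ∧ N r β
  closed : ∀ q ≤ p, ∀ δ < ω_ 1, 0 < δ →
    (∀ α < δ, ∀ r ≤ q, ∃ s ≤ r, ∃ β < δ, α < β ∧ N s β) → ∀ r ≤ q, ∃ s ≤ r, N s δ

/-- The forcing notion `P` preserves stationary subsets of `ω₁`: for each stationary `S`, no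
condition forces that a closed unbounded set avoids `S`. -/
def PreservesStat (P : Type v) [Preorder P] : Prop :=
  ∀ S : Set Ordinal.{u}, StatIn S (ω_ 1) → ∀ (p : P) (N : P → Ordinal.{u} → Prop),
    ForcesClub p N → ∃ q ≤ p, ∃ α ∈ S, α < ω_ 1 ∧ N q α

/-- `G` is a filter meeting the sets `D i`, `i < ω₁`. -/
structure GenericFor {P : Type v} [Preorder P] (D : Ordinal.{u} → Set P) (G : Set P) : Prop where
  up : ∀ p ∈ G, ∀ q, p ≤ q → q ∈ G
  dir : ∀ p ∈ G, ∀ q ∈ G, ∃ r ∈ G, r ≤ p ∧ r ≤ q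
  meets : ∀ i < ω_ 1, ∃ p ∈ G, p ∈ D i

/-- Martin's Maximum. -/
def MM : Prop :=
  ∀ (P : Type u) [Preorder P] [Nonempty P], PreservesStat.{u} P →
    ∀ D : Ordinal.{u} → Set P, (∀ i < ω_ 1, ∀ p, ∃ q ≤ p, q ∈ D i) → ∃ G, GenericFor D G

/-! ### Definability in the universe of sets -/

/-- The relation symbols of the language of set theory: one binary symbol. -/
inductive MemRel : ℕ → Type
  | mem : MemRel 2

/-- The first-order language of set theory, with a single binary relation symbol. -/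
def LSet : FirstOrder.Language := ⟨fun _ => Empty, MemRel⟩

/-- Interpretation of the membership symbol. -/
def memRelMap : ∀ {n : ℕ}, MemRel n → (Fin n → ZFSet.{u}) → Prop
  | _, MemRel.mem, x => x 0 ∈ x 1

/-- The universe of sets as a structure for the language of set theory. -/
instance univStructure : LSet.Structure ZFSet.{u} where
  funMap := fun f => Empty.elim f
  RelMap := fun r x => memRelMap r x

/-- The set `x` is definable in the universe from `A` and finitely many ordinals. -/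
def OrdDef (A x : ZFSet.{u}) : Prop :=
  ∃ (n : ℕ) (φ : LSet.Formula (Fin n ⊕ Fin 2)) (a : Fin n → Ordinal.{u}),
    ∀ y, φ.Realize (Sum.elim (fun i => (a i).toZFSet) ![A, y]) ↔ y = x

/-- Some formula without parameters defines a well-order of the set of all subsets of `ω`. -/
def HasDefWO : Prop :=
  ∃ φ : LSet.Formula (Fin 2), IsWellOrder {x : ZFSet.{u} // x ⊆ (ω : Ordinal.{u}).toZFSet}
    (fun x y => φ.Realize ![(x : ZFSet.{u}), (y : ZFSet.{u})])

/-- `x` belongs to an ordinal definable set with at most `ℵ₁` elements. -/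
def Blurry (x : ZFSet.{u}) : Prop :=
  ∃ Z : ZFSet.{u}, OrdDef ∅ Z ∧ Z.card ≤ ℵ_ 1 ∧ x ∈ Z

/-! ### Cofinal maps -/

/-- `f` is a strictly increasing cofinal map from `ω` to the ordinal `γ`. -/
structure CofSeq (γ : Ordinal.{u}) (f : ℕ → Ordinal.{u}) : Prop where
  mono : StrictMono f
  lt : ∀ n, f n < γ
  cof : ∀ β < γ, ∃ n, β < f n

/-- The set `c` is the graph of the map `f` from `ω` to the ordinals. -/
def IsGraph (c : ZFSet.{u}) (f : ℕ → Ordinal.{u}) : Prop :=
  ∀ z, z ∈ c ↔ ∃ n : ℕ, z = ZFSet.pair (n : Ordinal.{u}).toZFSet (f n).toZFSet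

/-- `X` is a nonempty set of strictly increasing cofinal maps from `ω` to `γ`. -/
structure Seqs (γ : Ordinal.{u}) (X : ZFSet.{u}) : Prop where
  ne : ∃ c, c ∈ X
  seq : ∀ c ∈ X, ∃ f, CofSeq γ f ∧ IsGraph c f

/-- Some map `t` from `ω` to `γ` eventually dominates every map in `X`. -/
def BddAb (γ : Ordinal.{u}) (X : ZFSet.{u}) : Prop :=
  ∃ t : ℕ → Ordinal.{u}, (∀ n, t n < γ) ∧ ∀ c ∈ X, ∀ f, IsGraph c f → ∃ m, ∀ n ≥ m, f n ≤ t n

/-- Some cofinal map `t` from `ω` to `γ` is eventually dominated by every map in `X`. -/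
def BddBe (γ : Ordinal.{u}) (X : ZFSet.{u}) : Prop :=
  ∃ t : ℕ → Ordinal.{u}, CofSeq γ t ∧ ∀ c ∈ X, ∀ f, IsGraph c f → ∃ m, ∀ n ≥ m, t n ≤ f n

end Pool.Agent.Helper62.GL.BD
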