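import Pool.Agent.Helper62.GL.St
import Pool.Agent.Helper56.MW.A1

/-!
# Closure arguments
-/

open FirstOrder FirstOrder.Language Ordinal Cardinal Set Helper23.Pcf

universe u v

namespace Pool.Agent.Helper62.GL

open Pool.Agent.Helper56.MW (club_closure aleph0_lt_cof_omega1)

/-- An ordinal of countable cofinality is the limit of a sequence. -/
theorem seq_of_cof {γ : Ordinal.{u}} (h : γ.cof = ℵ₀) :
    ∃ ν : ℕ → Ordinal.{u}, (∀ n, ν n < γ) ∧ ∀ ζ < γ, ∃ n, ζ < ν n := by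
  have hlim : Order.IsSuccLimit γ := Ordinal.one_lt_cof_iff.1 (h ▸ Cardinal.one_lt_aleph0)
  obtain ⟨e, he⟩ := Ordinal.exists_isFundamentalSeq (o := γ) rfl
  have hord : γ.cof.ord = ω := by rw [h, Cardinal.ord_aleph0]
  have hn : ∀ n : ℕ, (n : Ordinal.{u}) < γ.cof.ord := by
    intro n
    rw [hord]
    exact Ordinal.natCast_lt_omega0 n
  refine ⟨fun n => Order.succ (e ⟨n, hn n⟩).1, fun n => hlim.succ_lt (e ⟨n, hn n⟩).2,
    fun ζ hζ => ?_⟩
  obtain ⟨_, ⟨j, rfl⟩, hj⟩ := he.isCofinal_range ⟨ζ, hζ⟩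
  have hj2 : j.1 < ω := lt_of_lt_of_eq (Set.mem_Iio.1 j.2) hord
  obtain ⟨n, hn2⟩ := Ordinal.lt_omega0.1 hj2
  refine ⟨n, lt_of_le_of_lt hj ?_⟩
  have hjn : j = ⟨(n : Ordinal.{u}), hn n⟩ := Subtype.ext hn2
  rw [hjn]
  exact Order.lt_succ _

theorem cof_of_lim {δ : Ordinal.{u}} (hδ : δ < ω_ 1) (hlim : Order.IsSuccLimit δ) :
    δ.cof = ℵ₀ := by
  apply le_antisymm
  · have h1 : δ.card < ℵ_ 1 := by
      rw [← Cardinal.ord_aleph] at hδ
      exact Cardinal.lt_ord.1 hδ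
    rw [← Cardinal.succ_aleph0, Order.lt_succ_iff] at h1
    exact (Ordinal.cof_le_card δ).trans h1
  · exact Ordinal.aleph0_le_cof_iff.2 (Ordinal.one_lt_cof_iff.2 hlim)

namespace Cnd

variable {T : Par.{u}}

/-- The condition obtained by a list of steps (the last step is the head). -/
def rn (p₀ : Cnd T) (E : Cnd T → Ordinal.{u} → Cnd T)
    (J : Cnd T → Ordinal.{u} → Ordinal.{u} → Cnd T) :
    List ((Bool × Ordinal.{u}) × Ordinal.{u}) → Cnd T
  | [] => p₀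
  | y :: t => if y.1.1 then E (rn p₀ E J t) y.1.2 else J (rn p₀ E J t) y.1.2 y.2

variable {p₀ : Cnd T} {E : Cnd T → Ordinal.{u} → Cnd T}
  {J : Cnd T → Ordinal.{u} → Ordinal.{u} → Cnd T}

theorem clo_top {κ : Cardinal.{u}} (hκ : κ.IsRegular) (h1 : ℵ_ 1 < κ) (hT : T.κ = κ.ord)
    (hG : StatIn {γ | γ.cof = ℵ₀ ∧ T.Gd γ} κ.ord)
    {Tp : Cnd T → Ordinal.{u} → Ordinal.{u} → Ordinal.{u}}
    (hTp : ∀ q ξ β, ξ < ω_ 1 → β < κ.ord → Tp q ξ β < κ.ord) :
    ∃ γ : Ordinal.{u}, γ.cof = ℵ₀ ∧ T.Gd γ ∧ γ < κ.ord ∧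
      ∀ l : List ((Bool × Ordinal.{u}) × Ordinal.{u}), (∀ y ∈ l, y.1.2 < ω_ 1 ∧ y.2 < γ) →
        (rn p₀ E J l).top < γ ∧ ∀ ξ < ω_ 1, ∀ β < γ, Tp (rn p₀ E J l) ξ β < γ := by
  classical
  have h0 : ℵ₀ < κ := Cardinal.aleph0_lt_aleph_one.trans h1
  set g1 : (ULift.{u} Bool × (ω_ 1 : Ordinal.{u}).ToType) × Ordinal.{u} →
      (Bool × Ordinal.{u}) × Ordinal.{u} :=
    fun q => ((q.1.1.down, (Ordinal.ToType.mk.symm q.1.2).1), q.2) with hg1
  have hI : #(ULift.{u} Bool × (ω_ 1 : Ordinal.{u}).ToType) < κ := by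
    rw [Cardinal.mk_prod, Cardinal.lift_id, Cardinal.lift_id]
    refine Cardinal.mul_lt_of_lt h0.le ?_ ?_
    · refine lt_of_le_of_lt ?_ h0
      exact Cardinal.mk_le_aleph0
    · rw [Cardinal.mk_toType, Ordinal.card_omega]
      exact h1
  let f : List ((ULift.{u} Bool × (ω_ 1 : Ordinal.{u}).ToType) × Ordinal.{u}) → Ordinal.{u} :=
    fun l => match l with
      | [] => p₀.top
      | y :: t => max (rn p₀ E J ((y :: t).map g1)).top
          (Tp (rn p₀ E J (t.map g1)) (Ordinal.ToType.mk.symm y.1.2).1 y.2)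
  have htop : ∀ q : Cnd T, q.top < κ.ord := fun q => by
    rw [← hT]
    exact q.isCnd.bdd _ le_rfl
  have hC := club_closure hκ h0 hI f (by
    intro l hl
    cases l with
    | nil => exact htop _
    | cons y t =>
      exact max_lt (htop _) (hTp _ _ _ (Ordinal.ToType.mk.symm y.1.2).2
        (hl y List.mem_cons_self)))
  obtain ⟨γ, hγ1, hγ2, hγ3⟩ := hG _ hC
  have hmap : ∀ l : List ((Bool × Ordinal.{u}) × Ordinal.{u}),
      (∀ y ∈ l, y.1.2 < ω_ 1 ∧ y.2 < γ) →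
      ∃ l' : List ((ULift.{u} Bool × (ω_ 1 : Ordinal.{u}).ToType) × Ordinal.{u}),
        (∀ y ∈ l', y.2 < γ) ∧ l'.map g1 = l := by
    intro l
    induction l with
    | nil => exact fun _ => ⟨[], by simp, rfl⟩
    | cons y t ih =>
      intro hl
      obtain ⟨l', h2, h3⟩ := ih fun z hz => hl z (List.mem_cons_of_mem _ hz)
      have hy := hl y List.mem_cons_self
      refine ⟨((ULift.up y.1.1, Ordinal.ToType.mk ⟨y.1.2, hy.1⟩), y.2) :: l', ?_, ?_⟩
      · intro z hz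
        rcases List.mem_cons.1 hz with rfl | hz
        · exact hy.2
        · exact h2 z hz
      · rw [List.map_cons, h3]
        simp [hg1]
  refine ⟨γ, hγ1.1, hγ1.2, hγ3, fun l hl => ⟨?_, fun ξ hξ β hβ => ?_⟩⟩
  · obtain ⟨l', h2, h3⟩ := hmap l hl
    have h4 := hγ2 l' h2
    cases l' with
    | nil =>
      rw [← h3]
      exact h4
    | cons y t =>
      rw [← h3]
      exact (le_max_left _ _).trans_lt h4
  · obtain ⟨l', h2, h3⟩ := hmap l hl
    have h4 := hγ2 (((ULift.up false, Ordinal.ToType.mk ⟨ξ, hξ⟩), β) :: l') (by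
      intro z hz
      rcases List.mem_cons.1 hz with rfl | hz
      · exact hβ
      · exact h2 z hz)
    have h5 := (le_max_right _ _).trans_lt h4
    rw [h3] at h5
    simpa using h5

theorem clo_len {ν : ℕ → Ordinal.{u}} {Bd : Cnd T → Ordinal.{u} → Ordinal.{u}}
    (hBd : ∀ q ξ, ξ < ω_ 1 → Bd q ξ < ω_ 1)
    {a : Cnd T → Ordinal.{u} → Ordinal.{u} → Ordinal.{u}}
    (ha : ∀ q ξ β, a q ξ β < ω_ 1) {Es : Set Ordinal.{u}} (hEs : StatIn Es (ω_ 1)) :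
    ∃ δ ∈ Es, δ < ω_ 1 ∧ Order.IsSuccLimit δ ∧
      ∀ l : List ((Bool × Ordinal.{u}) × Ordinal.{u}), (∀ y ∈ l, y.1.2 < δ ∧ ∃ k, y.2 = ν k) →
        (rn p₀ E J l).len < δ ∧ ∀ ξ < δ, Bd (rn p₀ E J l) ξ < δ ∧
          ∀ k, a (rn p₀ E J l) ξ (ν k) < δ := by
  classical
  set g2 : (ULift.{u} Bool × ULift.{u} ℕ) × Ordinal.{u} → (Bool × Ordinal.{u}) × Ordinal.{u} :=
    fun q => ((q.1.1.down, q.2), ν q.1.2.down) with hg2
  have hI2 : #(ULift.{u} Bool × ULift.{u} ℕ) < ℵ_ 1 :=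
    lt_of_le_of_lt Cardinal.mk_le_aleph0 Cardinal.aleph0_lt_aleph_one
  let f : List ((ULift.{u} Bool × ULift.{u} ℕ) × Ordinal.{u}) → Ordinal.{u} :=
    fun l => match l with
      | [] => p₀.len
      | y :: t => max (rn p₀ E J ((y :: t).map g2)).len
          (max (Bd (rn p₀ E J (t.map g2)) y.2) (a (rn p₀ E J (t.map g2)) y.2 (ν y.1.2.down)))
  have hC2 := club_closure Cardinal.isRegular_aleph_one Cardinal.aleph0_lt_aleph_one hI2 f (by
    intro l hl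
    rw [Cardinal.ord_aleph] at hl ⊢
    cases l with
    | nil => exact p₀.isCnd.lt
    | cons y t =>
      exact max_lt (rn p₀ E J _).isCnd.lt (max_lt (hBd _ _ (hl y List.mem_cons_self)) (ha _ _ _)))
  rw [Cardinal.ord_aleph] at hC2
  obtain ⟨δ, hδE, hδC, hδ1⟩ := hEs _ (club_inter aleph0_lt_cof_omega1 hC2
    (club_limits aleph0_lt_cof_omega1))
  obtain ⟨hδ2, hδlim⟩ := hδC
  have hmap : ∀ l : List ((Bool × Ordinal.{u}) × Ordinal.{u}),
      (∀ y ∈ l, y.1.2 < δ ∧ ∃ k, y.2 = ν k) →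
      ∃ l' : List ((ULift.{u} Bool × ULift.{u} ℕ) × Ordinal.{u}),
        (∀ y ∈ l', y.2 < δ) ∧ l'.map g2 = l := by
    intro l
    induction l with
    | nil => exact fun _ => ⟨[], by simp, rfl⟩
    | cons y t ih =>
      intro hl
      obtain ⟨l', h2, h3⟩ := ih fun z hz => hl z (List.mem_cons_of_mem _ hz)
      obtain ⟨hy1, k, hy2⟩ := hl y List.mem_cons_self
      refine ⟨((ULift.up y.1.1, ULift.up k), y.1.2) :: l', ?_, ?_⟩
      · intro z hz
        rcases List.mem_cons.1 hz with rfl | hz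
        · exact hy1
        · exact h2 z hz
      · rw [List.map_cons, h3]
        congr 1
        exact Prod.ext rfl hy2.symm
  refine ⟨δ, hδE, hδ1, hδlim, fun l hl => ?_⟩
  obtain ⟨l', h2, h3⟩ := hmap l hl
  have key : ∀ ξ < δ, ∀ k, Bd (rn p₀ E J l) ξ < δ ∧ a (rn p₀ E J l) ξ (ν k) < δ := by
    intro ξ hξ k
    have h4 := hδ2 (((ULift.up false, ULift.up k), ξ) :: l') (by
      intro z hz
      rcases List.mem_cons.1 hz with rfl | hz
      · exact hξ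
      · exact h2 z hz)
    have h5 := (le_max_right _ _).trans_lt h4
    rw [h3] at h5
    exact ⟨(le_max_left _ _).trans_lt h5, (le_max_right _ _).trans_lt h5⟩
  refine ⟨?_, fun ξ hξ => ⟨(key ξ hξ 0).1, fun k => (key ξ hξ k).2⟩⟩
  have h4 := hδ2 l' h2
  cases l' with
  | nil =>
    rw [← h3]
    exact h4
  | cons y t =>
    rw [← h3]
    exact (le_max_left _ _).trans_lt h4

/-- The common bound for the last values. -/
noncomputable def tp (E : Cnd T → Ordinal.{u} → Cnd T)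
    (J : Cnd T → Ordinal.{u} → Ordinal.{u} → Cnd T) (q : Cnd T) (ξ β : Ordinal.{u}) :
    Ordinal.{u} :=
  ⨆ z : (ω_ 1 : Ordinal.{u}).ToType × (ω_ 1 : Ordinal.{u}).ToType,
    max (J (E q (Ordinal.ToType.mk.symm z.1).1) ξ β).top
      (E (J (E q (Ordinal.ToType.mk.symm z.1).1) ξ β) (Ordinal.ToType.mk.symm z.2).1).top

theorem tp_lt {κ : Cardinal.{u}} (hκ : κ.IsRegular) (h1 : ℵ_ 1 < κ) (hT : T.κ = κ.ord)
    (q : Cnd T) (ξ β : Ordinal.{u}) : tp E J q ξ β < κ.ord := by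
  have htop : ∀ q : Cnd T, q.top < κ.ord := fun q => by
    rw [← hT]
    exact q.isCnd.bdd _ le_rfl
  refine Ordinal.iSup_lt_of_lt_cof ?_ fun z => max_lt (htop _) (htop _)
  rw [hκ.cof_ord, Cardinal.mk_prod, Cardinal.lift_id, Cardinal.mk_toType,
    Ordinal.card_omega]
  exact Cardinal.mul_lt_of_lt (Cardinal.aleph0_lt_aleph_one.trans h1).le h1 h1

theorem le_tp (q : Cnd T) (ξ β : Ordinal.{u}) {ζ ζ' : Ordinal.{u}} (h : ζ < ω_ 1)
    (h' : ζ' < ω_ 1) : (J (E q ζ) ξ β).top ≤ tp E J q ξ β ∧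
      (E (J (E q ζ) ξ β) ζ').top ≤ tp E J q ξ β := by
  have h2 := Ordinal.le_iSup (fun z : (ω_ 1 : Ordinal.{u}).ToType × (ω_ 1 : Ordinal.{u}).ToType =>
    max (J (E q (Ordinal.ToType.mk.symm z.1).1) ξ β).top
      (E (J (E q (Ordinal.ToType.mk.symm z.1).1) ξ β) (Ordinal.ToType.mk.symm z.2).1).top)
    (Ordinal.ToType.mk ⟨ζ, h⟩, Ordinal.ToType.mk ⟨ζ', h'⟩)
  simp only [OrderIso.symm_apply_apply] at h2
  exact ⟨(le_max_left _ _).trans h2, (le_max_right _ _).trans h2⟩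

end Cnd

end Pool.Agent.Helper62.GL
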