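import Pool.Agent.Helper62.GL.In
import Pool.Agent.Helper56.MW.A5
import Pool.Agent.Helper56.MW.B6

/-!
# The forcing notion
-/

open FirstOrder FirstOrder.Language Ordinal Cardinal Set Helper23.Pcf

universe u v

namespace Pool.Agent.Helper62.GL

open Pool.Agent.Helper56.MW (Nrm GenericFor)

/-- The parameters of the forcing notion. -/
structure Par where
  κ : Ordinal.{u}
  Gd : Ordinal.{u} → Prop
  P1 : Ordinal.{u} → Ordinal.{u} → (Ordinal.{u} → Ordinal.{u}) → Prop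
  P0 : Ordinal.{u} → Ordinal.{u} → (Ordinal.{u} → Ordinal.{u}) → Prop
  A : Set Ordinal.{u}

/-- `f` is a condition of length `δ + 1`. -/
structure IsCnd (T : Par.{u}) (δ : Ordinal.{u}) (f : Ordinal.{u} → Ordinal.{u}) : Prop where
  lt : δ < ω_ 1
  zero : ∀ ξ, δ < ξ → f ξ = 0
  bdd : ∀ ξ ≤ δ, f ξ < T.κ
  mono : ∀ ξ ≤ δ, ∀ ξ' < ξ, f ξ' < f ξ
  cont : ∀ ξ ≤ δ, Order.IsSuccLimit ξ → ∀ ν < f ξ, ∃ ξ' < ξ, ν < f ξ'
  pat : ∀ ξ ≤ δ, Order.IsSuccLimit ξ →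
    T.Gd (f ξ) ∧ (ξ ∈ T.A → T.P1 ξ (f ξ) f) ∧ (ξ ∉ T.A → T.P0 ξ (f ξ) f)

/-- The forcing notion. -/
def Cnd (T : Par.{u}) : Type (u + 1) :=
  {x : Ordinal.{u} × (Ordinal.{u} → Ordinal.{u}) // IsCnd T x.1 x.2}

namespace Cnd

variable {T : Par.{u}}

/-- The last point of the domain. -/
def len (p : Cnd T) : Ordinal.{u} := p.1.1

/-- The sequence. -/
def fn (p : Cnd T) : Ordinal.{u} → Ordinal.{u} := p.1.2

/-- The last value. -/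
def top (p : Cnd T) : Ordinal.{u} := p.fn p.len

theorem isCnd (p : Cnd T) : IsCnd T p.len p.fn := p.2

instance : Preorder (Cnd T) where
  le q p := p.len ≤ q.len ∧ ∀ ξ ≤ p.len, q.fn ξ = p.fn ξ
  le_refl p := ⟨le_rfl, fun _ _ => rfl⟩
  le_trans a b c h1 h2 :=
    ⟨h2.1.trans h1.1, fun ξ hξ => (h1.2 ξ (hξ.trans h2.1)).trans (h2.2 ξ hξ)⟩

theorem le_def {q p : Cnd T} : q ≤ p ↔ p.len ≤ q.len ∧ ∀ ξ ≤ p.len, q.fn ξ = p.fn ξ :=
  Iff.rfl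

theorem fn_le_top (p : Cnd T) {ξ : Ordinal.{u}} (h : ξ ≤ p.len) : p.fn ξ ≤ p.top := by
  rcases h.eq_or_lt with h | h
  · rw [h]
    exact le_rfl
  · exact (p.isCnd.mono _ le_rfl _ h).le

/-- The union of a filter of conditions. -/
noncomputable def union (G : Set (Cnd T)) (ξ : Ordinal.{u}) : Ordinal.{u} :=
  sSup {ν | ∃ p ∈ G, ξ ≤ p.len ∧ ν = p.fn ξ}

theorem nonempty (hκ : 0 < T.κ) : Nonempty (Cnd T) := by
  have h0 : ∀ ξ : Ordinal.{u}, ξ ≤ 0 → ¬ Order.IsSuccLimit ξ := by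
    intro ξ hξ h
    exact h.1 (by rw [nonpos_iff_eq_zero.1 hξ]; exact isMin_bot)
  exact ⟨⟨(0, fun _ => 0), ⟨omega_pos 1, fun _ _ => rfl, fun _ _ => hκ,
    fun ξ hξ ξ' hξ' => absurd hξ' (by rw [nonpos_iff_eq_zero.1 hξ]; exact not_lt_zero),
    fun ξ hξ h => absurd h (h0 ξ hξ), fun ξ hξ h => absurd h (h0 ξ hξ)⟩⟩⟩

/-- The alternatives only depend on the values up to `ξ`. -/
theorem pat_congr (S : Steer T.Gd T.P1 T.P0) {ξ : Ordinal.{u}} {f g : Ordinal.{u} → Ordinal.{u}}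
    (h : ∀ ζ ≤ ξ, f ζ = g ζ)
    (H : T.Gd (f ξ) ∧ (ξ ∈ T.A → T.P1 ξ (f ξ) f) ∧ (ξ ∉ T.A → T.P0 ξ (f ξ) f)) :
    T.Gd (g ξ) ∧ (ξ ∈ T.A → T.P1 ξ (g ξ) g) ∧ (ξ ∉ T.A → T.P0 ξ (g ξ) g) := by
  rw [← h ξ le_rfl]
  exact ⟨H.1, fun h1 => S.loc1 _ _ _ _ h (H.2.1 h1), fun h1 => S.loc0 _ _ _ _ h (H.2.2 h1)⟩

/-- One step extensions. -/
theorem step (S : Steer T.Gd T.P1 T.P0) (hκ : Order.IsSuccLimit T.κ) (p : Cnd T)
    (β : Ordinal.{u}) (hβ : β < T.κ) : ∃ q ≤ p, q.len = p.len + 1 ∧ β < q.fn q.len := by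
  classical
  have hp := p.isCnd
  have hlt : p.len < p.len + 1 := lt_add_one _
  have hnl : ¬ Order.IsSuccLimit (p.len + 1) := by
    rw [← Order.succ_eq_add_one]
    intro h
    exact Order.not_isSuccPrelimit_succ _ h.isSuccPrelimit
  have hle : ∀ ξ, ξ < p.len + 1 → ξ ≤ p.len := fun ξ h => Order.lt_add_one_iff.1 h
  set g : Ordinal.{u} → Ordinal.{u} :=
    Function.update p.fn (p.len + 1) (max β (p.fn p.len) + 1) with hg
  have hg1 : g (p.len + 1) = max β (p.fn p.len) + 1 := Function.update_self _ _ _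
  have hg2 : ∀ ξ, ξ ≠ p.len + 1 → g ξ = p.fn ξ := fun ξ h => Function.update_of_ne h _ _
  have hg3 : ∀ ξ, ξ < p.len + 1 → g ξ = p.fn ξ := fun ξ h => hg2 ξ h.ne
  have hcond : IsCnd T (p.len + 1) g := by
    refine ⟨?_, ?_, ?_, ?_, ?_, ?_⟩
    · rw [← Order.succ_eq_add_one]
      exact (isSuccLimit_omega 1).succ_lt hp.lt
    · intro ξ hξ
      rw [hg2 ξ hξ.ne']
      exact hp.zero ξ (hlt.trans hξ)
    · intro ξ hξ
      rcases hξ.eq_or_lt with rfl | h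
      · rw [hg1, ← Order.succ_eq_add_one]
        exact hκ.succ_lt (max_lt hβ (hp.bdd _ le_rfl))
      · rw [hg3 ξ h]
        exact hp.bdd ξ (hle ξ h)
    · intro ξ hξ ξ' hξ'
      rcases hξ.eq_or_lt with rfl | h
      · rw [hg1, hg3 ξ' hξ']
        refine lt_of_le_of_lt (le_trans ?_ (le_max_right _ _)) (lt_add_one _)
        rcases (hle ξ' hξ').eq_or_lt with h | h
        · rw [h]
        · exact (hp.mono _ le_rfl _ h).le
      · rw [hg3 ξ h, hg3 ξ' (hξ'.trans h)]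
        exact hp.mono ξ (hle ξ h) ξ' hξ'
    · intro ξ hξ hl ν hν
      rcases hξ.eq_or_lt with rfl | h
      · exact absurd hl hnl
      · rw [hg3 ξ h] at hν
        obtain ⟨ξ', h1, h2⟩ := hp.cont ξ (hle ξ h) hl ν hν
        exact ⟨ξ', h1, by rwa [hg3 ξ' (h1.trans h)]⟩
    · intro ξ hξ hl
      rcases hξ.eq_or_lt with rfl | h
      · exact absurd hl hnl
      · exact pat_congr S (fun ζ hζ => (hg3 ζ (hζ.trans_lt h)).symm) (hp.pat ξ (hle ξ h) hl)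
  refine ⟨⟨(p.len + 1, g), hcond⟩, ⟨hlt.le, fun ξ hξ => hg3 ξ (hξ.trans_lt hlt)⟩, rfl, ?_⟩
  change β < g (p.len + 1)
  rw [hg1]
  exact lt_of_le_of_lt (le_max_left _ _) (lt_add_one _)

/-- Lower bounds of decreasing sequences. -/
theorem lower_bound (S : Steer T.Gd T.P1 T.P0) (p : ℕ → Cnd T) (hp : ∀ n, p (n + 1) ≤ p n)
    {δ γ : Ordinal.{u}} (hδ : δ < ω_ 1) (hδ1 : ∀ n, (p n).len < δ)
    (hδ2 : ∀ ξ < δ, ∃ n, ξ < (p n).len)
    (hγ : γ < T.κ) (hγ1 : ∀ n, (p n).top < γ)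
    (hγ2 : ∀ ν < γ, ∃ n, ν < (p n).top) (hG : T.Gd γ)
    (hpat : ∀ g : Ordinal.{u} → Ordinal.{u}, (∀ n, ∀ ξ ≤ (p n).len, g ξ = (p n).fn ξ) →
      g δ = γ → (δ ∈ T.A → T.P1 δ γ g) ∧ (δ ∉ T.A → T.P0 δ γ g)) :
    ∃ q : Cnd T, (∀ n, q ≤ p n) ∧ q.len = δ ∧ q.fn δ = γ := by
  classical
  have hanti : ∀ n m, n ≤ m → p m ≤ p n := fun n m h => antitone_nat_of_succ_le hp h
  choose N hN using hδ2
  set g : Ordinal.{u} → Ordinal.{u} := fun ξ =>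
    if h : ξ < δ then (p (N ξ h)).fn ξ else if ξ = δ then γ else 0 with hg
  have key : ∀ n ξ, ξ ≤ (p n).len → g ξ = (p n).fn ξ := by
    intro n ξ hξ
    have h : ξ < δ := hξ.trans_lt (hδ1 n)
    have h1 : g ξ = (p (N ξ h)).fn ξ := by simp [hg, h]
    rw [h1, ← (hanti _ _ (le_max_left n (N ξ h))).2 ξ hξ,
      (hanti _ _ (le_max_right n (N ξ h))).2 ξ (hN ξ h).le]
  have keyδ : g δ = γ := by simp [hg]
  have key0 : ∀ ξ, δ < ξ → g ξ = 0 := by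
    intro ξ hξ
    simp [hg, hξ.not_gt, hξ.ne']
  have hcond : IsCnd T δ g := by
    refine ⟨hδ, key0, ?_, ?_, ?_, ?_⟩
    · intro ξ hξ
      rcases hξ.eq_or_lt with rfl | h
      · rwa [keyδ]
      · rw [key _ ξ (hN ξ h).le]
        exact (p _).isCnd.bdd ξ (hN ξ h).le
    · intro ξ hξ ξ' hξ'
      rcases hξ.eq_or_lt with rfl | h
      · rw [keyδ, key _ ξ' (hN ξ' hξ').le]
        exact ((p _).isCnd.mono _ le_rfl ξ' (hN ξ' hξ')).trans (hγ1 _)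
      · rw [key _ ξ (hN ξ h).le, key _ ξ' (hξ'.le.trans (hN ξ h).le)]
        exact (p _).isCnd.mono ξ (hN ξ h).le ξ' hξ'
    · intro ξ hξ hl ν hν
      rcases hξ.eq_or_lt with rfl | h
      · rw [keyδ] at hν
        obtain ⟨n, hn⟩ := hγ2 ν hν
        refine ⟨(p n).len, hδ1 n, ?_⟩
        rw [key n _ le_rfl]
        exact hn
      · rw [key _ ξ (hN ξ h).le] at hν
        obtain ⟨ξ', h1, h2⟩ := (p _).isCnd.cont ξ (hN ξ h).le hl ν hν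
        exact ⟨ξ', h1, by rwa [key _ ξ' (h1.le.trans (hN ξ h).le)]⟩
    · intro ξ hξ hl
      rcases hξ.eq_or_lt with rfl | h
      · rw [keyδ]
        exact ⟨hG, hpat g key keyδ⟩
      · exact pat_congr S (fun ζ hζ => (key _ ζ (hζ.trans (hN ξ h).le)).symm)
          ((p _).isCnd.pat ξ (hN ξ h).le hl)
  exact ⟨⟨(δ, g), hcond⟩, fun n => ⟨(hδ1 n).le, fun ξ hξ => key n ξ hξ⟩, rfl, keyδ⟩

/-- The forcing notion is small. -/
instance small : Small.{u} (Cnd T) := by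
  have hb : ∀ (p : Cnd T) (ξ : Ordinal.{u}), p.fn ξ < max T.κ 1 := by
    intro p ξ
    rcases le_or_gt ξ p.len with h | h
    · exact (p.isCnd.bdd ξ h).trans_le (le_max_left _ _)
    · have h0 : p.fn ξ = 0 := p.isCnd.zero ξ h
      rw [h0]
      exact zero_lt_one.trans_le (le_max_right _ _)
  let F : Cnd T → Iio (ω_ 1 : Ordinal.{u}) ×
      (Iio (ω_ 1 : Ordinal.{u}) → Iio (max T.κ 1 : Ordinal.{u})) :=
    fun p => (⟨p.len, p.isCnd.lt⟩, fun ξ => ⟨p.fn ξ.1, hb p ξ.1⟩)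
  refine small_of_injective (f := F) ?_
  intro p q h
  have h1 : p.len = q.len := congrArg (fun x => x.1.1) h
  have h2 : ∀ ξ : Ordinal.{u}, ξ < ω_ 1 → p.fn ξ = q.fn ξ := by
    intro ξ hξ
    exact congrArg (fun x => (x.2 ⟨ξ, hξ⟩).1) h
  refine Subtype.ext (Prod.ext h1 (funext fun ξ => ?_))
  rcases lt_or_ge ξ (ω_ 1) with h3 | h3
  · exact h2 ξ h3
  · have h4 : p.fn ξ = 0 := p.isCnd.zero ξ (p.isCnd.lt.trans_le h3)
    have h5 : q.fn ξ = 0 := q.isCnd.zero ξ (q.isCnd.lt.trans_le h3)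
    exact h4.trans h5.symm

/-- The union of a filter meeting all the sets `{p | i ≤ p.len}`, `i < ω₁`. -/
theorem union_nrm (S : Steer T.Gd T.P1 T.P0) {κ : Cardinal.{u}} (hT : T.κ = κ.ord)
    (hκ : κ.IsRegular) (h1 : ℵ_ 1 < κ) {G : Set (Cnd T)}
    (hG : GenericFor (fun i => {p : Cnd T | i ≤ p.len}) G) :
    ∃ η < κ.ord, Nrm (ω_ 1) η (union G) ∧ ∀ ξ < ω_ 1, Order.IsSuccLimit ξ →
      T.Gd (union G ξ) ∧ (ξ ∈ T.A → T.P1 ξ (union G ξ) (union G)) ∧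
        (ξ ∉ T.A → T.P0 ξ (union G ξ) (union G)) := by
  have hex : ∀ ξ < ω_ 1, ∃ p ∈ G, ξ ≤ p.len := fun ξ hξ => by
    obtain ⟨p, hp, h⟩ := hG.meets ξ hξ
    exact ⟨p, hp, h⟩
  have hval : ∀ p ∈ G, ∀ ξ ≤ p.len, union G ξ = p.fn ξ := by
    intro p hp ξ hξ
    have hs : {ν | ∃ q ∈ G, ξ ≤ q.len ∧ ν = q.fn ξ} = {p.fn ξ} := by
      ext ν
      simp only [mem_ofPred_eq, mem_singleton_iff]
      constructor
      · rintro ⟨q, hq, hξq, rfl⟩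
        obtain ⟨r, _, hrp, hrq⟩ := hG.dir p hp q hq
        rw [← hrp.2 ξ hξ, ← hrq.2 ξ hξq]
      · rintro rfl
        exact ⟨p, hp, hξ, rfl⟩
    unfold union
    rw [hs, csSup_singleton]
  have hlt : ∀ ξ < ω_ 1, union G ξ < κ.ord := by
    intro ξ hξ
    obtain ⟨p, hp, h⟩ := hex ξ hξ
    rw [hval p hp ξ h, ← hT]
    exact p.isCnd.bdd ξ h
  have hmono : ∀ ξ < ω_ 1, ∀ ξ' < ξ, union G ξ' < union G ξ := by
    intro ξ hξ ξ' hξ'
    obtain ⟨p, hp, h⟩ := hex ξ hξ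
    rw [hval p hp ξ h, hval p hp ξ' (hξ'.le.trans h)]
    exact p.isCnd.mono ξ h ξ' hξ'
  have hlim : Order.IsSuccLimit (ω_ 1 : Ordinal.{u}) := Cardinal.isSuccLimit_omega 1
  set s : Set Ordinal.{u} := union G '' Iio (ω_ 1) with hs
  have hbdd : BddAbove s := ⟨κ.ord, by
    rintro _ ⟨ξ, hξ, rfl⟩
    exact (hlt ξ hξ).le⟩
  have hne : s.Nonempty := ⟨union G 0, 0, Ordinal.omega_pos 1, rfl⟩
  have hle : ∀ ξ < ω_ 1, union G ξ ≤ sSup s := fun ξ hξ => le_csSup hbdd ⟨ξ, hξ, rfl⟩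
  have hcard : #s < (Ordinal.lift.{u + 1} κ.ord).cof := by
    refine lt_of_le_of_lt mk_image_le ?_
    rw [Cardinal.mk_Iio_ordinal, ← Ordinal.lift_cof, hκ.cof_ord, Cardinal.lift_lt]
    simpa using h1
  refine ⟨sSup s, ?_, ⟨?_, hmono, ?_, ?_⟩, ?_⟩
  · refine Ordinal.sSup_lt_of_lt_cof hcard ?_
    rintro _ ⟨ξ, hξ, rfl⟩
    exact hlt ξ hξ
  · intro ξ hξ
    exact (hmono _ (hlim.succ_lt hξ) ξ (Order.lt_succ ξ)).trans_le (hle _ (hlim.succ_lt hξ))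
  · intro ξ hξ hl ν hν
    obtain ⟨p, hp, h⟩ := hex ξ hξ
    rw [hval p hp ξ h] at hν
    obtain ⟨ξ', h1', h2'⟩ := p.isCnd.cont ξ h hl ν hν
    refine ⟨ξ', h1', ?_⟩
    rw [hval p hp ξ' (h1'.le.trans h)]
    exact h2'
  · intro ν hν
    obtain ⟨_, ⟨ξ, hξ, rfl⟩, h⟩ := exists_lt_of_lt_csSup hne hν
    exact ⟨ξ, hξ, h⟩
  · intro ξ hξ hl
    obtain ⟨p, hp, h⟩ := hex ξ hξ
    exact pat_congr S (fun ζ hζ => (hval p hp ζ (hζ.trans h)).symm) (p.isCnd.pat ξ h hl)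

end Cnd

end Pool.Agent.Helper62.GL
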