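import Pool.Agent.Helper62.GL.FDefs
import Pool.Agent.Helper62.GL.BBridge
import Pool.Agent.Helper97.FP.Ps

/-!
# The definitions of `FDefs` agree with those used in the proof of `BlurrilyDefinableReals`
-/

set_option autoImplicit false

open Ordinal Cardinal

universe u

namespace Pool.Agent.Helper62.GL.BD

open Pool.Agent

theorem ctbCof_iff {c : ZFSet.{u}} {γ : Ordinal.{u}} : CtbCof c γ ↔ Helper97.FP.CtbCof c γ :=
  ⟨fun h => ⟨h.sub, h.ctb, h.cof⟩, fun h => ⟨h.sub, h.ctb, h.cof⟩⟩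

theorem projStat_iff {P : ZFSet.{u} → Prop} : ProjStat P ↔ Helper97.FP.ProjStat P := by
  constructor
  · intro h f hf E hE
    exact h f hf E (statIn_iff.2 hE)
  · intro h f hf E hE
    exact h f hf E (statIn_iff.1 hE)

/-- The theorem of `BlurrilyDefinableReals`, in terms of the definitions of `BDefs` and `FDefs`. -/
theorem mainF (h : MM.{u}) : List.TFAE [
    HasDefWO.{u},
    ∃ (G : ZFSet.{u}) (r : ZFSet.{u} → Ordinal.{u}), OrdDef ∅ G ∧
      (∀ z, z ∈ G ↔ ∃ x, x ⊆ (ω : Ordinal.{u}).toZFSet ∧ z = ZFSet.pair x (r x).toZFSet) ∧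
      ∀ γ, #{x : ZFSet.{u} // x ⊆ (ω : Ordinal.{u}).toZFSet ∧ r x = γ} ≤ ℵ_ 1,
    ∀ x : ZFSet.{u}, x ⊆ (ω : Ordinal.{u}).toZFSet → Blurry x,
    ∀ x : ZFSet.{u}, x ⊆ (ω : Ordinal.{u}).toZFSet → ∃ A, Blurry A ∧ OrdDef A x,
    StatIn {γ : Ordinal.{u} | γ.cof = ℵ₀ ∧ ∃ c, Blurry c ∧ CtbCof c γ} (ω_ 2),
    ∃ s, Blurry s ∧ ProjStat (fun x => x ∈ s) ∧ ProjStat (fun x : ZFSet.{u} => x ∉ s)] := by
  have key := Helper97.FP.main (mm_of h)
  simp only [statIn_iff, ordDef_iff, hasDefWO_iff, blurry_iff, ctbCof_iff, projStat_iff]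
  exact key

end Pool.Agent.Helper62.GL.BD
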