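import Pool.Agent.Helper62.GL.Cl

/-!
# Density, preservation of stationary sets, and the coding theorem
-/

open FirstOrder FirstOrder.Language Ordinal Cardinal Set Helper23.Pcf

universe u v

namespace Pool.Agent.Helper62.GL

open Pool.Agent.Helper56.MW (MM PreservesStat ForcesClub Nrm aleph0_lt_cof_omega1)

namespace Cnd

variable {T : Par.{u}}

/-- The conditions obtained by steps with parameters below `δ` and among the `ν k`. -/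
def Rs (p₀ : Cnd T) (E : Cnd T → Ordinal.{u} → Cnd T)
    (J : Cnd T → Ordinal.{u} → Ordinal.{u} → Cnd T) (δ : Ordinal.{u}) (ν : ℕ → Ordinal.{u}) :
    Set (Cnd T) :=
  {q | ∃ l : List ((Bool × Ordinal.{u}) × Ordinal.{u}),
    (∀ y ∈ l, y.1.2 < δ ∧ ∃ k, y.2 = ν k) ∧ q = rn p₀ E J l}

variable {p₀ : Cnd T} {E : Cnd T → Ordinal.{u} → Cnd T}
  {J : Cnd T → Ordinal.{u} → Ordinal.{u} → Cnd T} {δ : Ordinal.{u}} {ν : ℕ → Ordinal.{u}}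

theorem self_mem_Rs : p₀ ∈ Rs p₀ E J δ ν := ⟨[], by simp, rfl⟩

theorem E_mem_Rs {q : Cnd T} (hq : q ∈ Rs p₀ E J δ ν) {ζ : Ordinal.{u}} (hζ : ζ < δ) :
    E q ζ ∈ Rs p₀ E J δ ν := by
  obtain ⟨l, h1, rfl⟩ := hq
  refine ⟨((true, ζ), ν 0) :: l, ?_, rfl⟩
  intro y hy
  rcases List.mem_cons.1 hy with rfl | hy
  · exact ⟨hζ, 0, rfl⟩
  · exact h1 y hy

theorem J_mem_Rs {q : Cnd T} (hq : q ∈ Rs p₀ E J δ ν) {ξ : Ordinal.{u}} (hξ : ξ < δ) (k : ℕ) :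
    J q ξ (ν k) ∈ Rs p₀ E J δ ν := by
  obtain ⟨l, h1, rfl⟩ := hq
  refine ⟨((false, ξ), ν k) :: l, ?_, rfl⟩
  intro y hy
  rcases List.mem_cons.1 hy with rfl | hy
  · exact ⟨hξ, k, rfl⟩
  · exact h1 y hy

/-- The inductive step of the density lemma at limits. -/
theorem dens_limit (S : Steer T.Gd T.P1 T.P0) {κ : Cardinal.{u}} (hκ : κ.IsRegular)
    (h1 : ℵ_ 1 < κ) (hT : T.κ = κ.ord) (hG : StatIn {γ | γ.cof = ℵ₀ ∧ T.Gd γ} κ.ord)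
    {ξ : Ordinal.{u}} (hξ : ξ < ω_ 1) (hlim : Order.IsSuccLimit ξ)
    (ih : ∀ ζ < ξ, ∀ p : Cnd T, p.len < ζ → ∃ q ≤ p, q.len = ζ) (p : Cnd T) (hp : p.len < ξ) :
    ∃ q ≤ p, q.len = ξ := by
  classical
  have hκlim : Order.IsSuccLimit T.κ := by
    rw [hT]
    exact Cardinal.isSuccLimit_ord hκ.aleph0_le
  -- the operators
  have hE : ∀ (q : Cnd T) (ζ : Ordinal.{u}), ∃ r : Cnd T, q.len < ξ → ζ < ξ →
      r.len < ξ ∧ r ≤ q ∧ ζ ≤ r.len := by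
    intro q ζ
    by_cases h : q.len < ξ ∧ ζ < ξ
    · rcases lt_or_ge q.len ζ with h2 | h2
      · obtain ⟨r, hr, hr2⟩ := ih ζ h.2 q h2
        exact ⟨r, fun _ _ => ⟨by rw [hr2]; exact h.2, hr, hr2.ge⟩⟩
      · exact ⟨q, fun _ _ => ⟨h.1, le_rfl, h2⟩⟩
    · exact ⟨q, fun h2 h3 => absurd ⟨h2, h3⟩ h⟩
  choose E hE using hE
  have hJ : ∀ (q : Cnd T) (ζ β : Ordinal.{u}), ∃ r : Cnd T, q.len < ξ → ζ < ξ → β < T.κ →
      r ≤ q ∧ r.len = max (q.len + 1) (ζ + 1) ∧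
      ∀ ζ', q.len < ζ' → ζ' ≤ r.len → β < r.fn ζ' := by
    intro q ζ β
    by_cases h : q.len < ξ ∧ ζ < ξ ∧ β < T.κ
    · obtain ⟨q1, h2, h3, h4⟩ := step S hκlim q β h.2.2
      have h5 : q.len + 1 < ξ := by
        rw [← Order.succ_eq_add_one]
        exact hlim.succ_lt h.1
      have h6 : ζ + 1 < ξ := by
        rw [← Order.succ_eq_add_one]
        exact hlim.succ_lt h.2.1
      obtain ⟨r, h7, h8⟩ : ∃ r ≤ q1, r.len = max (q.len + 1) (ζ + 1) := by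
        rcases lt_or_ge q1.len (ζ + 1) with h7 | h7
        · obtain ⟨r, hr, hr2⟩ := ih _ h6 q1 h7
          refine ⟨r, hr, ?_⟩
          rw [hr2, max_eq_right]
          rw [← h3]
          exact h7.le
        · refine ⟨q1, le_rfl, ?_⟩
          rw [h3] at h7 ⊢
          rw [max_eq_left h7]
      refine ⟨r, fun _ _ _ => ⟨h7.trans h2, h8, fun ζ' h9 h10 => ?_⟩⟩
      have h11 : q1.len ≤ ζ' := by
        rw [h3]
        exact Order.add_one_le_of_lt h9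
      have h12 : β < r.fn q1.len := by
        rw [h7.2 _ le_rfl]
        exact h4
      rcases h11.eq_or_lt with h13 | h13
      · rw [← h13]
        exact h12
      · exact h12.trans (r.isCnd.mono _ h10 _ h13)
    · exact ⟨q, fun h2 h3 h4 => absurd ⟨h2, h3, h4⟩ h⟩
  choose J hJ using hJ
  obtain ⟨γ, hγ1, hγ2, hγ3, hγ4⟩ := clo_top (p₀ := p) (E := E) (J := J) hκ h1 hT hG
    (Tp := tp E J) (fun q ξ β _ _ => tp_lt hκ h1 hT q ξ β)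
  have hξc := cof_of_lim hξ hlim
  obtain ⟨x, hx1, hx2⟩ := seq_of_cof hξc
  obtain ⟨ν, hν1, hν2⟩ := seq_of_cof hγ1
  have hνκ : ∀ k, ν k < T.κ := fun k => by
    rw [hT]
    exact (hν1 k).trans hγ3
  have hlen : ∀ q ∈ Rs p E J ξ ν, q.len < ξ := by
    rintro q ⟨l, hl, rfl⟩
    induction l with
    | nil => exact hp
    | cons y t ih' =>
      have h2 := ih' fun z hz => hl z (List.mem_cons_of_mem _ hz)
      obtain ⟨h3, k, h4⟩ := hl y List.mem_cons_self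
      by_cases hy : y.1.1 = true
      · have h5 : rn p E J (y :: t) = E (rn p E J t) y.1.2 := by simp [rn, hy]
        rw [h5]
        exact (hE _ _ h2 h3).1
      · have h5 : rn p E J (y :: t) = J (rn p E J t) y.1.2 y.2 := by simp [rn, hy]
        rw [h5, (hJ _ _ _ h2 h3 (by rw [h4]; exact hνκ k)).2.1]
        refine max_lt ?_ ?_
        · rw [← Order.succ_eq_add_one]
          exact hlim.succ_lt h2
        · rw [← Order.succ_eq_add_one]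
          exact hlim.succ_lt h3
  have hRs : ∀ q ∈ Rs p E J ξ ν, q.top < γ ∧ ∀ ξ' < ω_ 1, ∀ β < γ, tp E J q ξ' β < γ := by
    rintro q ⟨l, hl, rfl⟩
    refine hγ4 l fun y hy => ⟨(hl y hy).1.trans hξ, ?_⟩
    obtain ⟨k, hk⟩ := (hl y hy).2
    rw [hk]
    exact hν1 k
  have hOps : Ops (Rs p E J ξ ν) ξ γ ν (fun _ _ => True) E J
      (fun q ζ => max (q.len + 1) (ζ + 1)) (tp E J) := by
    refine ⟨hlen, fun q hq => (hRs q hq).1, fun q hq ζ hζ => ?_, fun q hq ζ hζ k => ?_,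
      fun q hq ζ hζ => ?_, fun q hq ζ hζ k => (hRs q hq).2 ζ (hζ.trans hξ) _ (hν1 k),
      fun q hq ζ hζ k ζ' hζ' => ?_, fun q hq ζ hζ k ζ' hζ' ζ'' hζ'' => ?_⟩
    · obtain ⟨-, h2, h3⟩ := hE q ζ (hlen q hq) hζ
      exact ⟨E_mem_Rs hq hζ, h2, h3⟩
    · obtain ⟨h2, h3, h4⟩ := hJ q ζ (ν k) (hlen q hq) hζ (hνκ k)
      refine ⟨J_mem_Rs hq hζ k, h2, ?_, ?_, trivial, h3.le, h4⟩
      · rw [h3]
        exact (lt_add_one _).trans_le (le_max_left _ _)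
      · rw [h3]
        exact (lt_add_one _).trans_le (le_max_right _ _)
    · refine max_lt ?_ ?_
      · rw [← Order.succ_eq_add_one]
        exact hlim.succ_lt (hlen q hq)
      · rw [← Order.succ_eq_add_one]
        exact hlim.succ_lt hζ
    · exact (le_tp q ζ (ν k) (hζ'.trans hξ) (hζ'.trans hξ)).1
    · exact (le_tp q ζ (ν k) (hζ'.trans hξ) (hζ''.trans hξ)).2
  obtain ⟨P, hP, hPg⟩ := run_pat S hOps hξ hlim hγ2 hγ1 hx1 hx2 hν1 hν2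
    (self_mem_Rs (p₀ := p) (E := E) (J := J) (δ := ξ) (ν := ν))
  obtain ⟨q, hq1, hq2, -⟩ := lower_bound S P hP.le hξ (fun n => hlen _ (hP.mem n))
    (fun ζ hζ => by
      obtain ⟨n, hn⟩ := hx2 ζ hζ
      exact ⟨n + 1, hn.trans (hP.len n)⟩)
    (by rw [hT]; exact hγ3) (fun n => (hRs _ (hP.mem n)).1)
    (fun ζ hζ => by
      obtain ⟨n, hn⟩ := hν2 ζ hζ
      exact ⟨n + 1, hn.trans (hP.top n)⟩) hγ2 hPg
  exact ⟨q, by rw [← hP.zero]; exact hq1 0, hq2⟩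

/-- Conditions can be extended to every countable length. -/
theorem dens (S : Steer T.Gd T.P1 T.P0) {κ : Cardinal.{u}} (hκ : κ.IsRegular)
    (h1 : ℵ_ 1 < κ) (hT : T.κ = κ.ord) (hG : StatIn {γ | γ.cof = ℵ₀ ∧ T.Gd γ} κ.ord)
    (ξ : Ordinal.{u}) (hξ : ξ < ω_ 1) (p : Cnd T) (hp : p.len < ξ) : ∃ q ≤ p, q.len = ξ := by
  have hlim : Order.IsSuccLimit T.κ := by
    rw [hT]
    exact Cardinal.isSuccLimit_ord hκ.aleph0_le
  have hκ0 : 0 < T.κ := hlim.bot_lt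
  induction ξ using WellFoundedLT.induction generalizing p with
  | _ ξ ih =>
    rcases Ordinal.zero_or_succ_or_isSuccLimit ξ with h0 | ⟨ζ, h⟩ | h
    · subst h0
      exact absurd hp not_lt_zero
    · have h : ξ = ζ + 1 := by
        rw [← Order.succ_eq_add_one]
        exact h.symm
      subst h
      have hζ : ζ < ζ + 1 := lt_add_one ζ
      rcases (Order.lt_add_one_iff.1 hp).eq_or_lt with h2 | h2
      · obtain ⟨q, hq, hl, -⟩ := step S hlim p 0 hκ0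
        rw [h2] at hl
        exact ⟨q, hq, hl⟩
      · obtain ⟨r, hr, hrl⟩ := ih ζ hζ (hζ.trans hξ) p h2
        obtain ⟨q, hq, hl, -⟩ := step S hlim r 0 hκ0
        rw [hrl] at hl
        exact ⟨q, hq.trans hr, hl⟩
    · exact dens_limit S hκ h1 hT hG hξ h
        (fun ζ hζ p hp => ih ζ hζ (hζ.trans hξ) p hp) p hp

/-- The forcing notion preserves stationary subsets of `ω₁`. -/
theorem preserves (S : Steer T.Gd T.P1 T.P0) {κ : Cardinal.{u}} (hκ : κ.IsRegular)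
    (h1 : ℵ_ 1 < κ) (hT : T.κ = κ.ord) (hG : StatIn {γ | γ.cof = ℵ₀ ∧ T.Gd γ} κ.ord) :
    PreservesStat.{u} (Cnd T) := by
  classical
  intro Es hEs p N hN
  have hom : ℵ₀ < (ω_ 1 : Ordinal.{u}).cof := aleph0_lt_cof_omega1
  have hlim : Order.IsSuccLimit (ω_ 1 : Ordinal.{u}) :=
    Ordinal.one_lt_cof_iff.1 (one_lt_aleph0.trans hom)
  have hκlim : Order.IsSuccLimit T.κ := by
    rw [hT]
    exact Cardinal.isSuccLimit_ord hκ.aleph0_le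
  have hdens := dens S hκ h1 hT hG
  -- one step
  have hraw : ∀ q : Cnd T, q ≤ p → ∀ ξ < ω_ 1, ∀ β < κ.ord,
      ∃ r ≤ q, q.len < r.len ∧ ξ < r.len ∧ (∃ a, ξ < a ∧ a < ω_ 1 ∧ N r a) ∧
        ∀ ζ, q.len < ζ → ζ ≤ r.len → β < r.fn ζ := by
    intro q hq ξ hξ β hβ
    obtain ⟨q1, h2, h3, h4⟩ := step S hκlim q β (by rw [hT]; exact hβ)
    obtain ⟨q2, h5, h6⟩ : ∃ q2 ≤ q1, ξ < q2.len := by
      have h7 : max (Order.succ q1.len) (Order.succ ξ) < ω_ 1 :=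
        max_lt (hlim.succ_lt q1.isCnd.lt) (hlim.succ_lt hξ)
      obtain ⟨q2, h8, h9⟩ := hdens _ h7 q1 (lt_max_of_lt_left (Order.lt_succ _))
      refine ⟨q2, h8, ?_⟩
      rw [h9]
      exact lt_max_of_lt_right (Order.lt_succ _)
    obtain ⟨r, hr, α, hα, hξα, hNα⟩ := hN.unbounded q2 ((h5.trans h2).trans hq) ξ hξ
    refine ⟨r, hr.trans (h5.trans h2), ?_, h6.trans_le hr.1, ⟨α, hξα, hα, hNα⟩,
      fun ζ h9 h10 => ?_⟩
    · have h7 : q1.len ≤ r.len := h5.1.trans hr.1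
      rw [h3] at h7
      exact (lt_add_one _).trans_le h7
    · have h11 : q1.len ≤ ζ := by
        rw [h3]
        exact Order.add_one_le_of_lt h9
      have h12 : β < r.fn q1.len := by
        rw [(hr.trans h5).2 _ le_rfl]
        exact h4
      rcases h11.eq_or_lt with h13 | h13
      · rw [← h13]
        exact h12
      · exact h12.trans (r.isCnd.mono _ h10 _ h13)
  -- uniform bounds for the lengths
  have hbd : ∀ (q : Cnd T) (ξ : Ordinal.{u}), ∃ b < ω_ 1, q ≤ p → ξ < ω_ 1 → ∀ β < κ.ord,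
      ∃ r ≤ q, q.len < r.len ∧ ξ < r.len ∧ (∃ a, ξ < a ∧ a < ω_ 1 ∧ N r a) ∧ r.len ≤ b ∧
        ∀ ζ, q.len < ζ → ζ ≤ r.len → β < r.fn ζ := by
    intro q ξ
    by_contra hcon
    push Not at hcon
    have h2 : ∀ b : (ω_ 1 : Ordinal.{u}).ToType, ∃ β < κ.ord, ∀ r ≤ q, q.len < r.len →
        ξ < r.len → (∃ a, ξ < a ∧ a < ω_ 1 ∧ N r a) →
        r.len ≤ (Ordinal.ToType.mk.symm b).1 →
        ∃ ζ, q.len < ζ ∧ ζ ≤ r.len ∧ r.fn ζ ≤ β := by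
      intro b
      obtain ⟨-, -, β, hβ, h3⟩ := hcon (Ordinal.ToType.mk.symm b).1 (Ordinal.ToType.mk.symm b).2
      exact ⟨β, hβ, h3⟩
    obtain ⟨hq, hξ, -⟩ := hcon 0 (Ordinal.omega_pos 1)
    choose β hβ1 hβ2 using h2
    have h3 : (⨆ b, β b) < κ.ord := by
      refine Ordinal.iSup_lt_of_lt_cof ?_ hβ1
      rw [hκ.cof_ord, Cardinal.mk_toType, Ordinal.card_omega]
      exact h1
    obtain ⟨r, h4, h5, h6, h7, h8⟩ := hraw q hq ξ hξ _ h3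
    obtain ⟨ζ, h9, h10, h11⟩ := hβ2 (Ordinal.ToType.mk ⟨r.len, r.isCnd.lt⟩) r h4 h5 h6 h7
      (by simp)
    exact absurd (h8 ζ h9 h10) (not_lt.2 (h11.trans (Ordinal.le_iSup β _)))
  choose Bd hBd1 hBd2 using hbd
  have hJ : ∀ (q : Cnd T) (ξ β : Ordinal.{u}), ∃ r : Cnd T, q ≤ p → ξ < ω_ 1 → β < κ.ord →
      r ≤ q ∧ q.len < r.len ∧ ξ < r.len ∧ (∃ a, ξ < a ∧ a < ω_ 1 ∧ N r a) ∧ r.len ≤ Bd q ξ ∧
        ∀ ζ, q.len < ζ → ζ ≤ r.len → β < r.fn ζ := by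
    intro q ξ β
    by_cases h : q ≤ p ∧ ξ < ω_ 1 ∧ β < κ.ord
    · obtain ⟨r, hr⟩ := hBd2 q ξ h.1 h.2.1 β h.2.2
      exact ⟨r, fun _ _ _ => hr⟩
    · exact ⟨q, fun h2 h3 h4 => absurd ⟨h2, h3, h4⟩ h⟩
  choose J hJ using hJ
  have hE : ∀ (q : Cnd T) (ζ : Ordinal.{u}), ∃ r : Cnd T, ζ < ω_ 1 → r ≤ q ∧ ζ ≤ r.len := by
    intro q ζ
    by_cases h : q.len < ζ ∧ ζ < ω_ 1
    · obtain ⟨r, hr, hr2⟩ := hdens ζ h.2 q h.1
      exact ⟨r, fun _ => ⟨hr, hr2.ge⟩⟩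
    · exact ⟨q, fun h2 => ⟨le_rfl, by
        by_contra h3
        exact h ⟨not_le.1 h3, h2⟩⟩⟩
  choose E hE using hE
  have hav : ∀ (q : Cnd T) (ξ β : Ordinal.{u}), ∃ a < ω_ 1, q ≤ p → ξ < ω_ 1 → β < κ.ord →
      ξ < a ∧ N (J q ξ β) a := by
    intro q ξ β
    by_cases h : q ≤ p ∧ ξ < ω_ 1 ∧ β < κ.ord
    · obtain ⟨-, -, -, ⟨a, h2, h3, h4⟩, -⟩ := hJ q ξ β h.1 h.2.1 h.2.2
      exact ⟨a, h3, fun _ _ _ => ⟨h2, h4⟩⟩
    · exact ⟨0, Ordinal.omega_pos 1, fun h2 h3 h4 => absurd ⟨h2, h3, h4⟩ h⟩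
  choose a ha1 ha2 using hav
  obtain ⟨γ, hγ1, hγ2, hγ3, hγ4⟩ := clo_top (p₀ := p) (E := E) (J := J) hκ h1 hT hG
    (Tp := tp E J) (fun q ξ β _ _ => tp_lt hκ h1 hT q ξ β)
  obtain ⟨ν, hν1, hν2⟩ := seq_of_cof hγ1
  obtain ⟨δ, hδE, hδ, hδlim, hδ2⟩ := clo_len (p₀ := p) (E := E) (J := J) (ν := ν) (Bd := Bd)
    (fun q ξ _ => hBd1 q ξ) (a := a) ha1 hEs
  obtain ⟨x, hx1, hx2⟩ := seq_of_cof (cof_of_lim hδ hδlim)
  have hνκ : ∀ k, ν k < κ.ord := fun k => (hν1 k).trans hγ3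
  have hle : ∀ q ∈ Rs p E J δ ν, q ≤ p := by
    rintro q ⟨l, hl, rfl⟩
    induction l with
    | nil => exact le_rfl
    | cons y t ih' =>
      have h2 := ih' fun z hz => hl z (List.mem_cons_of_mem _ hz)
      obtain ⟨h3, k, h4⟩ := hl y List.mem_cons_self
      by_cases hy : y.1.1 = true
      · have h5 : rn p E J (y :: t) = E (rn p E J t) y.1.2 := by simp [rn, hy]
        rw [h5]
        exact (hE _ _ (h3.trans hδ)).1.trans h2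
      · have h5 : rn p E J (y :: t) = J (rn p E J t) y.1.2 y.2 := by simp [rn, hy]
        rw [h5]
        exact (hJ _ _ _ h2 (h3.trans hδ) (by rw [h4]; exact hνκ k)).1.trans h2
  have hRs : ∀ q ∈ Rs p E J δ ν, q.top < γ ∧ ∀ ξ' < ω_ 1, ∀ β < γ, tp E J q ξ' β < γ := by
    rintro q ⟨l, hl, rfl⟩
    refine hγ4 l fun y hy => ⟨(hl y hy).1.trans hδ, ?_⟩
    obtain ⟨k, hk⟩ := (hl y hy).2
    rw [hk]
    exact hν1 k
  have hRl : ∀ q ∈ Rs p E J δ ν, q.len < δ ∧ ∀ ξ < δ, Bd q ξ < δ ∧ ∀ k, a q ξ (ν k) < δ := by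
    rintro q ⟨l, hl, rfl⟩
    exact hδ2 l hl
  have hOps : Ops (Rs p E J δ ν) δ γ ν (fun r ξ => ∃ α < δ, ξ < α ∧ N r α) E J Bd (tp E J) := by
    refine ⟨fun q hq => (hRl q hq).1, fun q hq => (hRs q hq).1, fun q hq ζ hζ => ?_,
      fun q hq ζ hζ k => ?_, fun q hq ζ hζ => ((hRl q hq).2 ζ hζ).1,
      fun q hq ζ hζ k => (hRs q hq).2 ζ (hζ.trans hδ) _ (hν1 k),
      fun q hq ζ hζ k ζ' hζ' => ?_, fun q hq ζ hζ k ζ' hζ' ζ'' hζ'' => ?_⟩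
    · exact ⟨E_mem_Rs hq hζ, hE q ζ (hζ.trans hδ)⟩
    · obtain ⟨h2, h3, h4, -, h5, h6⟩ := hJ q ζ (ν k) (hle q hq) (hζ.trans hδ) (hνκ k)
      obtain ⟨h7, h8⟩ := ha2 q ζ (ν k) (hle q hq) (hζ.trans hδ) (hνκ k)
      exact ⟨J_mem_Rs hq hζ k, h2, h3, h4, ⟨_, ((hRl q hq).2 ζ hζ).2 k, h7, h8⟩, h5, h6⟩
    · exact (le_tp q ζ (ν k) (hζ'.trans hδ) (hζ'.trans hδ)).1
    · exact (le_tp q ζ (ν k) (hζ'.trans hδ) (hζ''.trans hδ)).2
  obtain ⟨P, hP, hPg⟩ := run_pat S hOps hδ hδlim hγ2 hγ1 hx1 hx2 hν1 hν2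
    (self_mem_Rs (p₀ := p) (E := E) (J := J) (δ := δ) (ν := ν))
  obtain ⟨q, hq1, hq2, -⟩ := lower_bound S P hP.le hδ (fun n => (hRl _ (hP.mem n)).1)
    (fun ζ hζ => by
      obtain ⟨n, hn⟩ := hx2 ζ hζ
      exact ⟨n + 1, hn.trans (hP.len n)⟩)
    (by rw [hT]; exact hγ3) (fun n => (hRs _ (hP.mem n)).1)
    (fun ζ hζ => by
      obtain ⟨n, hn⟩ := hν2 ζ hζ
      exact ⟨n + 1, hn.trans (hP.top n)⟩) hγ2 hPg
  have hqp : q ≤ p := by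
    rw [← hP.zero]
    exact hq1 0
  obtain ⟨s, hs, hNs⟩ := hN.closed q hqp δ hδ hδlim.bot_lt (by
    intro α hα r hr
    obtain ⟨n, hn⟩ := hx2 α hα
    obtain ⟨α', h2, h3, h4⟩ := hP.w n
    exact ⟨r, le_rfl, α', h2, hn.trans h3, hN.mono r (P (n + 1)) _ (hr.trans (hq1 (n + 1))) h4⟩)
    q le_rfl
  exact ⟨s, hs.trans hqp, δ, hδE, hδ, hNs⟩

end Cnd

/-- **The coding theorem.** -/
theorem steer (h : MM.{u}) {κ : Cardinal.{u}} (hκ : κ.IsRegular) (h1 : ℵ_ 1 < κ)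
    {Gd : Ordinal.{u} → Prop} {P1 P0 : Ordinal.{u} → Ordinal.{u} →
      (Ordinal.{u} → Ordinal.{u}) → Prop} (S : Steer Gd P1 P0)
    (hG : StatIn {γ | γ.cof = ℵ₀ ∧ Gd γ} κ.ord) (A : Set Ordinal.{u}) :
    ∃ η < κ.ord, ∃ f : Ordinal.{u} → Ordinal.{u}, Nrm (ω_ 1) η f ∧
      ∀ ξ < ω_ 1, Order.IsSuccLimit ξ →
        Gd (f ξ) ∧ (ξ ∈ A → P1 ξ (f ξ) f) ∧ (ξ ∉ A → P0 ξ (f ξ) f) := by
  let T : Par.{u} := ⟨κ.ord, Gd, P1, P0, A⟩
  have hκ0 : 0 < T.κ := by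
    change 0 < κ.ord
    rw [Cardinal.ord_pos]
    exact hκ.pos
  have S' : Steer T.Gd T.P1 T.P0 := S
  have : Nonempty (Cnd T) := Cnd.nonempty hκ0
  obtain ⟨G, hG'⟩ := Pool.Agent.Helper56.MW.MM.small h (Cnd T)
    (Cnd.preserves S' hκ h1 rfl hG)
    (fun i => {p : Cnd T | i ≤ p.len}) (by
      intro i hi p
      rcases lt_or_ge p.len i with hp | hp
      · obtain ⟨q, hq, hq'⟩ := Cnd.dens S' hκ h1 rfl hG i hi p hp
        exact ⟨q, hq, hq'.ge⟩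
      · exact ⟨p, le_rfl, hp⟩)
  obtain ⟨η, h2, h3, h4⟩ := Cnd.union_nrm S' rfl hκ h1 hG'
  exact ⟨η, h2, Cnd.union G, h3, h4⟩

end Pool.Agent.Helper62.GL
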