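import Pool.Agent.Helper62.GL.Sd
import Pool.Agent.Helper97.FP.Ix

/-!
# Auxiliary notions
-/

open FirstOrder FirstOrder.Language Ordinal Cardinal Set Helper23.Pcf

universe u v

namespace Pool.Agent.Helper62.GL

open Pool.Agent.Helper56.MW (LSet DefBy val Nrm)
open Pool.Agent.Helper97.FP (Wo)

/-- `c` codes a strictly increasing cofinal map from `o` to `γ`. -/
def Cs (o γ : Ordinal.{u}) (c : ZFSet.{u}) : Prop :=
  (∀ n < o, val c n < γ) ∧ (∀ n < o, ∀ m < n, val c m < val c n) ∧ ∀ β < γ, ∃ n < o, β < val c n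

/-- A nonempty set of such codes. -/
def Sq (o γ : Ordinal.{u}) (X : ZFSet.{u}) : Prop := (∃ c, c ∈ X) ∧ ∀ c ∈ X, Cs o γ c

/-- Bounded from above. -/
def Ab (o γ : Ordinal.{u}) (X : ZFSet.{u}) : Prop :=
  ∃ t : ZFSet.{u}, (∀ n < o, val t n < γ) ∧
    ∀ c ∈ X, ∃ m < o, ∀ n < o, m ≤ n → val c n ≤ val t n

/-- Bounded from below. -/
def Be (o γ : Ordinal.{u}) (X : ZFSet.{u}) : Prop :=
  ∃ t : ZFSet.{u}, Cs o γ t ∧ ∀ c ∈ X, ∃ m < o, ∀ n < o, m ≤ n → val t n ≤ val c n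

/-- Comparison of the numbers of points of `d` below `α` and of `c` below `β`. -/
def Cm (o : Ordinal.{u}) (d c : ZFSet.{u}) (α β : Ordinal.{u}) : Prop :=
  ∃ n < o, α ≤ val d n ∧ val c n < β

/-- The comparison holds along the pair `(f₁, f)` on a final segment of `ν`. -/
def Tl (o : Ordinal.{u}) (d c : ZFSet.{u}) (f₁ f : Ordinal.{u} → Ordinal.{u})
    (ν : Ordinal.{u}) : Prop :=
  ∃ ν₀ < ν, ∀ ξ, ν₀ < ξ → ξ < ν → Cm o d c (f₁ ξ) (f ξ)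

/-- The comparison fails along the pair `(f₁, f)` on a final segment of `ν`. -/
def Tn (o : Ordinal.{u}) (d c : ZFSet.{u}) (f₁ f : Ordinal.{u} → Ordinal.{u})
    (ν : Ordinal.{u}) : Prop :=
  ∃ ν₀ < ν, ∀ ξ, ν₀ < ξ → ξ < ν → ¬ Cm o d c (f₁ ξ) (f ξ)

section

variable (o : Ordinal.{u}) (D : Ordinal.{u} → ZFSet.{u} → Prop)
  (f₁ f : Ordinal.{u} → Ordinal.{u}) (ν : Ordinal.{u})

/-- The first alternative for families bounded from above. -/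
def P1a : Prop := ∃ X Y, D (f₁ ν) X ∧ D (f ν) Y ∧ ∃ d ∈ X, ∀ c ∈ Y, Tl o d c f₁ f ν

/-- The second alternative for families bounded from above. -/
def P0a : Prop := ∃ X Y, D (f₁ ν) X ∧ D (f ν) Y ∧ ∀ d ∈ X, ∃ c ∈ Y, Tn o d c f₁ f ν

/-- The first alternative for families bounded from below. -/
def P1b : Prop := ∃ X Y, D (f₁ ν) X ∧ D (f ν) Y ∧ ∀ d ∈ X, ∃ c ∈ Y, Tl o d c f₁ f ν

/-- The second alternative for families bounded from below. -/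
def P0b : Prop := ∃ X Y, D (f₁ ν) X ∧ D (f ν) Y ∧ ∃ d ∈ X, ∀ c ∈ Y, Tn o d c f₁ f ν

end

/-- `x` is coded by `η` (relative to `ρ`), families bounded from above. -/
def Ra (w o ρ : Ordinal.{u}) (D : Ordinal.{u} → ZFSet.{u} → Prop) (η : Ordinal.{u})
    (x : ZFSet.{u}) : Prop :=
  ∃ f₁ f : Ordinal.{u} → Ordinal.{u}, Nrm w ρ f₁ ∧ Nrm w η f ∧
    ∀ ν < w, Order.IsSuccLimit ν →
      (ν.toZFSet ∈ x → P1a o D f₁ f ν) ∧ (ν.toZFSet ∉ x → P0a o D f₁ f ν)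

/-- `x` is coded by `η` (relative to `ρ`), families bounded from below. -/
def Rb (w o ρ : Ordinal.{u}) (D : Ordinal.{u} → ZFSet.{u} → Prop) (η : Ordinal.{u})
    (x : ZFSet.{u}) : Prop :=
  ∃ f₁ f : Ordinal.{u} → Ordinal.{u}, Nrm w ρ f₁ ∧ Nrm w η f ∧
    ∀ ν < w, Order.IsSuccLimit ν →
      (ν.toZFSet ∈ x → P1b o D f₁ f ν) ∧ (ν.toZFSet ∉ x → P0b o D f₁ f ν)

/-- `Z` is the least set defined by `φ` with the property `H`. -/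
def Ls {n : ℕ} (φ : LSet.Formula (Fin n ⊕ Fin 2)) (H : ZFSet.{u} → Prop) (Z : ZFSet.{u}) : Prop :=
  (H Z ∧ ∃ b, DefBy φ b Z) ∧ ∀ Z', (H Z' ∧ ∃ b, DefBy φ b Z') → ¬ Wo φ Z' Z

/-- The least nonempty set of cofinal maps which is bounded from above. -/
def Da {n : ℕ} (φ : LSet.Formula (Fin n ⊕ Fin 2)) (o γ : Ordinal.{u}) (Z : ZFSet.{u}) : Prop :=
  Ls φ (fun X => Sq o γ X ∧ Ab o γ X) Z

/-- The least nonempty set of cofinal maps which is bounded from below. -/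
def Db {n : ℕ} (φ : LSet.Formula (Fin n ⊕ Fin 2)) (o γ : Ordinal.{u}) (Z : ZFSet.{u}) : Prop :=
  Ls φ (fun X => Sq o γ X ∧ Be o γ X) Z

/-- A pair of properties of maps `ν → γ` the first of which is satisfied by all sufficiently fast
maps, the second by all sufficiently slow ones. -/
structure Steer (Gd : Ordinal.{u} → Prop) (P1 P0 : Ordinal.{u} → Ordinal.{u} →
    (Ordinal.{u} → Ordinal.{u}) → Prop) : Prop where
  fast : ∀ ν < ω_ 1, Order.IsSuccLimit ν → ∀ γ, Gd γ → γ.cof = ℵ₀ →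
    ∃ g w : Ordinal.{u} → ℕ, (∀ ξ ξ', ξ ≤ ξ' → ξ' < ν → g ξ ≤ g ξ') ∧
      (∀ β β', β ≤ β' → β' < γ → w β ≤ w β') ∧ (∀ k, ∃ β < γ, k < w β) ∧
      ∀ q : Ordinal.{u} → Ordinal.{u}, (∀ ξ < ν, q ξ < γ) → q ν = γ →
        (∃ ν₀ < ν, ∀ ξ, ν₀ < ξ → ξ < ν → g ξ < w (q ξ)) → P1 ν γ q
  slow : ∀ ν < ω_ 1, Order.IsSuccLimit ν → ∀ γ, Gd γ → γ.cof = ℵ₀ →
    ∃ v h : Ordinal.{u} → ℕ, (∀ ξ ξ', ξ ≤ ξ' → ξ' < ν → v ξ ≤ v ξ') ∧
      (∀ β β', β ≤ β' → β' < γ → h β ≤ h β') ∧ (∀ k, ∃ ξ < ν, k ≤ v ξ) ∧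
      ∀ q : Ordinal.{u} → Ordinal.{u}, (∀ ξ < ν, q ξ < γ) → q ν = γ →
        (∃ ν₀ < ν, ∀ ξ, ν₀ < ξ → ξ < ν → h (q ξ) ≤ v ξ) → P0 ν γ q
  loc1 : ∀ ν γ q q', (∀ ξ ≤ ν, q ξ = q' ξ) → P1 ν γ q → P1 ν γ q'
  loc0 : ∀ ν γ q q', (∀ ξ ≤ ν, q ξ = q' ξ) → P0 ν γ q → P0 ν γ q'

end Pool.Agent.Helper62.GL
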