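import Pool.Agent.Helper62.GL.Sr
import Pool.Agent.Helper56.GL.P1

/-!
# End extensions of countable sets
-/

open FirstOrder FirstOrder.Language Ordinal Cardinal Set Helper23.Pcf

universe u v

namespace Pool.Agent.Helper62.GL

open Pool.Agent.Helper56.MW (MM aleph0_lt_cof_omega1)
open Pool.Agent.Helper56.GL (srp exists_gdT)

open Classical in
theorem exists_lam : ∃ Λ : Type u, Nonempty (Lam.{u} Λ) := by
  let O := (ω_ 2 : Ordinal.{u}).ToType
  have h0 : ℵ₀ ≤ #O := by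
    rw [Cardinal.mk_toType, Ordinal.card_omega]
    exact Cardinal.aleph0_le_aleph 2
  have h1 : #(O × O) = #O := by
    rw [Cardinal.mk_prod, Cardinal.lift_id, Cardinal.mul_eq_self h0]
  obtain ⟨pr⟩ := Cardinal.eq.1 h1
  let mk : Ordinal.{u} → O := fun x =>
    if h : x < ω_ 2 then ToType.mk ⟨x, h⟩ else ToType.mk ⟨0, Ordinal.omega_pos 2⟩
  let un : O → Ordinal.{u} := fun o => (ToType.mk.symm o).1
  have hun : ∀ x < ω_ 2, un (mk x) = x := by
    intro x hx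
    have h2 : mk x = ToType.mk ⟨x, hx⟩ := dif_pos hx
    show (ToType.mk.symm (mk x)).1 = x
    rw [h2, OrderIso.symm_apply_apply]
  refine ⟨Set O, ⟨⟨fun x => {mk x}, fun y x => {z | pr (mk x, z) ∈ y},
    fun f => {w | (pr.symm w).2 ∈ f (un (pr.symm w).1)}, fun ξ hξ ζ hζ h => ?_,
    fun f x hx => ?_⟩⟩⟩
  · have h2 : mk ξ = mk ζ := Set.singleton_injective h
    rw [← hun ξ hξ, ← hun ζ hζ, h2]
  · ext z
    show (pr.symm (pr (mk x, z))).2 ∈ f (un (pr.symm (pr (mk x, z))).1) ↔ z ∈ f x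
    rw [Equiv.symm_apply_apply, hun x hx]

theorem lt12 : (ω_ 1 : Ordinal.{u}) < ω_ 2 := Ordinal.omega_lt_omega.2 (by norm_num)

theorem cof_omega2 : (ω_ 2 : Ordinal.{u}).cof = ℵ_ 2 := by
  have h := Cardinal.isRegular_aleph_add_one (1 : Ordinal.{u})
  rw [one_add_one_eq_two] at h
  rw [← Cardinal.ord_aleph]
  exact h.cof_ord

/-- A bound for a family of `ℵ₁` ordinals below `ω₂`. -/
theorem exists_bound (f : Ordinal.{u} → Ordinal.{u}) (hf : ∀ ξ < ω_ 1, f ξ < ω_ 2) :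
    ∃ β < ω_ 2, ∀ ξ < ω_ 1, f ξ < β := by
  have hlim : Order.IsSuccLimit (ω_ 2 : Ordinal.{u}) :=
    Ordinal.one_lt_cof_iff.1 (by
      rw [cof_omega2]
      exact Cardinal.one_lt_aleph0.trans_le (Cardinal.aleph0_le_aleph 2))
  let I := (ω_ 1 : Ordinal.{u}).ToType
  have hI : #I < (ω_ 2 : Ordinal.{u}).cof := by
    rw [Cardinal.mk_toType, Ordinal.card_omega, cof_omega2]
    exact Cardinal.aleph_lt_aleph.2 (by norm_num)
  have h1 : (⨆ i : I, f (ToType.mk.symm i).1) < ω_ 2 :=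
    Ordinal.iSup_lt_of_lt_cof hI fun i => hf _ (ToType.mk.symm i).2
  refine ⟨Order.succ (⨆ i : I, f (ToType.mk.symm i).1), hlim.succ_lt h1, fun ξ hξ => ?_⟩
  refine Order.lt_succ_of_le ?_
  have h2 := Ordinal.le_iSup (fun i : I => f (ToType.mk.symm i).1) (ToType.mk ⟨ξ, hξ⟩)
  simpa only [OrderIso.symm_apply_apply] using h2

namespace Lam

variable {Λ : Type u} (L : Lam.{u} Λ)

/-- Every countable ordinal coded by the value at `β` of an element of `N` belongs to `N`. -/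
def Good (N : Set Λ) (β : Ordinal.{u}) : Prop :=
  ∀ y ∈ N, ∀ ξ < ω_ 1, L.dec y β = L.ι ξ → L.ι ξ ∈ N

/-- `N` has an end extension. -/
def Ext (N : Set Λ) : Prop :=
  ∃ β < ω_ 2, (∀ γ < ω_ 2, L.ι γ ∈ N → γ < β) ∧ L.Good N β

open Classical in
/-- The ordinal coded by `y`. -/
noncomputable def ord (y : Λ) : Ordinal.{u} :=
  if h : ∃ ν < ω_ 2, L.ι ν = y then Classical.choose h else 0

theorem ord_ι {ν : Ordinal.{u}} (hν : ν < ω_ 2) : L.ord (L.ι ν) = ν := by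
  have h : ∃ ν' < ω_ 2, L.ι ν' = L.ι ν := ⟨ν, hν, rfl⟩
  have h1 : L.ord (L.ι ν) = Classical.choose h := dif_pos h
  rw [h1]
  exact L.inj _ (Classical.choose_spec h).1 _ hν (Classical.choose_spec h).2

/-- The set of countable ordinals coded by `y`. -/
def un (y : Λ) : Set Ordinal.{u} := {x | x < ω_ 1 ∧ L.dec y x = L.ι 0}

open Classical in
/-- The code of a set of countable ordinals. -/
noncomputable def chi (S : Set Ordinal.{u}) : Λ :=
  L.cod (fun x => if x ∈ S then L.ι 0 else L.ι 1)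

theorem mem_un_chi {S : Set Ordinal.{u}} {x : Ordinal.{u}} :
    x ∈ L.un (L.chi S) ↔ x < ω_ 1 ∧ x ∈ S := by
  refine and_congr_right fun hx => ?_
  rw [chi, L.dec_cod _ x (hx.trans lt12)]
  by_cases h : x ∈ S
  · simp [h]
  · rw [if_neg h]
    refine iff_of_false (fun h1 => ?_) h
    have h2 : (1 : Ordinal.{u}) < ω_ 2 := Ordinal.one_lt_omega0.trans_le (Ordinal.omega0_le_omega 2)
    exact one_ne_zero (L.inj 1 h2 0 (Ordinal.omega_pos 2) h1)

/-- All sufficiently closed countable sets have end extensions. -/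
theorem exists_ext (h : MM.{u}) : ∃ K : List Λ → Set Λ, (∀ s, (K s).Countable) ∧
    ∀ N : Set Λ, N.Countable → ClsT K N →
      (∃ δ < ω_ 1, ∀ ξ < ω_ 1, (L.ι ξ ∈ N ↔ ξ < δ)) → L.Ext N := by
  classical
  by_contra hcon
  push Not at hcon
  have hinj : ∀ ξ < ω_ 1, ∀ ζ < ω_ 1, L.ι ξ = L.ι ζ → ξ = ζ :=
    fun ξ hξ ζ hζ => L.inj ξ (hξ.trans lt12) ζ (hζ.trans lt12)
  let Nul : Set Ordinal.{u} → Prop := fun S => ∃ K : List Λ → Set Λ, (∀ s, (K s).Countable) ∧
    ∀ δ N, GdT L.ι K S δ N → L.Ext N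
  let KS : Set Ordinal.{u} → List Λ → Set Λ := fun S =>
    if h : Nul S then Classical.choose h else fun _ => ∅
  have hKS1 : ∀ S s, (KS S s).Countable := by
    intro S s
    by_cases h1 : Nul S
    · have h2 : KS S = Classical.choose h1 := dif_pos h1
      rw [h2]
      exact (Classical.choose_spec h1).1 s
    · have h2 : KS S = fun _ => ∅ := dif_neg h1
      rw [h2]
      exact Set.countable_empty
  have hKS2 : ∀ S, Nul S → ∀ δ N, GdT L.ι (KS S) S δ N → L.Ext N := by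
    intro S h1
    have h2 : KS S = Classical.choose h1 := dif_pos h1
    rw [h2]
    exact (Classical.choose_spec h1).2
  let X : Set Λ → Prop := fun N => ¬ L.Ext N ∨ ∃ y ∈ N, Nul (L.un y) ∧
    ∃ δ ∈ L.un y, ∀ ξ < ω_ 1, (L.ι ξ ∈ N ↔ ξ < δ)
  have hX : PStatT L.ι X := by
    intro K hK E hE
    by_cases hN : Nul E
    · obtain ⟨δ, N, hG⟩ := exists_gdT L.ι hinj (fun s => K s ∪ {L.chi E})
        (fun s => (hK s).union (Set.countable_singleton _)) hE
      refine ⟨δ, N, ⟨hG.cnt, fun s hs => Set.subset_union_left.trans (hG.cls s hs), hG.mem, hG.lt,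
        hG.tr⟩, Or.inr ⟨L.chi E, ?_, ?_, δ, L.mem_un_chi.2 ⟨hG.lt, hG.mem⟩, hG.tr⟩⟩
      · exact hG.cls [] (fun y hy => absurd hy (by simp)) (Or.inr rfl)
      · obtain ⟨K', hK', h1⟩ := hN
        exact ⟨K', hK', fun δ' N' hG' => h1 δ' N' ⟨hG'.cnt, hG'.cls,
          (L.mem_un_chi.1 hG'.mem).2, hG'.lt, hG'.tr⟩⟩
    · by_contra h1
      refine hN ⟨K, hK, fun δ N hG => ?_⟩
      by_contra h2
      exact h1 ⟨δ, N, hG, Or.inl h2⟩
  obtain ⟨g, hg1, hg2⟩ := srp h L.ι hinj hX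
  choose! z hz1 hz2 using hg2
  obtain ⟨β, hβ, hβ2⟩ := exists_bound (fun ξ => L.ord (g ξ)) (fun ξ _ => by
    show L.ord (g ξ) < ω_ 2
    by_cases h1 : ∃ ν < ω_ 2, L.ι ν = g ξ
    · obtain ⟨ν, hν, h2⟩ := h1
      rw [← h2, L.ord_ι hν]
      exact hν
    · have h2 : L.ord (g ξ) = 0 := dif_neg h1
      rw [h2]
      exact Ordinal.omega_pos 2)
  let fin : List Λ → Set Λ := fun s => {y | y ∈ s}
  have hfin : ∀ s, (fin s).Countable := fun s => (List.finite_toSet s).countable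
  let K' : List Λ → Set Λ := fun s => match s with
    | [] => ∅
    | y :: t => KS (L.un y) t
  let K : List Λ → Set Λ := fun s => {L.ι β, L.ι 0} ∪ ((fun y => L.ι (L.ord y + 1)) '' fin s ∪
    ((fun y => g (L.ord y)) '' fin s ∪ ((fun y => L.ι (z (L.ord y))) '' fin s ∪
    (Set.image2 (fun y y' => L.dec y (L.ord y')) (fin s) (fin s) ∪ K' s))))
  have hK : ∀ s, (K s).Countable := by
    intro s
    refine (Set.toFinite _).countable.union (((hfin s).image _).union (((hfin s).image _).union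
      (((hfin s).image _).union (((hfin s).image2 (hfin s) _).union ?_))))
    cases s with
    | nil => exact Set.countable_empty
    | cons y t => exact hKS1 _ _
  obtain ⟨N, hNc, hNK, ⟨δ, hδ, htr⟩, hN⟩ := hcon K hK
  have hm : ∀ s : List Λ, (∀ y ∈ s, y ∈ N) → ∀ x ∈ K s, x ∈ N := fun s hs x hx => hNK s hs hx
  have hnil : ∀ y ∈ ([] : List Λ), y ∈ N := fun y hy => absurd hy (by simp)
  have hβN : L.ι β ∈ N := hm [] hnil _ (Or.inl (Or.inl rfl))
  have h0N : L.ι 0 ∈ N := hm [] hnil _ (Or.inl (Or.inr rfl))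
  have hone : ∀ y ∈ N, ∀ y' ∈ ([y] : List Λ), y' ∈ N := by
    intro y hy y' hy'
    rw [List.mem_singleton.1 hy']
    exact hy
  have hsucc : ∀ ν < δ, ν + 1 < δ := by
    intro ν hν
    have hν1 : ν < ω_ 1 := hν.trans hδ
    have hlim : Order.IsSuccLimit (ω_ 1 : Ordinal.{u}) :=
      Ordinal.one_lt_cof_iff.1 (one_lt_aleph0.trans aleph0_lt_cof_omega1)
    refine (htr _ (hlim.add_one_lt hν1)).1 (hm [L.ι ν] (hone _ ((htr ν hν1).2 hν)) _
      (Or.inr (Or.inl ⟨L.ι ν, List.mem_singleton.2 rfl, ?_⟩)))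
    simp only [L.ord_ι (hν1.trans lt12)]
  have hδ0 : 0 < δ := (htr 0 (Ordinal.omega_pos 1)).1 h0N
  have hδl : Order.IsSuccLimit δ := by
    rw [Ordinal.isSuccLimit_iff]
    refine ⟨hδ0.ne', fun a ha => ?_⟩
    exact ha.2 (Order.lt_add_one_iff.2 le_rfl) (hsucc a ha.lt)
  have hgN : g '' Iio δ ⊆ N := by
    rintro _ ⟨ν, hν, rfl⟩
    have hν0 : ν < δ := hν
    have hν1 : ν < ω_ 1 := hν0.trans hδ
    refine hm [L.ι ν] (hone _ ((htr ν hν1).2 hν)) _
      (Or.inr (Or.inr (Or.inl ⟨L.ι ν, List.mem_singleton.2 rfl, ?_⟩)))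
    simp only [L.ord_ι (hν1.trans lt12)]
  have htr' : ∀ ξ < ω_ 1, (L.ι ξ ∈ g '' Iio δ ↔ ξ < δ) := by
    intro ξ hξ
    constructor
    · intro h1
      exact (htr ξ hξ).1 (hgN h1)
    · intro h1
      refine ⟨z ξ, ?_, hz2 ξ hξ⟩
      refine (htr _ (hz1 ξ hξ)).1 (hm [L.ι ξ] (hone _ ((htr ξ hξ).2 h1)) _
        (Or.inr (Or.inr (Or.inr (Or.inl ⟨L.ι ξ, List.mem_singleton.2 rfl, ?_⟩)))))
      simp only [L.ord_ι (hξ.trans lt12)]
  rcases hg1 δ hδ hδl with h1 | ⟨y, hy, hnul, δ', hδ', h1⟩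
  · refine h1 ⟨β, hβ, ?_, ?_⟩
    · rintro γ hγ ⟨ν, hν, h2⟩
      have h3 := hβ2 ν (lt_trans hν hδ)
      simp only [h2, L.ord_ι hγ] at h3
      exact h3
    · intro y hy ξ hξ h2
      have h3 : L.dec y β ∈ N := by
        refine hm [y, L.ι β] ?_ _ (Or.inr (Or.inr (Or.inr (Or.inr (Or.inl
          ⟨y, by simp [fin], L.ι β, by simp [fin], ?_⟩)))))
        · intro y' hy'
          rcases List.mem_cons.1 hy' with h4 | h4
          · rw [h4]
            exact hgN hy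
          · rw [List.mem_singleton.1 h4]
            exact hβN
        · simp only [L.ord_ι hβ]
      rw [h2] at h3
      exact (htr' ξ hξ).2 ((htr ξ hξ).1 h3)
  · have h2 : δ' = δ := by
      have hδ'1 : δ' < ω_ 1 := hδ'.1
      rcases lt_trichotomy δ' δ with h3 | h3 | h3
      · exact absurd ((h1 δ' hδ'1).1 ((htr' δ' hδ'1).2 h3)) (lt_irrefl _)
      · exact h3
      · exact absurd ((htr' δ hδ).1 ((h1 δ hδ).2 h3)) (lt_irrefl _)
    subst h2
    refine hN (hKS2 _ hnul δ' N ⟨hNc, fun s hs => ?_, hδ', hδ, htr⟩)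
    intro x hx
    refine hm (y :: s) ?_ _ (Or.inr (Or.inr (Or.inr (Or.inr (Or.inr hx)))))
    intro y' hy'
    rcases List.mem_cons.1 hy' with h3 | h3
    · rw [h3]
      exact hgN hy
    · exact hs y' h3

end Lam

end Pool.Agent.Helper62.GL
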