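import Pool.Agent.Helper62.GL.P2

/-!
# Countable sets of ordinals with prescribed trace and order type
-/

open FirstOrder FirstOrder.Language Ordinal Cardinal Set Helper23.Pcf

universe u v

namespace Pool.Agent.Helper62.GL

open Pool.Agent.Helper56.MW (MM aleph0_lt_cof_omega1 club_closure)
open Pool.Agent.Helper56.GL (srp exists_gdT)
open Pool.Agent.Helper97.FP (PStat Gd Adm Cls exists_enum iio_countable)

/-! ### Order types -/

/-- `g` enumerates `N` in increasing order, in length `ε`. -/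
def OtG (N : Set Ordinal.{u}) (ε : Ordinal.{u}) (g : Ordinal.{u} → Ordinal.{u}) : Prop :=
  (∀ i < ε, g i ∈ N) ∧ (∀ ν ∈ N, ∃ i < ε, g i = ν) ∧ ∀ i < ε, ∀ j < i, g j < g i

section

variable {N N' : Set Ordinal.{u}} {ε ε' α : Ordinal.{u}} {g g' : Ordinal.{u} → Ordinal.{u}}

theorem exists_otG (hN : ∀ ν ∈ N, ν < α) : ∃ ε g, OtG N ε g := by
  let S : Set Ordinal.{u} := N ∪ Ici α
  have hS : ¬ BddAbove S := by
    rintro ⟨b, hb⟩
    have h1 : Order.succ (max b α) ∈ S := Or.inr ((le_max_right b α).trans (Order.le_succ _))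
    exact absurd (hb h1) (not_le.2 (lt_of_le_of_lt (le_max_left b α) (Order.lt_succ _)))
  have h2 : ∀ x ∈ S, ∃ i, enumOrd S i = x := by
    intro x hx
    rw [← Ordinal.range_enumOrd hS] at hx
    exact hx
  obtain ⟨δ, hδ⟩ := h2 α (Or.inr (mem_Ici.2 le_rfl))
  have hm := Ordinal.enumOrd_strictMono hS
  refine ⟨δ, enumOrd S, fun i hi => ?_, fun ν hν => ?_, fun i _ j hj => hm hj⟩
  · rcases Ordinal.enumOrd_mem hS i with h3 | h3
    · exact h3
    · have h4 := hm hi
      rw [hδ] at h4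
      exact absurd h4 (not_lt.2 h3)
  · obtain ⟨i, hi⟩ := h2 ν (Or.inl hν)
    refine ⟨i, ?_, hi⟩
    by_contra h3
    have h4 := hm.monotone (not_lt.1 h3)
    rw [hδ, hi] at h4
    exact absurd h4 (not_le.2 (hN ν hν))

theorem OtG.le (h : OtG N ε g) {i j : Ordinal.{u}} (hi : i < ε) (hj : j ≤ i) : g j ≤ g i := by
  rcases hj.lt_or_eq with h1 | rfl
  · exact (h.2.2 i hi j h1).le
  · exact le_rfl

theorem OtG.lt_of_lt (h : OtG N ε g) {i j : Ordinal.{u}} (hij : g i < g j) :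
    i < j ∨ ε ≤ i := by
  by_contra h1
  push Not at h1
  exact absurd hij (not_lt.2 (h.le h1.2 h1.1))

/-- Initial segments. -/
theorem OtG.aux (h : OtG N ε g) (h' : OtG N' ε' g') (hs : N ⊆ N')
    (hi : ∀ γ ∈ N, ∀ η ∈ N', η < γ → η ∈ N) : ∀ i < ε, i < ε' ∧ g i = g' i := by
  intro i
  induction i using WellFoundedLT.induction with
  | ind i ih =>
    intro hie
    obtain ⟨j, hj, h2⟩ := h'.2.1 (g i) (hs (h.1 i hie))
    rcases lt_trichotomy j i with h3 | rfl | h3
    · have h4 := (ih j h3 (h3.trans hie)).2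
      rw [h2] at h4
      exact absurd (h.2.2 i hie j h3) (by rw [h4]; exact lt_irrefl _)
    · exact ⟨hj, h2.symm⟩
    · have h6 : g' i < g' j := h'.2.2 j hj i h3
      rw [h2] at h6
      obtain ⟨k, hk, h5⟩ := h.2.1 (g' i) (hi _ (h.1 i hie) _ (h'.1 i (h3.trans hj)) h6)
      rw [← h5] at h6
      have h7 : k < i := by
        by_contra h8
        exact absurd h6 (not_lt.2 (h.le hk (not_lt.1 h8)))
      have h8 := (ih k h7 hk).2
      rw [h5] at h8
      exact absurd (h'.2.2 i (h3.trans hj) k h7) (by rw [← h8]; exact lt_irrefl _)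

theorem OtG.le_of_init (h : OtG N ε g) (h' : OtG N' ε' g') (hs : N ⊆ N')
    (hi : ∀ γ ∈ N, ∀ η ∈ N', η < γ → η ∈ N) : ε ≤ ε' := by
  by_contra h1
  exact absurd (h.aux h' hs hi ε' (not_le.1 h1)).1 (lt_irrefl _)

theorem OtG.lt_of_init (h : OtG N ε g) (h' : OtG N' ε' g') (hs : N ⊆ N')
    (hi : ∀ γ ∈ N, ∀ η ∈ N', η < γ → η ∈ N) {β : Ordinal.{u}} (hβ : β ∈ N') (hβ' : β ∉ N) :
    ε < ε' := by
  refine lt_of_le_of_ne (h.le_of_init h' hs hi) ?_
  rintro rfl
  obtain ⟨i, hi1, hi2⟩ := h'.2.1 β hβ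
  have h1 := (h.aux h' hs hi i hi1).2
  rw [hi2] at h1
  exact hβ' (h1 ▸ h.1 i hi1)

theorem OtG.unique (h : OtG N ε g) (h' : OtG N ε' g') : ε = ε' :=
  le_antisymm (h.le_of_init h' Set.Subset.rfl fun _ _ η hη _ => hη)
    (h'.le_of_init h Set.Subset.rfl fun _ _ η hη _ => hη)

theorem Ot.unique (h : Ot N ε) (h' : Ot N ε') : ε = ε' := by
  obtain ⟨g, hg⟩ := h
  obtain ⟨g', hg'⟩ := h'
  exact OtG.unique hg hg'

theorem OtG.lt_omega1 (h : OtG N ε g) (hN : N.Countable) : ε < ω_ 1 := by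
  by_contra h1
  have h2 : #(Iio (ω_ 1 : Ordinal.{u})) ≤ #N := by
    refine Cardinal.mk_le_of_injective
      (f := fun i : Iio (ω_ 1 : Ordinal.{u}) => (⟨g i.1, h.1 i.1 (i.2.trans_le (not_lt.1 h1))⟩ : N)) ?_
    intro i j hij
    have h3 : g i.1 = g j.1 := congrArg Subtype.val hij
    apply Subtype.ext
    rcases lt_trichotomy i.1 j.1 with h4 | h4 | h4
    · exact absurd (h.2.2 j.1 (j.2.trans_le (not_lt.1 h1)) i.1 h4) (by rw [h3]; exact lt_irrefl _)
    · exact h4
    · exact absurd (h.2.2 i.1 (i.2.trans_le (not_lt.1 h1)) j.1 h4) (by rw [h3]; exact lt_irrefl _)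
  have h3 : #N ≤ ℵ₀ := Cardinal.le_aleph0_iff_set_countable.2 hN
  rw [Cardinal.mk_Iio_ordinal, Ordinal.card_omega] at h2
  have h4 := h2.trans h3
  rw [← Cardinal.lift_aleph0.{u + 1, u}, Cardinal.lift_le] at h4
  exact absurd h4 (not_le.2 Cardinal.aleph0_lt_aleph_one)

end

/-! ### Hulls -/

namespace Lam

variable {Λ : Type u} (L : Lam.{u} Λ)

/-- The operation `G`, applied pointwise. -/
def lift (G : List Λ → Λ) : List Λ → Λ := fun s => L.cod (fun x => G (s.map (fun y => L.dec y x)))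

/-- A family of operations closed under the pointwise application. -/
def fam (k : ℕ → List Λ → Λ) (n m : ℕ) : List Λ → Λ := (L.lift)^[m] (k n)

/-- The operation given by a family. -/
def KF (k : ℕ → List Λ → Λ) (s : List Λ) : Set Λ := Set.range fun p : ℕ × ℕ => L.fam k p.1 p.2 s

/-- The extension of `N` by `β`. -/
def hull (N : Set Λ) (β : Ordinal.{u}) : Set Λ := (fun y => L.dec y β) '' N

variable {L}

theorem KF_countable (k : ℕ → List Λ → Λ) (s : List Λ) : (L.KF k s).Countable :=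
  Set.countable_range _

theorem exists_list {N : Set Λ} {f : Λ → Λ} : ∀ s : List Λ, (∀ y ∈ s, y ∈ f '' N) →
    ∃ s' : List Λ, (∀ y ∈ s', y ∈ N) ∧ s'.map f = s
  | [], _ => ⟨[], fun y hy => absurd hy (by simp), rfl⟩
  | x :: t, h => by
    obtain ⟨s', h1, h2⟩ := exists_list t fun y hy => h y (List.mem_cons_of_mem _ hy)
    obtain ⟨z, hz, h3⟩ := h x (List.mem_cons_self)
    refine ⟨z :: s', fun y hy => ?_, ?_⟩
    · rcases List.mem_cons.1 hy with h4 | h4
      · rw [h4]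
        exact hz
      · exact h1 y h4
    · rw [List.map_cons, h2, h3]

theorem hull_cls {k : ℕ → List Λ → Λ} {N : Set Λ} (hN : ClsT (L.KF k) N) {β : Ordinal.{u}}
    (hβ : β < ω_ 2) : ClsT (L.KF k) (L.hull N β) := by
  rintro s hs _ ⟨⟨n, m⟩, rfl⟩
  obtain ⟨s', h1, h2⟩ := exists_list s hs
  refine ⟨L.fam k n (m + 1) s', hN s' h1 ⟨(n, m + 1), rfl⟩, ?_⟩
  show L.dec (L.fam k n (m + 1) s') β = L.fam k n m s
  have h3 : L.fam k n (m + 1) = L.lift (L.fam k n m) := Function.iterate_succ_apply' _ _ _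
  rw [h3, lift, L.dec_cod _ β hβ, h2]

end Lam

/-! ### The chain of end extensions -/

/-- Projective stationarity of the order type predicate. -/
theorem pstat_ot (h : MM.{u}) {B : Set Ordinal.{u}} (hB : StatIn B (ω_ 1)) :
    PStat (fun N => ∃ ε ∈ B, Ot N ε) := by
  classical
  intro K hK E hE
  obtain ⟨Λ, ⟨L⟩⟩ := exists_lam.{u}
  obtain ⟨KA, hKA, hext⟩ := L.exists_ext h
  obtain ⟨e, he1, he2⟩ := exists_enum.{u}
  have hinj : ∀ ξ < ω_ 1, ∀ ζ < ω_ 1, L.ι ξ = L.ι ζ → ξ = ζ :=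
    fun ξ hξ ζ hζ => L.inj ξ (hξ.trans lt12) ζ (hζ.trans lt12)
  -- inverses of the enumerations
  have hinv : ∀ γ η : Ordinal.{u}, ∃ ν < ω_ 1, γ < ω_ 2 → η < γ → e γ ν = η := by
    intro γ η
    by_cases h1 : γ < ω_ 2 ∧ η < γ
    · obtain ⟨ν, hν, h2⟩ := he2 γ h1.1 η h1.2
      exact ⟨ν, hν, fun _ _ => h2⟩
    · exact ⟨0, Ordinal.omega_pos 1, fun h2 h3 => absurd ⟨h2, h3⟩ h1⟩
  choose inv hinv1 hinv2 using hinv
  -- the basic operation
  let fin : List Λ → Set Λ := fun s => {y | y ∈ s}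
  have hfin : ∀ s, (fin s).Countable := fun s => (List.finite_toSet s).countable
  let K0 : List Λ → Set Λ := fun s => {L.cod L.ι} ∪ (KA s ∪ (L.ι '' K (s.map L.ord) ∪
    (Set.image2 (fun y y' => L.ι (e (L.ord y) (L.ord y'))) (fin s) (fin s) ∪
    (Set.image2 (fun y y' => L.ι (inv (L.ord y) (L.ord y'))) (fin s) (fin s) ∪
    (fun y => L.cod (fun _ => y)) '' fin s))))
  have hK0 : ∀ s, (K0 s).Countable := fun s =>
    (Set.countable_singleton _).union ((hKA s).union (((hK _).1.image _).union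
      (((hfin s).image2 (hfin s) _).union (((hfin s).image2 (hfin s) _).union
        ((hfin s).image _)))))
  have hkex : ∀ s, ∃ k : ℕ → Λ, K0 s = Set.range k := fun s =>
    (hK0 s).exists_eq_range ⟨_, Or.inl rfl⟩
  choose k' hk' using hkex
  let k : ℕ → List Λ → Λ := fun n s => k' s n
  have hKF : ∀ s, K0 s ⊆ L.KF k s := by
    intro s x hx
    rw [hk' s] at hx
    obtain ⟨n, rfl⟩ := hx
    exact ⟨(n, 0), rfl⟩
  obtain ⟨δ, N0, hG⟩ := exists_gdT L.ι hinj (L.KF k) (Lam.KF_countable k) hE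
  have hδ := hG.lt
  -- the property kept along the chain
  let Pk : Set Λ → Prop := fun N => N.Countable ∧ ClsT (L.KF k) N ∧
    ∀ ξ < ω_ 1, (L.ι ξ ∈ N ↔ ξ < δ)
  have hPm : ∀ N, Pk N → ∀ s : List Λ, (∀ y ∈ s, y ∈ N) → ∀ x ∈ K0 s, x ∈ N :=
    fun N hN s hs x hx => hN.2.1 s hs (hKF s hx)
  have hone : ∀ (N : Set Λ), ∀ y ∈ N, ∀ y' ∈ ([y] : List Λ), y' ∈ N := by
    intro N y hy y' hy'
    rw [List.mem_singleton.1 hy']
    exact hy
  have htwo : ∀ (N : Set Λ), ∀ y ∈ N, ∀ z ∈ N, ∀ y' ∈ ([y, z] : List Λ), y' ∈ N := by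
    intro N y hy z hz y' hy'
    rcases List.mem_cons.1 hy' with h4 | h4
    · rw [h4]
      exact hy
    · rw [List.mem_singleton.1 h4]
      exact hz
  have hst : ∀ N : Set Λ, ∃ N' : Set Λ, Pk N → N ⊆ N' ∧ Pk N' ∧
      ∃ β < ω_ 2, L.ι β ∈ N' ∧ ∀ γ < ω_ 2, L.ι γ ∈ N → γ < β := by
    intro N
    by_cases hN : Pk N
    · obtain ⟨β, hβ, h1, h2⟩ := hext N hN.1
        (fun s hs x hx => hPm N hN s hs x (Or.inr (Or.inl hx))) ⟨δ, hδ, hN.2.2⟩
      have hsub : N ⊆ L.hull N β := by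
        intro y hy
        refine ⟨L.cod (fun _ => y), hPm N hN [y] (hone N y hy) _
          (Or.inr (Or.inr (Or.inr (Or.inr (Or.inr ⟨y, List.mem_singleton.2 rfl, rfl⟩))))), ?_⟩
        exact L.dec_cod _ β hβ
      refine ⟨L.hull N β, fun _ => ⟨hsub, ⟨hN.1.image _, Lam.hull_cls hN.2.1 hβ, fun ξ hξ => ?_⟩,
        β, hβ, ?_, h1⟩⟩
      · constructor
        · rintro ⟨y, hy, h3⟩
          exact (hN.2.2 ξ hξ).1 (h2 y hy ξ hξ h3)
        · intro h3
          exact hsub ((hN.2.2 ξ hξ).2 h3)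
      · exact ⟨L.cod L.ι, hPm N hN [] (fun y hy => absurd hy (by simp)) _ (Or.inl rfl),
          L.dec_cod _ β hβ⟩
    · exact ⟨∅, fun h1 => absurd h1 hN⟩
  choose st hst1 using hst
  -- the chain
  obtain ⟨sq, hsq⟩ : ∃ sq : Ordinal.{u} → Set Λ, ∀ i, sq i = N0 ∪ {x | ∃ j < i, x ∈ st (sq j)} := by
    let F : ∀ i : Ordinal.{u}, (∀ j, j < i → Set Λ) → Set Λ :=
      fun i r => N0 ∪ {x | ∃ (j : Ordinal.{u}) (hj : j < i), x ∈ st (r j hj)}
    refine ⟨fun i => Ordinal.lt_wf.fix F i, fun i => ?_⟩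
    have h0 : Ordinal.lt_wf.fix F i = F i (fun j _ => Ordinal.lt_wf.fix F j) :=
      Ordinal.lt_wf.fix_eq F i
    show Ordinal.lt_wf.fix F i = _
    rw [h0]
    ext x
    refine or_congr Iff.rfl ?_
    constructor
    · rintro ⟨j, hj, hx⟩
      exact ⟨j, hj, hx⟩
    · rintro ⟨j, hj, hx⟩
      exact ⟨j, hj, hx⟩
  have hN0 : ∀ i, N0 ⊆ sq i := fun i x hx => by
    rw [hsq]
    exact Or.inl hx
  have hstep : ∀ j i, j < i → st (sq j) ⊆ sq i := fun j i hj x hx => by
    rw [hsq i]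
    exact Or.inr ⟨j, hj, hx⟩
  have hPk : ∀ i < ω_ 1, Pk (sq i) := by
    intro i
    induction i using WellFoundedLT.induction with
    | ind i ih =>
      intro hi
      have ih' : ∀ j < i, Pk (sq j) := fun j hj => ih j hj (hj.trans hi)
      have hdir : ∀ s : List Λ, (∀ y ∈ s, y ∈ sq i) →
          (∀ y ∈ s, y ∈ N0) ∨ ∃ j < i, ∀ y ∈ s, y ∈ st (sq j) := by
        intro s
        induction s with
        | nil => exact fun _ => Or.inl fun y hy => absurd hy (by simp)
        | cons x t iht =>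
          intro hs
          have hx := hs x List.mem_cons_self
          rw [hsq i] at hx
          rcases iht fun y hy => hs y (List.mem_cons_of_mem _ hy) with h1 | ⟨j, hj, h1⟩
          · rcases hx with hx | ⟨j, hj, hx⟩
            · refine Or.inl fun y hy => ?_
              rcases List.mem_cons.1 hy with h2 | h2
              · rw [h2]
                exact hx
              · exact h1 y h2
            · refine Or.inr ⟨j, hj, fun y hy => ?_⟩
              rcases List.mem_cons.1 hy with h2 | h2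
              · rw [h2]
                exact hx
              · exact (hst1 _ (ih' j hj)).1 (hN0 j (h1 y h2))
          · rcases hx with hx | ⟨j', hj', hx⟩
            · refine Or.inr ⟨j, hj, fun y hy => ?_⟩
              rcases List.mem_cons.1 hy with h2 | h2
              · rw [h2]
                exact (hst1 _ (ih' j hj)).1 (hN0 j hx)
              · exact h1 y h2
            · have hmono : ∀ a b, a ≤ b → b < i → st (sq a) ⊆ st (sq b) := by
                intro a b hab hb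
                rcases hab.lt_or_eq with h2 | rfl
                · exact (hstep a b h2).trans (hst1 _ (ih' b hb)).1
                · exact Set.Subset.rfl
              refine Or.inr ⟨max j j', max_lt hj hj', fun y hy => ?_⟩
              rcases List.mem_cons.1 hy with h2 | h2
              · rw [h2]
                exact hmono j' _ (le_max_right _ _) (max_lt hj hj') hx
              · exact hmono j _ (le_max_left _ _) (max_lt hj hj') (h1 y h2)
      refine ⟨?_, ?_, ?_⟩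
      · rw [hsq i]
        refine hG.cnt.union ?_
        have h1 : {x | ∃ j < i, x ∈ st (sq j)} = ⋃ j ∈ Iio i, st (sq j) := by
          ext x
          simp only [Set.mem_iUnion, exists_prop]
          rfl
        rw [h1]
        exact (iio_countable hi).biUnion fun j hj => (hst1 _ (ih' j hj)).2.1.1
      · intro s hs
        rcases hdir s hs with h1 | ⟨j, hj, h1⟩
        · exact (hG.cls s h1).trans (hN0 i)
        · exact ((hst1 _ (ih' j hj)).2.1.2.1 s h1).trans (hstep j i hj)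
      · intro ξ hξ
        constructor
        · intro h1
          rw [hsq i] at h1
          rcases h1 with h1 | ⟨j, hj, h1⟩
          · exact (hG.tr ξ hξ).1 h1
          · exact ((hst1 _ (ih' j hj)).2.1.2.2 ξ hξ).1 h1
        · intro h1
          exact hN0 i ((hG.tr ξ hξ).2 h1)
  have hmono : ∀ j i, j ≤ i → i < ω_ 1 → sq j ⊆ sq i := by
    intro j i hj hi
    rcases hj.lt_or_eq with h1 | rfl
    · exact (hst1 _ (hPk j (h1.trans hi))).1.trans (hstep j i h1)
    · exact Set.Subset.rfl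
  -- the ordinals
  let O : Ordinal.{u} → Set Ordinal.{u} := fun i => {γ | γ < ω_ 2 ∧ L.ι γ ∈ sq i}
  have hinit : ∀ i < ω_ 1, ∀ j < ω_ 1, ∀ γ ∈ O j, ∀ η ∈ O i, η < γ → η ∈ O j := by
    intro i hi j hj γ hγ η hη hηγ
    rcases le_total i j with h1 | h1
    · exact ⟨hη.1, hmono i j h1 hj hη.2⟩
    · have h2 : L.ι (inv γ η) ∈ sq i := by
        refine hPm _ (hPk i hi) [L.ι γ, L.ι η] (htwo _ _ (hmono j i h1 hi hγ.2) _ hη.2) _
          (Or.inr (Or.inr (Or.inr (Or.inr (Or.inl ⟨L.ι γ, by simp [fin], L.ι η, by simp [fin], ?_⟩)))))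
        simp only [L.ord_ι hγ.1, L.ord_ι hη.1]
      have h3 : L.ι (inv γ η) ∈ sq j :=
        ((hPk j hj).2.2 _ (hinv1 γ η)).2 (((hPk i hi).2.2 _ (hinv1 γ η)).1 h2)
      refine ⟨hη.1, ?_⟩
      refine hPm _ (hPk j hj) [L.ι γ, L.ι (inv γ η)] (htwo _ _ hγ.2 _ h3) _
        (Or.inr (Or.inr (Or.inr (Or.inl ⟨L.ι γ, by simp [fin], L.ι (inv γ η), by simp [fin], ?_⟩))))
      simp only [L.ord_ι hγ.1, L.ord_ι ((hinv1 γ η).trans lt12)]
      rw [hinv2 γ η hγ.1 hηγ]
  have hOsub : ∀ j i, j ≤ i → i < ω_ 1 → O j ⊆ O i := fun j i hj hi γ hγ =>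
    ⟨hγ.1, hmono j i hj hi hγ.2⟩
  have hOc : ∀ i < ω_ 1, (O i).Countable := by
    intro i hi
    refine Set.MapsTo.countable_of_injOn (t := sq i) (f := L.ι) (fun γ hγ => hγ.2)
      (fun γ hγ γ' hγ' h1 => L.inj γ hγ.1 γ' hγ'.1 h1) (hPk i hi).1
  have hOnew : ∀ j i, j < i → i < ω_ 1 → ∃ β ∈ O i, β ∉ O j := by
    intro j i hj hi
    obtain ⟨β, hβ, h1, h2⟩ := (hst1 _ (hPk j (hj.trans hi))).2.2
    refine ⟨β, ⟨hβ, hstep j i hj h1⟩, fun h3 => ?_⟩
    exact absurd (h2 β hβ h3.2) (lt_irrefl _)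
  choose o g hog using fun i => exists_otG (N := O i) (α := ω_ 2) (fun ν hν => hν.1)
  have ho1 : ∀ i < ω_ 1, o i < ω_ 1 := fun i hi => (hog i).lt_omega1 (hOc i hi)
  have ho2 : ∀ j i, j < i → i < ω_ 1 → o j < o i := by
    intro j i hj hi
    obtain ⟨β, hβ, hβ'⟩ := hOnew j i hj hi
    exact (hog j).lt_of_init (hog i) (hOsub j i hj.le hi)
      (fun γ hγ η hη => hinit i hi j (hj.trans hi) γ hγ η hη) hβ hβ'
  have ho3 : ∀ i < ω_ 1, i ≤ o i := by
    intro i
    induction i using WellFoundedLT.induction with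
    | ind i ih =>
      intro hi
      by_contra h1
      have h2 := ho2 (o i) i (not_le.1 h1) hi
      exact absurd (ih (o i) (not_le.1 h1) ((not_le.1 h1).trans hi)) (not_le.2 h2)
  -- closure points
  have hclub := club_closure (κ := ℵ_ 1) Cardinal.isRegular_aleph_one
    Cardinal.aleph0_lt_aleph_one (I := PUnit.{u + 1})
    (by
      rw [Cardinal.mk_punit]
      exact Cardinal.one_lt_aleph0.trans Cardinal.aleph0_lt_aleph_one)
    (fun l => match l with
      | [] => 0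
      | x :: _ => if x.2 < ω_ 1 then o x.2 else 0)
    (by
      intro l _
      rw [Cardinal.ord_aleph]
      rcases l with _ | ⟨x, l⟩
      · exact Ordinal.omega_pos 1
      · show (if x.2 < ω_ 1 then o x.2 else 0) < ω_ 1
        by_cases h1 : x.2 < ω_ 1
        · rw [if_pos h1]
          exact ho1 _ h1
        · rw [if_neg h1]
          exact Ordinal.omega_pos 1)
  rw [Cardinal.ord_aleph] at hclub
  obtain ⟨i, hiB, ⟨hiC, hil⟩, hi⟩ := hB _ (club_inter aleph0_lt_cof_omega1 hclub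
    (club_limits aleph0_lt_cof_omega1))
  have hcl : ∀ j < i, o j < i := by
    intro j hj
    have h1 := hiC [(PUnit.unit, j)] (by simpa using hj)
    simp only [if_pos (hj.trans hi)] at h1
    exact h1
  have hoi : o i = i := by
    refine le_antisymm ?_ (ho3 i hi)
    by_contra h1
    have h2 : i < o i := not_le.1 h1
    have h3 := (hog i).1 i h2
    -- the element with index `i` appears earlier
    have h4 : ∃ j < i, g i i ∈ O j := by
      have h5 := h3.2
      rw [hsq i] at h5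
      rcases h5 with h5 | ⟨j, hj, h5⟩
      · exact ⟨0, hil.bot_lt, h3.1, hN0 0 h5⟩
      · exact ⟨j + 1, hil.add_one_lt hj, h3.1, hstep j (j + 1) (Order.lt_add_one_iff.2 le_rfl) h5⟩
    obtain ⟨j, hj, h5⟩ := h4
    obtain ⟨ε, hε, h6⟩ := (hog j).2.1 _ h5
    have h7 := (hog j).aux (hog i) (hOsub j i hj.le hi)
      (fun γ hγ η hη => hinit i hi j (hj.trans hi) γ hγ η hη) ε hε
    have h8 : ε < i := hε.trans (hcl j hj)
    have h9 := (hog i).2.2 i h2 ε h8
    rw [← h7.2, h6] at h9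
    exact absurd h9 (lt_irrefl _)
  refine ⟨δ, O i, ⟨hOc i hi, fun γ hγ => hγ.1, ?_, hG.mem, hδ, fun ξ hξ => ?_⟩, i, hiB, g i, ?_⟩
  · intro s hs γ hγ
    have hγ2 : γ < ω_ 2 := (hK s).2 hγ
    have h1 : (s.map L.ι).map L.ord = s := by
      rw [List.map_map]
      conv_rhs => rw [← List.map_id s]
      refine List.map_congr_left fun y hy => ?_
      exact L.ord_ι (hs y hy).1
    refine ⟨hγ2, hPm _ (hPk i hi) (s.map L.ι) ?_ _ (Or.inr (Or.inr (Or.inl ⟨γ, ?_, rfl⟩)))⟩
    · intro y hy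
      obtain ⟨y', hy', rfl⟩ := List.mem_map.1 hy
      exact (hs y' hy').2
    · rw [h1]
      exact hγ
  · constructor
    · intro h1
      exact ((hPk i hi).2.2 ξ hξ).1 h1.2
    · intro h1
      exact ⟨hξ.trans lt12, ((hPk i hi).2.2 ξ hξ).2 h1⟩
  · have h1 := hog i
    rw [hoi] at h1
    exact h1

end Pool.Agent.Helper62.GL
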