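import Pool.Agent.Helper62.GL.P3
import Pool.Agent.Helper62.GL.Up2
import Pool.Agent.Helper56.MW.A2

/-!
# Bounding by canonical functions
-/

open FirstOrder FirstOrder.Language Ordinal Cardinal Set Helper23.Pcf

universe u v

namespace Pool.Agent.Helper62.GL

open Pool.Agent.Helper56.MW (MM aleph0_lt_cof_omega1 club_closure split_omega1 val exists_val
  LSet OrdDef stat_cof HasDefWO)
open Pool.Agent.Helper97.FP (PStat Gd Adm Cls exists_enum iio_countable Enum enum_agree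
  exists_coded regular_aleph2)
open Pool.Agent.Helper56.GL (exists_seq)

theorem lim1 : Order.IsSuccLimit (ω_ 1 : Ordinal.{u}) :=
  Ordinal.one_lt_cof_iff.1 (one_lt_aleph0.trans aleph0_lt_cof_omega1)

/-- The closure points of a function form a club. -/
theorem club_fun {κ : Cardinal.{u}} (hκ : κ.IsRegular) (h0 : ℵ₀ < κ)
    (f : Ordinal.{u} → Ordinal.{u}) (hf : ∀ x < κ.ord, f x < κ.ord) :
    ClubIn {i | ∀ x < i, f x < i} κ.ord := by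
  classical
  have hpos : 0 < κ.ord := by
    rw [pos_iff_ne_zero, Ne, Cardinal.ord_eq_zero]
    exact (aleph0_pos.trans h0).ne'
  have h := club_closure hκ h0 (I := PUnit.{u + 1})
    (by
      rw [Cardinal.mk_punit]
      exact Cardinal.one_lt_aleph0.trans h0)
    (fun l => match l with
      | [] => 0
      | x :: _ => if x.2 < κ.ord then f x.2 else 0)
    (by
      intro l _
      rcases l with _ | ⟨x, l⟩
      · exact hpos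
      · show (if x.2 < κ.ord then f x.2 else 0) < κ.ord
        by_cases h1 : x.2 < κ.ord
        · rw [if_pos h1]
          exact hf _ h1
        · rw [if_neg h1]
          exact hpos)
  refine ⟨fun x hx => ?_, fun δ hδ h1 hu x hx => ?_⟩
  · obtain ⟨y, hy, h2, h3⟩ := h.unb x hx
    refine ⟨y, fun z hz => ?_, h2, h3⟩
    have h4 := hy [(PUnit.unit, z)] (by simpa using hz)
    simp only [if_pos (hz.trans h3)] at h4
    exact h4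
  · obtain ⟨y, hy, h2, h3⟩ := hu x hx
    exact (hy x h2).trans h3

theorem club_fun1 (f : Ordinal.{u} → Ordinal.{u}) (hf : ∀ x < ω_ 1, f x < ω_ 1) :
    ClubIn {i | ∀ x < i, f x < i} (ω_ 1) := by
  have h := club_fun Cardinal.isRegular_aleph_one Cardinal.aleph0_lt_aleph_one f
    (by rw [Cardinal.ord_aleph]; exact hf)
  rwa [Cardinal.ord_aleph] at h

theorem otG_iio (ξ : Ordinal.{u}) : OtG (Iio ξ) ξ id :=
  ⟨fun _ hi => hi, fun ν hν => ⟨ν, hν, rfl⟩, fun _ _ _ hj => hj⟩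

theorem Enum.image_countable {η : Ordinal.{u}} {g : Ordinal.{u} → Ordinal.{u}} {ξ : Ordinal.{u}}
    (hξ : ξ < ω_ 1) : (g '' Iio ξ).Countable := (iio_countable hξ).image _

/-- **Bounding.** -/
theorem bounding (h : MM.{u}) (f : Ordinal.{u} → Ordinal.{u}) (hf : ∀ x < ω_ 1, f x < ω_ 1) :
    ∃ η g, Enum (ω_ 1) η g ∧ ∃ C, ClubIn C (ω_ 1) ∧ ∀ ξ ∈ C, ξ < ω_ 1 →
      ∀ ε, Ot (g '' Iio ξ) ε → f ξ < ε := by
  classical
  have hom := aleph0_lt_cof_omega1.{u}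
  let C : Set Ordinal.{u} := {i | ∀ x < i, f x < i} ∩ {i | Order.IsSuccLimit i}
  have hC : ClubIn C (ω_ 1) := club_inter hom (club_fun1 f hf) (club_limits hom)
  have hCst : StatIn C (ω_ 1) := by
    intro C' hC'
    obtain ⟨x, hx, -, hx2⟩ := (club_inter hom hC hC').unb 0 (Ordinal.omega_pos 1)
    exact ⟨x, hx.1, hx.2, hx2⟩
  obtain ⟨S, hSC, hS, hS'⟩ := split_omega1 hCst
  let B : Set Ordinal.{u} := {ε | ∃ ξ ∈ S, ξ ≤ ε ∧ ∀ ξ' ∈ C, ξ' ≤ ε → ξ' ≤ ξ}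
  have hB1 : StatIn B (ω_ 1) := hS.mono fun ξ hξ => ⟨ξ, hξ, le_rfl, fun ξ' _ h1 => h1⟩
  have hB2 : StatIn Bᶜ (ω_ 1) := hS'.mono fun ξ hξ => by
    rintro ⟨ξ', h1, h2, h3⟩
    have h4 := h3 ξ hξ.1 le_rfl
    exact hξ.2 (le_antisymm h4 h2 ▸ h1)
  have hT : PStat (fun N => ∃ ε ∈ B, Ot N ε) := pstat_ot h hB1
  have hT' : PStat (fun N => ¬ ∃ ε ∈ B, Ot N ε) := by
    intro K hK E hE
    obtain ⟨δ, N, hG, ε, hε, h1⟩ := pstat_ot h hB2 K hK E hE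
    refine ⟨δ, N, hG, ?_⟩
    rintro ⟨ε', hε', h2⟩
    exact hε (h1.unique h2 ▸ hε')
  obtain ⟨η, g, hg, hpat⟩ := exists_coded h hT hT' Sᶜ
  -- `η` is uncountable
  have hη : ω_ 1 ≤ η := by
    by_contra h1
    have h1 := not_le.1 h1
    obtain ⟨z, hz1, hz2⟩ : ∃ z : Ordinal.{u} → Ordinal.{u}, (∀ ν < ω_ 1, z ν < ω_ 1) ∧
        ∀ ν < η, g (z ν) = ν := by
      have h2 : ∀ ν, ∃ x < ω_ 1, ν < η → g x = ν := by
        intro ν
        by_cases h3 : ν < η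
        · obtain ⟨x, hx, h4⟩ := hg.2 ν h3
          exact ⟨x, hx, fun _ => h4⟩
        · exact ⟨0, Ordinal.omega_pos 1, fun h4 => absurd h4 h3⟩
      choose z hz1 hz2 using h2
      exact ⟨z, fun ν _ => hz1 ν, hz2⟩
    have hD := club_inter hom (club_inter hom (club_fun1 z hz1) (club_Ioi lim1 h1))
      (club_limits hom)
    have him : ∀ ξ < ω_ 1, (∀ x < ξ, z x < ξ) → η < ξ → g '' Iio ξ = Iio η := by
      intro ξ hξ h2 h3
      apply Set.Subset.antisymm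
      · rintro _ ⟨x, hx, rfl⟩
        exact hg.1 x (lt_trans hx hξ)
      · intro ν hν
        have hν' : ν < η := hν
        exact ⟨z ν, h2 ν (hν'.trans h3), hz2 ν hν'⟩
    obtain ⟨ξ, hξ, ⟨⟨h2, h3⟩, h4⟩, h5⟩ := hS _ hD
    obtain ⟨ξ', hξ', ⟨⟨h2', h3'⟩, h4'⟩, h5'⟩ := hS' _ hD
    have h6 := hpat ξ h5 h4
    have h7 := hpat ξ' h5' h4'
    rw [him ξ h5 h2 h3] at h6
    rw [him ξ' h5' h2' h3'] at h7
    have h8 : ξ ∈ Sᶜ := h6.1 (h7.2 hξ'.2)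
    exact h8 hξ
  obtain ⟨z, hz1, hz2⟩ : ∃ z : Ordinal.{u} → Ordinal.{u}, (∀ ν < ω_ 1, z ν < ω_ 1) ∧
      ∀ ν < ω_ 1, g (z ν) = ν := by
    have h2 : ∀ ν, ∃ x < ω_ 1, ν < ω_ 1 → g x = ν := by
      intro ν
      by_cases h3 : ν < ω_ 1
      · obtain ⟨x, hx, h4⟩ := hg.2 ν (h3.trans_le hη)
        exact ⟨x, hx, fun _ => h4⟩
      · exact ⟨0, Ordinal.omega_pos 1, fun h4 => absurd h4 h3⟩
    choose z hz1 hz2 using h2
    exact ⟨z, fun ν _ => hz1 ν, hz2⟩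
  refine ⟨η, g, hg, C ∩ {i | ∀ x < i, z x < i}, club_inter hom hC (club_fun1 z hz1), ?_⟩
  rintro ξ ⟨hξC, hξz⟩ hξ1 ε ⟨k, hk⟩
  have h1 : ξ ≤ ε := by
    refine OtG.le_of_init (otG_iio ξ) hk (fun ν hν => ?_) fun γ hγ ν _ hν => lt_trans hν hγ
    have hν' : ν < ξ := hν
    exact ⟨z ν, hξz ν hν', hz2 ν (hν'.trans hξ1)⟩
  by_contra h2
  have h2 := not_lt.1 h2
  have h3 : ∀ ξ' ∈ C, ξ' ≤ ε → ξ' ≤ ξ := by
    intro ξ' h4 h5
    by_contra h6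
    exact absurd (h4.1 ξ (not_le.1 h6)) (not_lt.2 (h5.trans h2))
  have h4 : (∃ ε ∈ B, Ot (g '' Iio ξ) ε) ↔ ξ ∈ S := by
    constructor
    · rintro ⟨ε', ⟨ξ', h5, h6, h7⟩, h8⟩
      have h9 : ε' = ε := h8.unique ⟨k, hk⟩
      subst h9
      have h10 : ξ' = ξ := le_antisymm (h3 ξ' (hSC h5) h6) (h7 ξ hξC h1)
      exact h10 ▸ h5
    · intro h5
      exact ⟨ε, ⟨ξ, h5, h1, h3⟩, k, hk⟩
  have h5 := hpat ξ hξ1 hξC.2
  rw [h4] at h5
  by_cases h6 : ξ ∈ S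
  · exact (h5.1 h6) h6
  · exact h6 (h5.2 h6)

/-! ### Enumerations of ordinals below `ω₂` -/

theorem exists_Enum {η : Ordinal.{u}} (h0 : 0 < η) (hη : η < ω_ 2) : ∃ f, Enum (ω_ 1) η f := by
  classical
  obtain ⟨e, -, he⟩ := exists_enum.{u}
  refine ⟨fun ν => if e η ν < η then e η ν else 0, fun ν _ => ?_, fun ν hν => ?_⟩
  · by_cases h1 : e η ν < η
    · simp only [if_pos h1]
      exact h1
    · simp only [if_neg h1]
      exact h0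
  · obtain ⟨x, hx, h1⟩ := he η hη ν hν
    refine ⟨x, hx, ?_⟩
    simp only [h1, if_pos hν]

theorem Enum.lt_omega2 {η : Ordinal.{u}} {g : Ordinal.{u} → Ordinal.{u}}
    (hg : Enum (ω_ 1) η g) : η < ω_ 2 := by
  choose! z hz1 hz2 using hg.2
  have h1 : #(Iio η) ≤ #(Iio (ω_ 1 : Ordinal.{u})) := by
    refine Cardinal.mk_le_of_injective
      (f := fun i : Iio η => (⟨z i.1, hz1 i.1 i.2⟩ : Iio (ω_ 1 : Ordinal.{u}))) ?_
    intro i j hij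
    have h2 : z i.1 = z j.1 := congrArg Subtype.val hij
    apply Subtype.ext
    rw [← hz2 i.1 i.2, ← hz2 j.1 j.2, h2]
  rw [Cardinal.mk_Iio_ordinal, Cardinal.mk_Iio_ordinal, Cardinal.lift_le, Ordinal.card_omega] at h1
  rw [← Cardinal.ord_aleph, Cardinal.lt_ord]
  exact h1.trans_lt (Cardinal.aleph_lt_aleph.2 (by norm_num))

/-- Restriction of an enumeration. -/
theorem club_restrict {η α : Ordinal.{u}} (h0 : 0 < η) (hη : η ≤ α)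
    {f f' : Ordinal.{u} → Ordinal.{u}} (hf : Enum (ω_ 1) α f) (hf' : Enum (ω_ 1) η f') :
    ∃ C, ClubIn C (ω_ 1) ∧ ∀ ξ ∈ C, ξ < ω_ 1 → f '' Iio ξ ∩ Iio η = f' '' Iio ξ := by
  classical
  let k : Ordinal.{u} → Ordinal.{u} := fun ξ => if f ξ < η then f ξ else 0
  have hk : Enum (ω_ 1) η k := by
    refine ⟨fun ξ _ => ?_, fun ν hν => ?_⟩
    · show (if f ξ < η then f ξ else 0) < η
      by_cases h1 : f ξ < η
      · rw [if_pos h1]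
        exact h1
      · rw [if_neg h1]
        exact h0
    · obtain ⟨ξ, hξ, h1⟩ := hf.2 ν (hν.trans_le hη)
      refine ⟨ξ, hξ, ?_⟩
      show (if f ξ < η then f ξ else 0) = ν
      rw [h1, if_pos hν]
  obtain ⟨C, hC, h1⟩ := enum_agree hk hf'
  obtain ⟨ζ, hζ, h2⟩ := hf.2 0 (h0.trans_le hη)
  refine ⟨C ∩ Ioi ζ, club_inter aleph0_lt_cof_omega1 hC (club_Ioi lim1 hζ), ?_⟩
  rintro ξ ⟨hξ, hξζ⟩ hξ1
  rw [← h1 ξ hξ hξ1]
  apply Set.Subset.antisymm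
  · rintro _ ⟨⟨x, hx, rfl⟩, h3⟩
    exact ⟨x, hx, if_pos h3⟩
  · rintro _ ⟨x, hx, rfl⟩
    show (if f x < η then f x else 0) ∈ _
    by_cases h3 : f x < η
    · rw [if_pos h3]
      exact ⟨⟨x, hx, rfl⟩, h3⟩
    · rw [if_neg h3]
      exact ⟨⟨ζ, hξζ, h2⟩, h0⟩

/-- The order types of the initial images belong to a given club, for many ordinals below `ω₂`. -/
theorem exists_bfun (h : MM.{u}) {C : Set Ordinal.{u}} (hC : ClubIn C (ω_ 1)) :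
    ∃ b : Ordinal.{u} → Ordinal.{u}, (∀ η < ω_ 2, b η < ω_ 2) ∧
      ∀ α : Ordinal.{u}, α < ω_ 2 → α.cof = ℵ₀ → (∀ η < α, b η < α) →
        ∀ f, Enum (ω_ 1) α f → ∃ C', ClubIn C' (ω_ 1) ∧ ∀ ξ ∈ C', ξ < ω_ 1 →
          ∃ ε ∈ C, ε < ω_ 1 ∧ ∃ g, OtG (f '' Iio ξ) ε g := by
  classical
  have hom := aleph0_lt_cof_omega1.{u}
  -- enumerations and the functions to be bounded
  have hF : ∀ η : Ordinal.{u}, ∃ f, 0 < η → η < ω_ 2 → Enum (ω_ 1) η f := by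
    intro η
    by_cases h1 : 0 < η ∧ η < ω_ 2
    · obtain ⟨f, hf⟩ := exists_Enum h1.1 h1.2
      exact ⟨f, fun _ _ => hf⟩
    · exact ⟨id, fun h2 h3 => absurd ⟨h2, h3⟩ h1⟩
  choose F hF using hF
  have hH : ∀ η ξ : Ordinal.{u}, ∃ x < ω_ 1, ξ < ω_ 1 → ∀ ε, Ot (F η '' Iio ξ) ε →
      ∃ c ∈ C, ε < c ∧ c ≤ x := by
    intro η ξ
    by_cases h1 : ξ < ω_ 1 ∧ ∃ ε, Ot (F η '' Iio ξ) ε
    · obtain ⟨h2, ε, k, hk⟩ := h1
      have hε : ε < ω_ 1 := OtG.lt_omega1 hk ((iio_countable h2).image _)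
      obtain ⟨c, hc, h3, h4⟩ := hC.unb ε hε
      refine ⟨c, h4, fun _ ε' h5 => ⟨c, hc, ?_, le_rfl⟩⟩
      have h6 : ε' = ε := h5.unique ⟨k, hk⟩
      rw [h6]
      exact h3
    · exact ⟨0, Ordinal.omega_pos 1, fun h2 ε h3 => absurd ⟨h2, ε, h3⟩ h1⟩
  choose H hH1 hH2 using hH
  choose b g hg Cb hCb hb using fun η => bounding h (H η) (fun x _ => hH1 η x)
  refine ⟨b, fun η _ => Enum.lt_omega2 (hg η), fun α hα hc hclo f hf => ?_⟩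
  obtain ⟨ν, hν⟩ := exists_seq hc
  have hν0 : ∀ n : ℕ, 0 < ν (n + 1) := fun n => lt_of_le_of_lt zero_le (hν.mono (Nat.lt_succ_self n))
  have hb0 : ∀ η, 0 < b η := fun η => lt_of_le_of_lt zero_le ((hg η).1 0 (Ordinal.omega_pos 1))
  choose C1 hC1 h1 using fun n : ℕ => club_restrict (hν0 n) (hν.lt (n + 1)).le hf
    (hF (ν (n + 1)) (hν0 n) ((hν.lt (n + 1)).trans hα))
  choose C3 hC3 h3 using fun n : ℕ => club_restrict (hb0 (ν (n + 1)))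
    (hclo _ (hν.lt (n + 1))).le hf (hg (ν (n + 1)))
  have hI : #(ULift.{u} ℕ) < (ω_ 1 : Ordinal.{u}).cof := by
    rw [Cardinal.mk_uLift, Cardinal.mk_nat, Cardinal.lift_aleph0]
    exact hom
  have hCl := club_iInter hom hI (fun n => C1 n.down ∩ (Cb (ν (n.down + 1)) ∩ C3 n.down))
    fun n => club_inter hom (hC1 _) (club_inter hom (hCb _) (hC3 _))
  obtain ⟨ζ, hζ, hζ2⟩ := hf.2 0 (lt_of_le_of_lt zero_le (hν.lt 0))
  refine ⟨_, club_inter hom hCl (club_Ioi lim1 hζ), ?_⟩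
  rintro ξ ⟨hξC, hξζ⟩ hξ
  have hξC' : ∀ n : ℕ, ξ ∈ C1 n ∧ ξ ∈ Cb (ν (n + 1)) ∧ ξ ∈ C3 n := fun n =>
    Set.mem_iInter.1 hξC ⟨n⟩
  have hfα : ∀ ν' ∈ f '' Iio ξ, ν' < α := by
    rintro _ ⟨x, hx, rfl⟩
    exact hf.1 x (lt_trans hx hξ)
  obtain ⟨ε, k, hk⟩ := exists_otG hfα
  have hε : ε < ω_ 1 := hk.lt_omega1 ((iio_countable hξ).image _)
  have hinit : ∀ η : Ordinal.{u}, ∀ γ ∈ f '' Iio ξ ∩ Iio η, ∀ ν' ∈ f '' Iio ξ, ν' < γ →
      ν' ∈ f '' Iio ξ ∩ Iio η := fun η γ hγ ν' hν' h4 => ⟨hν', lt_trans h4 hγ.2⟩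
  have hε0 : 0 < ε := by
    obtain ⟨i, hi, -⟩ := hk.2.1 0 ⟨ζ, hξζ, hζ2⟩
    exact lt_of_le_of_lt zero_le hi
  refine ⟨ε, hC.cl ε hε hε0 fun ε' hε' => ?_, hε, k, hk⟩
  obtain ⟨n, hn⟩ := hν.cof (k ε') (hfα _ (hk.1 ε' hε'))
  have hn' : k ε' < ν (n + 1) := hn.trans (hν.mono (Nat.lt_succ_self n))
  obtain ⟨εn, kn, hkn⟩ := exists_otG (N := f '' Iio ξ ∩ Iio (ν (n + 1))) (α := α)
    fun ν' hν' => hfα ν' hν'.1
  have h5 : ε' < εn := by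
    obtain ⟨j, hj, h6⟩ := hkn.2.1 (k ε') ⟨hk.1 ε' hε', hn'⟩
    have h7 := hkn.aux hk Set.inter_subset_left (hinit _) j hj
    rw [h6] at h7
    have h8 : j = ε' := by
      rcases lt_trichotomy j ε' with h9 | h9 | h9
      · exact absurd (hk.2.2 ε' hε' j h9) (by rw [h7.2]; exact lt_irrefl _)
      · exact h9
      · exact absurd (hk.2.2 j h7.1 ε' h9) (by rw [h7.2]; exact lt_irrefl _)
    exact h8 ▸ hj
  have h6 : Ot (F (ν (n + 1)) '' Iio ξ) εn := by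
    rw [← h1 n ξ (hξC' n).1 hξ]
    exact ⟨kn, hkn⟩
  obtain ⟨c, hcC, h7, h8⟩ := hH2 (ν (n + 1)) ξ hξ εn h6
  obtain ⟨εb, kb, hkb⟩ := exists_otG (N := f '' Iio ξ ∩ Iio (b (ν (n + 1)))) (α := α)
    fun ν' hν' => hfα ν' hν'.1
  have h9 : Ot (g (ν (n + 1)) '' Iio ξ) εb := by
    rw [← h3 n ξ (hξC' n).2.2 hξ]
    exact ⟨kb, hkb⟩
  have h10 := hb (ν (n + 1)) ξ (hξC' n).2.1 hξ εb h9
  have h11 : εb ≤ ε := hkb.le_of_init hk Set.inter_subset_left (hinit _)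
  exact ⟨c, hcC, h5.trans h7, (h8.trans_lt h10).trans_le h11⟩

/-- If the domain of `Da φ ω` contains a club of `ω₁`, then there are definable bounded families
for stationarily many ordinals below `ω₂`. -/
theorem stat_of_club (h : MM.{u}) {n : ℕ} (φ : LSet.Formula (Fin n ⊕ Fin 2))
    (hns : ¬ StatIn {γ : Ordinal.{u} | ¬ ∃ Z, Da φ ω γ Z} (ω_ 1)) :
    StatIn {γ : Ordinal.{u} | γ.cof = ℵ₀ ∧ ∃ X, OrdDef ∅ X ∧ Seqs γ X ∧ BddAb γ X}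
      (ℵ_ 2 : Cardinal.{u}).ord := by
  classical
  have hom := aleph0_lt_cof_omega1.{u}
  have h02 : ℵ₀ < (ℵ_ 2 : Cardinal.{u}) :=
    Cardinal.aleph0_lt_aleph_one.trans (Cardinal.aleph_lt_aleph.2 (by norm_num))
  have hcof2 : ℵ₀ < ((ℵ_ 2 : Cardinal.{u}).ord).cof := by
    rw [regular_aleph2.cof_ord]
    exact h02
  unfold StatIn at hns
  push Not at hns
  obtain ⟨C, hC, hCE⟩ := hns
  have hE : ∀ γ ∈ C, γ < ω_ 1 → ∃ Z, Da φ ω γ Z := by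
    intro γ hγ hγ1
    by_contra h1
    exact absurd hγ1 (not_lt.2 (hCE γ (fun Z hZ => h1 ⟨Z, hZ⟩) hγ))
  obtain ⟨b, hb1, hb2⟩ := exists_bfun h hC
  have hbc := club_fun regular_aleph2.{u} h02 b (by rw [Cardinal.ord_aleph]; exact hb1)
  have hlc := club_unb hcof2 (club_limits hcof2)
  have hst := stat_cof regular_aleph2.{u} h02
  have h1 : StatIn {γ : Ordinal.{u} | γ.cof = ℵ₀ ∧ (∀ x < γ, b x < γ) ∧
      UnbIn {i | Order.IsSuccLimit i} γ} (ℵ_ 2 : Cardinal.{u}).ord :=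
    (StatIn.inter_club hcof2 hst (club_inter hcof2 hbc hlc)).mono
      fun γ hγ => ⟨hγ.1, hγ.2.1, hγ.2.2.2⟩
  intro C' hC'
  obtain ⟨α, ⟨hα1, hα2, hα3⟩, hα4, hα5⟩ := h1 C' hC'
  refine ⟨α, ⟨hα1, ?_⟩, hα4, hα5⟩
  rw [Cardinal.ord_aleph] at hα5
  have hlim : Order.IsSuccLimit α := Ordinal.one_lt_cof_iff.1 (hα1 ▸ Cardinal.one_lt_aleph0)
  have hl : ∀ β < α, β + ω < α := by
    intro β hβ
    obtain ⟨i, hi, h2, h3⟩ := hα3 β hβ
    refine lt_of_le_of_lt ?_ h3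
    have hi' : Order.IsSuccLimit i := hi
    rw [Ordinal.add_le_iff_of_isSuccLimit Ordinal.isSuccLimit_omega0]
    intro d hd
    obtain ⟨m, rfl⟩ := Ordinal.lt_omega0.1 hd
    have h4 : ∀ m : ℕ, β + (m : Ordinal.{u}) < i := by
      intro m
      induction m with
      | zero => simpa using h2
      | succ m ih =>
        rw [Nat.cast_succ, ← add_assoc]
        exact hi'.add_one_lt ih
    exact (h4 m).le
  obtain ⟨f, hf⟩ := exists_Enum hlim.bot_lt hα5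
  obtain ⟨C1, hC1, h2⟩ := hb2 α hα5 hα1 hα2 f hf
  refine exists_fam h φ hα1 hl hf ?_
  intro C2 hC2
  obtain ⟨ξ, hξ, -, hξ1⟩ := (club_inter hom hC1 hC2).unb 0 (Ordinal.omega_pos 1)
  refine ⟨ξ, ?_, hξ.2, hξ1⟩
  obtain ⟨ε, hε, hε1, g, hg⟩ := h2 ξ hξ.1 hξ1
  obtain ⟨g', hg'⟩ := exists_val g ε
  obtain ⟨Z, hZ⟩ := hE ε hε hε1
  refine ⟨ε, g', ⟨fun i hi => ?_, fun ζ hζ => ?_, fun i hi j hj => ?_⟩, Z, hZ⟩
  · rw [hg' i hi]
    obtain ⟨ζ, hζ, h3⟩ := hg.1 i hi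
    exact ⟨ζ, hζ, h3⟩
  · obtain ⟨i, hi, h3⟩ := hg.2.1 (f ζ) ⟨ζ, hζ, rfl⟩
    exact ⟨i, hi, by rw [hg' i hi, h3]⟩
  · rw [hg' i hi, hg' j (hj.trans hi)]
    exact hg.2.2 i hi j hj

end Pool.Agent.Helper62.GL
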