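import Pool.Agent.Helper56.MW.Defs

/-!
# Definitions for the statement
-/

open FirstOrder FirstOrder.Language Ordinal Cardinal Set Helper23.Pcf

universe u v

namespace Pool.Agent.Helper62.GL

open Pool.Agent.Helper56.MW (OrdDef)

/-- `f` is a strictly increasing cofinal map from `ω` to the ordinal `γ`. -/
structure CofSeq (γ : Ordinal.{u}) (f : ℕ → Ordinal.{u}) : Prop where
  mono : StrictMono f
  lt : ∀ n, f n < γ
  cof : ∀ β < γ, ∃ n, β < f n

/-- The set `c` is the graph of the map `f` from `ω` to the ordinals. -/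
def IsGraph (c : ZFSet.{u}) (f : ℕ → Ordinal.{u}) : Prop :=
  ∀ z, z ∈ c ↔ ∃ n : ℕ, z = ZFSet.pair (n : Ordinal.{u}).toZFSet (f n).toZFSet

/-- `X` is a nonempty set of strictly increasing cofinal maps from `ω` to `γ`. -/
structure Seqs (γ : Ordinal.{u}) (X : ZFSet.{u}) : Prop where
  ne : ∃ c, c ∈ X
  seq : ∀ c ∈ X, ∃ f, CofSeq γ f ∧ IsGraph c f

/-- Some map `t` from `ω` to `γ` eventually dominates every map in `X`. -/
def BddAb (γ : Ordinal.{u}) (X : ZFSet.{u}) : Prop :=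
  ∃ t : ℕ → Ordinal.{u}, (∀ n, t n < γ) ∧ ∀ c ∈ X, ∀ f, IsGraph c f → ∃ m, ∀ n ≥ m, f n ≤ t n

/-- Some cofinal map `t` from `ω` to `γ` is eventually dominated by every map in `X`. -/
def BddBe (γ : Ordinal.{u}) (X : ZFSet.{u}) : Prop :=
  ∃ t : ℕ → Ordinal.{u}, CofSeq γ t ∧ ∀ c ∈ X, ∀ f, IsGraph c f → ∃ m, ∀ n ≥ m, t n ≤ f n

end Pool.Agent.Helper62.GL
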