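import Pool.Agent.Helper56.MW.Defs
import Pool.Agent.Helper97.FP.Fo

/-!
# Countable subsets of a type: definitions
-/

open FirstOrder FirstOrder.Language Ordinal Cardinal Set Helper23.Pcf

universe u v

namespace Pool.Agent.Helper62.GL

/-- The set `N` is closed under the operation `K` on finite sequences. -/
def ClsT {Λ : Type u} (K : List Λ → Set Λ) (N : Set Λ) : Prop :=
  ∀ s : List Λ, (∀ y ∈ s, y ∈ N) → K s ⊆ N

/-- `N` is countable, closed under `K`, and its trace on `ω₁` (embedded by `e`) is `δ ∈ E`. -/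
structure GdT {Λ : Type u} (e : Ordinal.{u} → Λ) (K : List Λ → Set Λ) (E : Set Ordinal.{u})
    (δ : Ordinal.{u}) (N : Set Λ) : Prop where
  cnt : N.Countable
  cls : ClsT K N
  mem : δ ∈ E
  lt : δ < ω_ 1
  tr : ∀ ξ < ω_ 1, (e ξ ∈ N ↔ ξ < δ)

/-- `X` is projectively stationary. -/
def PStatT {Λ : Type u} (e : Ordinal.{u} → Λ) (X : Set Λ → Prop) : Prop :=
  ∀ K : List Λ → Set Λ, (∀ s, (K s).Countable) → ∀ E, StatIn E (ω_ 1) →
    ∃ δ N, GdT e K E δ N ∧ X N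

/-- The order type of the set `N` of ordinals is `ε`. -/
def Ot (N : Set Ordinal.{u}) (ε : Ordinal.{u}) : Prop :=
  ∃ g : Ordinal.{u} → Ordinal.{u}, (∀ i < ε, g i ∈ N) ∧ (∀ ν ∈ N, ∃ i < ε, g i = ν) ∧
    ∀ i < ε, ∀ j < i, g j < g i

/-- A type which codes all maps from the ordinals below `ω₂` to itself. -/
structure Lam (Λ : Type u) where
  ι : Ordinal.{u} → Λ
  dec : Λ → Ordinal.{u} → Λ
  cod : (Ordinal.{u} → Λ) → Λ
  inj : ∀ ξ < ω_ 2, ∀ ζ < ω_ 2, ι ξ = ι ζ → ξ = ζ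
  dec_cod : ∀ f, ∀ x < ω_ 2, dec (cod f) x = f x

end Pool.Agent.Helper62.GL
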