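import Pool.Agent.Helper62.GL.Cn

/-!
# Steering
-/

open FirstOrder FirstOrder.Language Ordinal Cardinal Set Helper23.Pcf

universe u v

namespace Pool.Agent.Helper62.GL

namespace Cnd

variable {T : Par.{u}}

/-- Extension operators on the set `Q` of conditions. -/
structure Ops (Q : Set (Cnd T)) (δ γ : Ordinal.{u}) (ν : ℕ → Ordinal.{u})
    (W : Cnd T → Ordinal.{u} → Prop) (E : Cnd T → Ordinal.{u} → Cnd T)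
    (J : Cnd T → Ordinal.{u} → Ordinal.{u} → Cnd T) (Bd : Cnd T → Ordinal.{u} → Ordinal.{u})
    (Tp : Cnd T → Ordinal.{u} → Ordinal.{u} → Ordinal.{u}) : Prop where
  len : ∀ q ∈ Q, q.len < δ
  top : ∀ q ∈ Q, q.top < γ
  E1 : ∀ q ∈ Q, ∀ ζ < δ, E q ζ ∈ Q ∧ E q ζ ≤ q ∧ ζ ≤ (E q ζ).len
  J1 : ∀ q ∈ Q, ∀ ξ < δ, ∀ k, J q ξ (ν k) ∈ Q ∧ J q ξ (ν k) ≤ q ∧ q.len < (J q ξ (ν k)).len ∧
    ξ < (J q ξ (ν k)).len ∧ W (J q ξ (ν k)) ξ ∧ (J q ξ (ν k)).len ≤ Bd q ξ ∧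
    ∀ ζ, q.len < ζ → ζ ≤ (J q ξ (ν k)).len → ν k < (J q ξ (ν k)).fn ζ
  B1 : ∀ q ∈ Q, ∀ ξ < δ, Bd q ξ < δ
  T1 : ∀ q ∈ Q, ∀ ξ < δ, ∀ k, Tp q ξ (ν k) < γ
  T2 : ∀ q ∈ Q, ∀ ξ < δ, ∀ k, ∀ ζ < δ, (J (E q ζ) ξ (ν k)).top ≤ Tp q ξ (ν k)
  T3 : ∀ q ∈ Q, ∀ ξ < δ, ∀ k, ∀ ζ < δ, ∀ ζ' < δ,
    (E (J (E q ζ) ξ (ν k)) ζ').top ≤ Tp q ξ (ν k)

/-- A sequence of conditions in `Q`. -/
structure Run (Q : Set (Cnd T)) (x ν : ℕ → Ordinal.{u}) (W : Cnd T → Ordinal.{u} → Prop)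
    (p₀ : Cnd T) (p : ℕ → Cnd T) : Prop where
  zero : p 0 = p₀
  mem : ∀ n, p n ∈ Q
  le : ∀ n, p (n + 1) ≤ p n
  len : ∀ n, x n < (p (n + 1)).len
  top : ∀ n, ν n < (p (n + 1)).top
  w : ∀ n, W (p (n + 1)) (x n)

variable {Q : Set (Cnd T)} {δ γ : Ordinal.{u}} {ν x : ℕ → Ordinal.{u}}
  {W : Cnd T → Ordinal.{u} → Prop} {E : Cnd T → Ordinal.{u} → Cnd T}
  {J : Cnd T → Ordinal.{u} → Ordinal.{u} → Cnd T} {Bd : Cnd T → Ordinal.{u} → Ordinal.{u}}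
  {Tp : Cnd T → Ordinal.{u} → Ordinal.{u} → Ordinal.{u}}

theorem run_fast (H : Ops Q δ γ ν W E J Bd Tp) (hx : ∀ n, x n < δ) (hν : ∀ n, ν n < γ)
    (hν2 : ∀ ζ < γ, ∃ n, ζ < ν n) {p₀ : Cnd T} (h0 : p₀ ∈ Q) {g w : Ordinal.{u} → ℕ}
    (hg : ∀ ξ ξ', ξ ≤ ξ' → ξ' < δ → g ξ ≤ g ξ') (hw : ∀ β β', β ≤ β' → β' < γ → w β ≤ w β')
    (hw2 : ∀ k, ∃ β < γ, k < w β) :
    ∃ p : ℕ → Cnd T, Run Q x ν W p₀ p ∧
      ∀ n ζ, (p n).len < ζ → ζ ≤ (p (n + 1)).len → g ζ < w ((p (n + 1)).fn ζ) := by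
  have hk : ∀ (n : ℕ) (q : Q), ∃ k, ν n < ν k ∧ g (Bd q.1 (x n)) < w (ν k) := by
    intro n q
    obtain ⟨β, hβ, hβ2⟩ := hw2 (g (Bd q.1 (x n)))
    obtain ⟨k, hk⟩ := hν2 (max β (ν n)) (max_lt hβ (hν n))
    exact ⟨k, (le_max_right _ _).trans_lt hk, hβ2.trans_le
      (hw _ _ ((le_max_left _ _).trans hk.le) (hν k))⟩
  choose kk hk1 hk2 using hk
  let st : ℕ → Q → Q := fun n q =>
    ⟨J q.1 (x n) (ν (kk n q)), (H.J1 q.1 q.2 (x n) (hx n) (kk n q)).1⟩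
  let p : ℕ → Q := fun n => Nat.rec ⟨p₀, h0⟩ st n
  have hp : ∀ n, (p (n + 1)).1 = J (p n).1 (x n) (ν (kk n (p n))) := fun n => rfl
  have hJ : ∀ n, (p (n + 1)).1 ≤ (p n).1 ∧ (p n).1.len < (p (n + 1)).1.len ∧
      x n < (p (n + 1)).1.len ∧ W (p (n + 1)).1 (x n) ∧ (p (n + 1)).1.len ≤ Bd (p n).1 (x n) ∧
      ∀ ζ, (p n).1.len < ζ → ζ ≤ (p (n + 1)).1.len → ν (kk n (p n)) < (p (n + 1)).1.fn ζ := by
    intro n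
    rw [hp]
    exact (H.J1 (p n).1 (p n).2 (x n) (hx n) (kk n (p n))).2
  refine ⟨fun n => (p n).1, ⟨rfl, fun n => (p n).2, fun n => (hJ n).1, fun n => (hJ n).2.2.1,
    fun n => ?_, fun n => (hJ n).2.2.2.1⟩, fun n ζ h1 h2 => ?_⟩
  · exact (hk1 n (p n)).trans ((hJ n).2.2.2.2.2 _ (hJ n).2.1 le_rfl)
  · have h3 := (hJ n).2.2.2.2.2 ζ h1 h2
    have h4 : (p (n + 1)).1.fn ζ < γ := (fn_le_top _ h2).trans_lt (H.top _ (p (n + 1)).2)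
    have h5 : g ζ ≤ g (Bd (p n).1 (x n)) :=
      hg _ _ (h2.trans (hJ n).2.2.2.2.1) (H.B1 _ (p n).2 _ (hx n))
    exact (h5.trans_lt (hk2 n (p n))).trans_le (hw _ _ h3.le h4)

theorem run_slow (H : Ops Q δ γ ν W E J Bd Tp) (hx : ∀ n, x n < δ)
    {p₀ : Cnd T} (h0 : p₀ ∈ Q) {v h : Ordinal.{u} → ℕ}
    (hv : ∀ ξ ξ', ξ ≤ ξ' → ξ' < δ → v ξ ≤ v ξ') (hh : ∀ β β', β ≤ β' → β' < γ → h β ≤ h β')
    (hv2 : ∀ k, ∃ ξ < δ, k ≤ v ξ) :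
    ∃ p : ℕ → Cnd T, Run Q x ν W p₀ p ∧
      ∀ n ζ, (p (n + 1)).len < ζ → ζ ≤ (p (n + 2)).len → h ((p (n + 2)).fn ζ) ≤ v ζ := by
  have hk : ∀ (n : ℕ) (q : Q), ∃ ζ < δ, h (Tp q.1 (x n) (ν n)) ≤ v ζ := fun n q =>
    hv2 (h (Tp q.1 (x n) (ν n)))
  choose zz hz1 hz2 using hk
  let st : ℕ → Q → Q := fun n q =>
    ⟨J (E q.1 (zz n q)) (x n) (ν n),
      (H.J1 _ (H.E1 q.1 q.2 (zz n q) (hz1 n q)).1 (x n) (hx n) n).1⟩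
  let p : ℕ → Q := fun n => Nat.rec ⟨p₀, h0⟩ st n
  have hp : ∀ n, (p (n + 1)).1 = J (E (p n).1 (zz n (p n))) (x n) (ν n) := fun n => rfl
  have hE : ∀ n, E (p n).1 (zz n (p n)) ∈ Q ∧ E (p n).1 (zz n (p n)) ≤ (p n).1 ∧
      zz n (p n) ≤ (E (p n).1 (zz n (p n))).len := fun n => H.E1 _ (p n).2 _ (hz1 n (p n))
  have hJ : ∀ n, (p (n + 1)).1 ≤ E (p n).1 (zz n (p n)) ∧
      (E (p n).1 (zz n (p n))).len < (p (n + 1)).1.len ∧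
      x n < (p (n + 1)).1.len ∧ W (p (n + 1)).1 (x n) ∧
      (p (n + 1)).1.len ≤ Bd (E (p n).1 (zz n (p n))) (x n) ∧
      ∀ ζ, (E (p n).1 (zz n (p n))).len < ζ → ζ ≤ (p (n + 1)).1.len →
        ν n < (p (n + 1)).1.fn ζ := by
    intro n
    rw [hp]
    exact (H.J1 _ (hE n).1 (x n) (hx n) n).2
  refine ⟨fun n => (p n).1, ⟨rfl, fun n => (p n).2, fun n => (hJ n).1.trans (hE n).2.1,
    fun n => (hJ n).2.2.1, fun n => ?_, fun n => (hJ n).2.2.2.1⟩, fun n ζ h1 h2 => ?_⟩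
  · exact (hJ n).2.2.2.2.2 _ (hJ n).2.1 le_rfl
  · have hζδ : ζ < δ := h2.trans_lt (H.len _ (p (n + 2)).2)
    have hfγ : ∀ n, Tp (p n).1 (x n) (ν n) < γ := fun n => H.T1 _ (p n).2 _ (hx n) n
    change h ((p (n + 1 + 1)).1.fn ζ) ≤ v ζ
    rcases le_or_gt ζ (E (p (n + 1)).1 (zz (n + 1) (p (n + 1)))).len with h3 | h3
    · have h4 : (p (n + 1 + 1)).1.fn ζ = (E (p (n + 1)).1 (zz (n + 1) (p (n + 1)))).fn ζ :=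
        (hJ (n + 1)).1.2 ζ h3
      have h5 : (p (n + 1 + 1)).1.fn ζ ≤ Tp (p n).1 (x n) (ν n) := by
        rw [h4]
        refine (fn_le_top _ h3).trans ?_
        have h6 := H.T3 (p n).1 (p n).2 (x n) (hx n) n (zz n (p n)) (hz1 n (p n))
          (zz (n + 1) (p (n + 1))) (hz1 (n + 1) (p (n + 1)))
        rw [← hp n] at h6
        exact h6
      refine (hh _ _ h5 (hfγ n)).trans ((hz2 n (p n)).trans (hv _ _ ?_ hζδ))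
      exact ((hE n).2.2.trans (hJ n).2.1.le).trans h1.le
    · have h5 : (p (n + 1 + 1)).1.fn ζ ≤ Tp (p (n + 1)).1 (x (n + 1)) (ν (n + 1)) := by
        refine (fn_le_top _ h2).trans ?_
        have h6 := H.T2 (p (n + 1)).1 (p (n + 1)).2 (x (n + 1)) (hx (n + 1)) (n + 1)
          (zz (n + 1) (p (n + 1))) (hz1 (n + 1) (p (n + 1)))
        rw [← hp (n + 1)] at h6
        exact h6
      exact (hh _ _ h5 (hfγ (n + 1))).trans ((hz2 (n + 1) (p (n + 1))).trans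
        (hv _ _ ((hE (n + 1)).2.2.trans h3.le) hζδ))

theorem Run.anti {p₀ : Cnd T} {p : ℕ → Cnd T} (h : Run Q x ν W p₀ p) {m n : ℕ} (hmn : m ≤ n) :
    p n ≤ p m :=
  antitone_nat_of_succ_le h.le hmn

theorem Run.locate {p₀ : Cnd T} {p : ℕ → Cnd T} (h : Run Q x ν W p₀ p)
    (hx : ∀ ξ < δ, ∃ n, ξ < x n) (m : ℕ) {ξ : Ordinal.{u}} (h1 : (p m).len < ξ) (h2 : ξ < δ) :
    ∃ n, m ≤ n ∧ (p n).len < ξ ∧ ξ ≤ (p (n + 1)).len := by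
  classical
  have hex : ∃ n, ξ ≤ (p n).len := by
    obtain ⟨n, hn⟩ := hx ξ h2
    exact ⟨n + 1, (hn.trans (h.len n)).le⟩
  have h3 := Nat.find_spec hex
  have h4 : m < Nat.find hex := by
    by_contra h5
    push Not at h5
    exact absurd (h3.trans (h.anti h5).1) (not_le.2 h1)
  obtain ⟨n, hn⟩ : ∃ n, Nat.find hex = n + 1 := ⟨Nat.find hex - 1, by omega⟩
  rw [hn] at h3 h4
  refine ⟨n, by omega, ?_, h3⟩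
  have h5 : ¬ ξ ≤ (p n).len := Nat.find_min hex (by omega)
  exact not_le.1 h5

/-- There is a sequence the union of which satisfies the right alternative. -/
theorem run_pat (S : Steer T.Gd T.P1 T.P0) (H : Ops Q δ γ ν W E J Bd Tp) (hδ : δ < ω_ 1)
    (hlim : Order.IsSuccLimit δ) (hG : T.Gd γ) (hc : γ.cof = ℵ₀)
    (hx : ∀ n, x n < δ) (hx2 : ∀ ξ < δ, ∃ n, ξ < x n) (hν : ∀ n, ν n < γ)
    (hν2 : ∀ ζ < γ, ∃ n, ζ < ν n) {p₀ : Cnd T} (h0 : p₀ ∈ Q) :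
    ∃ p : ℕ → Cnd T, Run Q x ν W p₀ p ∧ ∀ g : Ordinal.{u} → Ordinal.{u},
      (∀ n, ∀ ξ ≤ (p n).len, g ξ = (p n).fn ξ) → g δ = γ →
        (δ ∈ T.A → T.P1 δ γ g) ∧ (δ ∉ T.A → T.P0 δ γ g) := by
  have hlt : ∀ p : ℕ → Cnd T, Run Q x ν W p₀ p → ∀ g : Ordinal.{u} → Ordinal.{u},
      (∀ n, ∀ ξ ≤ (p n).len, g ξ = (p n).fn ξ) → ∀ ξ < δ, g ξ < γ := by
    intro p hp g hg ξ hξ
    obtain ⟨n, hn⟩ := hx2 ξ hξ
    have h1 : ξ ≤ (p (n + 1)).len := (hn.trans (hp.len n)).le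
    rw [hg (n + 1) ξ h1]
    exact (fn_le_top _ h1).trans_lt (H.top _ (hp.mem _))
  by_cases hA : δ ∈ T.A
  · obtain ⟨g, w, h1, h2, h3, h4⟩ := S.fast δ hδ hlim γ hG hc
    obtain ⟨p, hp, h5⟩ := run_fast H hx hν hν2 h0 h1 h2 h3
    refine ⟨p, hp, fun q hq hq2 => ⟨fun _ => h4 q (hlt p hp q hq) hq2 ?_, fun h => absurd hA h⟩⟩
    refine ⟨(p 0).len, H.len _ (hp.mem 0), fun ξ h6 h7 => ?_⟩
    obtain ⟨n, -, h8, h9⟩ := hp.locate hx2 0 h6 h7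
    rw [hq (n + 1) ξ h9]
    exact h5 n ξ h8 h9
  · obtain ⟨v, h, h1, h2, h3, h4⟩ := S.slow δ hδ hlim γ hG hc
    obtain ⟨p, hp, h5⟩ := run_slow H hx h0 h1 h2 h3
    refine ⟨p, hp, fun q hq hq2 => ⟨fun h => absurd h hA, fun _ => h4 q (hlt p hp q hq) hq2 ?_⟩⟩
    refine ⟨(p 1).len, H.len _ (hp.mem 1), fun ξ h6 h7 => ?_⟩
    obtain ⟨n, hn, h8, h9⟩ := hp.locate hx2 1 h6 h7
    obtain ⟨m, rfl⟩ : ∃ m, n = m + 1 := ⟨n - 1, by omega⟩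
    rw [hq (m + 1 + 1) ξ h9]
    exact h5 m ξ h8 h9

end Cnd

end Pool.Agent.Helper62.GL
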