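import Pool.Agent.Helper62.GL.In

/-!
# Auxiliary notions: from countable ordinals to ordinals below `ω₂`
-/

open FirstOrder FirstOrder.Language Ordinal Cardinal Set Helper23.Pcf

universe u v

namespace Pool.Agent.Helper62.GL

open Pool.Agent.Helper56.MW (LSet DefBy val)
open Pool.Agent.Helper97.FP (Enum)

/-- `g` enumerates the image of `ξ` under `f` in increasing order, in length `δ`. -/
def Enu (f : Ordinal.{u} → Ordinal.{u}) (ξ δ : Ordinal.{u}) (g : Ordinal.{u} → Ordinal.{u}) :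
    Prop :=
  (∀ i < δ, ∃ ζ < ξ, f ζ = g i) ∧ (∀ ζ < ξ, ∃ i < δ, g i = f ζ) ∧ ∀ i < δ, ∀ j < i, g j < g i

/-- The order type of the image of `ξ` under `f` belongs to the domain of `D`. -/
def Dn (D : Ordinal.{u} → ZFSet.{u} → Prop) (f : Ordinal.{u} → Ordinal.{u}) (ξ : Ordinal.{u}) :
    Prop :=
  ∃ δ, ∃ g : ZFSet.{u}, Enu f ξ δ (val g) ∧ ∃ Z, D δ Z

/-- The map coded by `e` is eventually below the copy, along the image of `ξ` under `f`, of an
element of the family given by `D`. -/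
def Ev (o : Ordinal.{u}) (D : Ordinal.{u} → ZFSet.{u} → Prop) (f : Ordinal.{u} → Ordinal.{u})
    (ξ : Ordinal.{u}) (e : ZFSet.{u}) : Prop :=
  ∃ δ, ∃ g : ZFSet.{u}, Enu f ξ δ (val g) ∧ ∃ Z, D δ Z ∧ ∃ c ∈ Z, ∃ m < o, ∀ n < o, m ≤ n →
    val e n ≤ val g (val c n)

/-- `e` is the graph of the map it codes. -/
def Gr (o : Ordinal.{u}) (e : ZFSet.{u}) : Prop :=
  ∀ z, z ∈ e ↔ ∃ n < o, z = ZFSet.pair n.toZFSet (val e n).toZFSet

/-- `e` belongs to the family of maps into `α` obtained from `D`. -/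
def Xm (w o α : Ordinal.{u}) (D : Ordinal.{u} → ZFSet.{u} → Prop) (e : ZFSet.{u}) : Prop :=
  Gr o e ∧ Cs o α e ∧ ∃ f : ZFSet.{u}, Enum w α (val f) ∧
    ¬ StatIn {ξ | Dn D (val f) ξ ∧ ¬ Ev o D (val f) ξ e} w

/-- `X` is the family of maps into `α` obtained from `D`. -/
def IsX (w o α : Ordinal.{u}) (D : Ordinal.{u} → ZFSet.{u} → Prop) (X : ZFSet.{u}) : Prop :=
  ∀ e, e ∈ X ↔ Xm w o α D e

end Pool.Agent.Helper62.GL
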