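import Pool.Agent.Helper62.GL.As
import Pool.Agent.Helper62.GL.Ud

/-!
# From countable ordinals to ordinals below `ω₂`
-/

open FirstOrder FirstOrder.Language Ordinal Cardinal Set Helper23.Pcf

universe u v

namespace Pool.Agent.Helper62.GL

open Pool.Agent.Helper56.MW (LSet MM OrdDef HasDefWO Df DefBy LexLt val Nrm exists_val exists_set
  defBy_wo_gen stat_iUnion stat_cof H6_countable aleph0_lt_cof_omega1)
open Pool.Agent.Helper97.FP (Wo Agr Univ Enum enum_agree regular_aleph2)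
open Pool.Agent.Helper56.GL (exists_seq exists_dom bdd_of_few isGraph_range)

/-! ### Domination -/

theorem exists_upper (h : MM.{u}) {α : Ordinal.{u}} (hc : α.cof = ℵ₀)
    (b : Ordinal.{u} → ℕ → Ordinal.{u}) (hb : ∀ ξ n, b ξ n < α) :
    ∃ t : ℕ → Ordinal.{u}, (∀ n, t n < α) ∧ ∀ ξ < ω_ 1, ∃ m, ∀ n ≥ m, b ξ n ≤ t n := by
  obtain ⟨ν, hν⟩ := exists_seq hc
  choose F hF using fun ξ n => hν.cof (b ξ n) (hb ξ n)
  obtain ⟨d, hd⟩ := exists_dom h F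
  refine ⟨fun n => ν (d n), fun n => hν.lt _, fun ξ hξ => ?_⟩
  obtain ⟨m, hm⟩ := hd ξ hξ
  exact ⟨m, fun n hn => (hF ξ n).le.trans (hν.mono.monotone (hm n hn))⟩

theorem exists_lower (h : MM.{u}) {α : Ordinal.{u}} (hc : α.cof = ℵ₀)
    (hl : ∀ β < α, β + ω < α) (b : Ordinal.{u} → ℕ → Ordinal.{u})
    (hb : ∀ ξ, ∀ β < α, ∃ N, ∀ n ≥ N, β ≤ b ξ n) :
    ∃ e : ℕ → Ordinal.{u}, CofSeq α e ∧ ∀ ξ < ω_ 1, ∃ m, ∀ n ≥ m, e n ≤ b ξ n := by
  obtain ⟨ν, hν⟩ := exists_seq hc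
  choose F hF using fun ξ k => hb ξ (ν k + ω) (hl _ (hν.lt k))
  obtain ⟨d, hd⟩ := exists_dom h F
  let k : ℕ → ℕ := fun n => Nat.findGreatest (fun k => d k ≤ n) n
  have hk1 : ∀ K, ∀ n ≥ max K (d K), K ≤ k n := fun K n hn =>
    Nat.le_findGreatest ((le_max_left _ _).trans hn) ((le_max_right _ _).trans hn)
  have hk2 : ∀ K, ∀ n ≥ max K (d K), d (k n) ≤ n := fun K n hn =>
    Nat.findGreatest_spec (P := fun k => d k ≤ n) ((le_max_left _ _).trans hn)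
      ((le_max_right _ _).trans hn)
  have hk3 : ∀ n, k n ≤ k (n + 1) := fun n =>
    Nat.findGreatest_mono (fun k hk => hk.trans (Nat.le_succ n)) (Nat.le_succ n)
  have hw : ∀ n : ℕ, (n : Ordinal.{u}) < ω := Ordinal.natCast_lt_omega0
  refine ⟨fun n => ν (k n) + n, ⟨strictMono_nat_of_lt_succ fun n => ?_, fun n => ?_,
    fun β hβ => ?_⟩, fun ξ hξ => ?_⟩
  · refine lt_of_le_of_lt (add_le_add_left (hν.mono.monotone (hk3 n)) _) ?_
    exact (add_lt_add_iff_left _).2 (by exact_mod_cast Nat.lt_succ_self n)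
  · exact lt_of_le_of_lt (add_le_add_right (hw n).le _) (hl _ (hν.lt _))
  · obtain ⟨K, hK⟩ := hν.cof β hβ
    refine ⟨max K (d K), hK.trans_le ?_⟩
    exact (hν.mono.monotone (hk1 K _ le_rfl)).trans le_self_add
  · obtain ⟨m, hm⟩ := hd ξ hξ
    refine ⟨max m (d m), fun n hn => ?_⟩
    have h1 : F ξ (k n) ≤ n := (hm _ (hk1 m n hn)).trans (hk2 m n hn)
    exact (add_le_add_right (hw n).le _).trans (hF ξ (k n) n h1)

/-! ### Increasing enumerations -/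

section

variable {f f' : Ordinal.{u} → Ordinal.{u}} {ξ δ δ' α : Ordinal.{u}}
  {g g' : Ordinal.{u} → Ordinal.{u}}

theorem exists_enu (hf : ∀ ζ < ξ, f ζ < α) : ∃ δ g, Enu f ξ δ g := by
  let S : Set Ordinal.{u} := f '' Iio ξ ∪ Ici α
  have hS : ¬ BddAbove S := by
    rintro ⟨b, hb⟩
    have h1 : Order.succ (max b α) ∈ S := Or.inr ((le_max_right b α).trans (Order.le_succ _))
    exact absurd (hb h1) (not_le.2 (lt_of_le_of_lt (le_max_left b α) (Order.lt_succ _)))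
  have h2 : ∀ x ∈ S, ∃ i, enumOrd S i = x := by
    intro x hx
    rw [← Ordinal.range_enumOrd hS] at hx
    exact hx
  obtain ⟨δ, hδ⟩ := h2 α (Or.inr (mem_Ici.2 le_rfl))
  have hm := Ordinal.enumOrd_strictMono hS
  refine ⟨δ, enumOrd S, fun i hi => ?_, fun ζ hζ => ?_, fun i _ j hj => hm hj⟩
  · rcases Ordinal.enumOrd_mem hS i with h3 | h3
    · obtain ⟨ζ, hζ, h4⟩ := h3
      exact ⟨ζ, hζ, h4⟩
    · have h4 := hm hi
      rw [hδ] at h4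
      exact absurd h4 (not_lt.2 h3)
  · obtain ⟨i, hi⟩ := h2 (f ζ) (Or.inl ⟨ζ, hζ, rfl⟩)
    refine ⟨i, ?_, hi⟩
    by_contra h3
    have h4 := hm.monotone (not_lt.1 h3)
    rw [hδ, hi] at h4
    exact absurd h4 (not_le.2 (hf ζ hζ))

theorem Enu.le (h : Enu f ξ δ g) {i j : Ordinal.{u}} (hi : i < δ) (hj : j ≤ i) : g j ≤ g i := by
  rcases hj.lt_or_eq with h1 | rfl
  · exact (h.2.2 i hi j h1).le
  · exact le_rfl

theorem Enu.aux (h : Enu f ξ δ g) (h' : Enu f ξ δ' g') :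
    ∀ i < δ, i < δ' ∧ g i = g' i := by
  intro i
  induction i using WellFoundedLT.induction with
  | ind i ih =>
    intro hi
    obtain ⟨ζ, hζ, h1⟩ := h.1 i hi
    obtain ⟨j, hj, h2⟩ := h'.2.1 ζ hζ
    rw [h1] at h2
    rcases lt_trichotomy j i with h3 | rfl | h3
    · have h4 := (ih j h3 (h3.trans hi)).2
      rw [h2] at h4
      exact absurd (h.2.2 i hi j h3) (by rw [h4]; exact lt_irrefl _)
    · exact ⟨hj, h2.symm⟩
    · obtain ⟨ζ', hζ', h4⟩ := h'.1 i (h3.trans hj)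
      obtain ⟨k, hk, h5⟩ := h.2.1 ζ' hζ'
      rw [h4] at h5
      have h6 : g' i < g' j := h'.2.2 j hj i h3
      rw [← h5, h2] at h6
      have h7 : k < i := by
        by_contra h8
        exact absurd h6 (not_lt.2 (h.le hk (not_lt.1 h8)))
      have h8 := (ih k h7 hk).2
      rw [h5] at h8
      exact absurd (h'.2.2 i (h3.trans hj) k h7) (by rw [← h8]; exact lt_irrefl _)

theorem Enu.unique (h : Enu f ξ δ g) (h' : Enu f ξ δ' g') : δ = δ' ∧ ∀ i < δ, g i = g' i := by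
  refine ⟨le_antisymm ?_ ?_, fun i hi => (h.aux h' i hi).2⟩
  · by_contra h1
    exact absurd (h.aux h' δ' (not_le.1 h1)).1 (lt_irrefl _)
  · by_contra h1
    exact absurd (h'.aux h δ (not_le.1 h1)).1 (lt_irrefl _)

theorem Enu.congr (h : Enu f ξ δ g) (hff : f '' Iio ξ = f' '' Iio ξ)
    (hg : ∀ i < δ, g i = g' i) : Enu f' ξ δ g' := by
  refine ⟨fun i hi => ?_, fun ζ hζ => ?_, fun i hi j hj => ?_⟩
  · obtain ⟨ζ, hζ, h1⟩ := h.1 i hi
    have h2 : f ζ ∈ f' '' Iio ξ := hff ▸ ⟨ζ, hζ, rfl⟩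
    obtain ⟨ζ', hζ', h3⟩ := h2
    exact ⟨ζ', hζ', by rw [h3, h1, hg i hi]⟩
  · have h2 : f' ζ ∈ f '' Iio ξ := hff ▸ ⟨ζ, hζ, rfl⟩
    obtain ⟨ζ', hζ', h3⟩ := h2
    obtain ⟨i, hi, h4⟩ := h.2.1 ζ' hζ'
    exact ⟨i, hi, by rw [← hg i hi, h4, h3]⟩
  · rw [← hg i hi, ← hg j (hj.trans hi)]
    exact h.2.2 i hi j hj

/-- An enumeration coded by a set. -/
theorem exists_enu_val (hf : ∀ ζ < ξ, f ζ < α) : ∃ δ, ∃ g : ZFSet.{u}, Enu f ξ δ (val g) := by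
  obtain ⟨δ, g, hg⟩ := exists_enu hf
  obtain ⟨g', hg'⟩ := exists_val g δ
  exact ⟨δ, g', hg.congr rfl fun i hi => (hg' i hi).symm⟩

theorem Enu.lt_omega1 (h : Enu f ξ δ g) (hξ : ξ < ω_ 1) : δ < ω_ 1 := by
  choose! z hz1 hz2 using h.1
  have h1 : #(Iio δ) ≤ #(Iio ξ) := by
    refine Cardinal.mk_le_of_injective (f := fun i : Iio δ => (⟨z i.1, hz1 i.1 i.2⟩ : Iio ξ)) ?_
    intro i j hij
    have h2 : z i.1 = z j.1 := congrArg Subtype.val hij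
    have h3 : g i.1 = g j.1 := by rw [← hz2 i.1 i.2, ← hz2 j.1 j.2, h2]
    apply Subtype.ext
    rcases lt_trichotomy i.1 j.1 with h4 | h4 | h4
    · exact absurd (h.2.2 j.1 j.2 i.1 h4) (by rw [h3]; exact lt_irrefl _)
    · exact h4
    · exact absurd (h.2.2 i.1 i.2 j.1 h4) (by rw [h3]; exact lt_irrefl _)
  rw [Cardinal.mk_Iio_ordinal, Cardinal.mk_Iio_ordinal, Cardinal.lift_le] at h1
  rw [← Cardinal.ord_aleph, Cardinal.lt_ord] at hξ ⊢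
  exact h1.trans_lt hξ

theorem Enu.isSuccLimit (h : Enu f ξ δ g) (h0 : 0 < α)
    (hu : ∀ β < α, ∃ ζ < ξ, β < f ζ) (hf : ∀ ζ < ξ, f ζ < α) : Order.IsSuccLimit δ := by
  rw [Ordinal.isSuccLimit_iff]
  refine ⟨?_, ?_⟩
  · rintro rfl
    obtain ⟨ζ, hζ, -⟩ := hu 0 h0
    obtain ⟨i, hi, -⟩ := h.2.1 ζ hζ
    exact absurd hi not_lt_zero
  · intro i hi
    have hi1 : i < δ := hi.lt
    obtain ⟨ζ, hζ, h1⟩ := h.1 i hi1
    obtain ⟨ζ', hζ', h2⟩ := hu (f ζ) (hf ζ hζ)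
    obtain ⟨j, hj, h3⟩ := h.2.1 ζ' hζ'
    have h4 : i < j := by
      by_contra h5
      have h6 := h.le hi1 (not_lt.1 h5)
      rw [h3, ← h1] at h6
      exact absurd h2 (not_lt.2 h6)
    exact hi.2 h4 hj

/-- The copy of a cofinal map. -/
theorem Enu.cofSeq (h : Enu f ξ δ g) (hu : ∀ β < α, ∃ ζ < ξ, β < f ζ) (hf : ∀ ζ < ξ, f ζ < α)
    {c : ZFSet.{u}} (hc : Cs ω δ c) : CofSeq α (fun n : ℕ => g (val c n)) := by
  have hw : ∀ n : ℕ, (n : Ordinal.{u}) < ω := Ordinal.natCast_lt_omega0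
  refine ⟨fun m n hmn => ?_, fun n => ?_, fun β hβ => ?_⟩
  · exact h.2.2 _ (hc.1 n (hw n)) _ (hc.2.1 n (hw n) m (by exact_mod_cast hmn))
  · obtain ⟨ζ, hζ, h1⟩ := h.1 _ (hc.1 n (hw n))
    show g (val c n) < α
    rw [← h1]
    exact hf ζ hζ
  · obtain ⟨ζ, hζ, h1⟩ := hu β hβ
    obtain ⟨i, hi, h2⟩ := h.2.1 ζ hζ
    obtain ⟨n, hn, h3⟩ := hc.2.2 i hi
    obtain ⟨k, rfl⟩ := Ordinal.lt_omega0.1 hn
    refine ⟨k, ?_⟩
    rw [← h2] at h1
    exact h1.trans (h.2.2 _ (hc.1 k hn) _ h3)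

end

end Pool.Agent.Helper62.GL
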